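import Mathlib

/-!
# Riemannian notions used in the statement

Everything is for a smooth manifold `M` modelled on `ℝⁿ` (without boundary) with a Riemannian
metric, in the sense of Mathlib (`RiemannianBundle`, `IsContMDiffRiemannianBundle`,
`IsRiemannianManifold`).
-/

open scoped Manifold ContDiff Topology ENNReal Bundle
open MeasureTheory Bundle Set

noncomputable section

namespace Pool.Agent.H82

/-- `ℝⁿ` with its Euclidean structure. -/
abbrev Rn (n : ℕ) : Type := EuclideanSpace ℝ (Fin n)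

section coordinates

variable {n : ℕ}

/-- The `k`-th first order derivative `∂ₖ f` of a real function of `n` real variables. -/
def pd (k : Fin n) (f : Rn n → ℝ) (y : Rn n) : ℝ :=
  fderiv ℝ f y (EuclideanSpace.single k 1)

/-- Christoffel symbols `Γᵏᵢⱼ = ½ ∑ₗ Gᵏˡ (∂ᵢ Gⱼₗ + ∂ⱼ Gᵢₗ - ∂ₗ Gᵢⱼ)` of the metric with
coefficients `Gᵢⱼ` in coordinates; `Gᵏˡ` is the inverse matrix. -/
def christoffel (G : Fin n → Fin n → Rn n → ℝ) (k i j : Fin n) (y : Rn n) : ℝ :=
  1 / 2 * ∑ l, (Matrix.of fun a b => G a b y)⁻¹ k l *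
    (pd i (G j l) y + pd j (G i l) y - pd l (G i j) y)

/-- Coefficients of the Ricci tensor in coordinates:
`Rᵢⱼ = ∑ₖ (∂ₖ Γᵏᵢⱼ - ∂ⱼ Γᵏᵢₖ) + ∑ₖₗ (Γᵏₖₗ Γˡᵢⱼ - Γᵏⱼₗ Γˡᵢₖ)`. -/
def ricci (G : Fin n → Fin n → Rn n → ℝ) (i j : Fin n) (y : Rn n) : ℝ :=
  ∑ k, (pd k (christoffel G k i j) y - pd j (christoffel G k i k) y) +
    ∑ k, ∑ l, (christoffel G k k l y * christoffel G l i j y -
      christoffel G k j l y * christoffel G l i k y)

end coordinates

section manifold

variable (n : ℕ) (M : Type) [TopologicalSpace M] [ChartedSpace (Rn n) M]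
  [RiemannianBundle (fun x : M => TangentSpace (𝓡 n) x)]

variable {M} in
/-- The `i`-th coordinate vector field of the chart at `x₀`, at the point with coordinates `y`. -/
def coordVec (x₀ : M) (i : Fin n) (y : Rn n) :
    TangentSpace (𝓡 n) ((chartAt (Rn n) x₀).symm y) :=
  mfderiv (𝓡 n) (𝓡 n) (chartAt (Rn n) x₀).symm y (EuclideanSpace.single i 1)

variable {M} in
/-- The coefficients `Gᵢⱼ = g(∂ᵢ, ∂ⱼ)` of the Riemannian metric in the chart at `x₀`. -/
def metricCoeff (x₀ : M) (i j : Fin n) (y : Rn n) : ℝ :=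
  inner ℝ (coordVec n x₀ i y) (coordVec n x₀ j y)

/-- Strictly positive Ricci curvature: in the chart at any point `x₀`, at each point `y` of the
image of the chart, `Ric(v, v) > 0` for each nonzero vector `v = ∑ vᵢ ∂ᵢ`. -/
def StrictlyPositiveRicci : Prop :=
  ∀ x₀ : M, ∀ y ∈ (chartAt (Rn n) x₀).target, ∀ v : Fin n → ℝ, v ≠ 0 →
    0 < ∑ i, ∑ j, ricci (metricCoeff n x₀) i j y * v i * v j

/-- `μ` is the Riemannian volume measure: in each chart it is `√(det Gᵢⱼ)` times Lebesgue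
measure. -/
def IsRiemannianVolume [MeasurableSpace M] (μ : Measure M) : Prop :=
  ∀ (x₀ : M) (A : Set M), MeasurableSet A → A ⊆ (chartAt (Rn n) x₀).source →
    μ A = ∫⁻ y in (chartAt (Rn n) x₀) '' A,
      ENNReal.ofReal (Real.sqrt (Matrix.of fun i j => metricCoeff n x₀ i j y).det)

end manifold

section metric

variable {M : Type} [EMetricSpace M]

/-- `γ` is a minimizing geodesic from `x` to `y`, parametrised on `[0, 1]` proportionally to arc
length: `d(γ s, γ t) = |s - t| d(x, y)` for all `s`, `t`. -/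
def IsMinimizingGeodesic (x y : M) (γ : unitInterval → M) : Prop :=
  γ 0 = x ∧ γ 1 = y ∧ ∀ s t : unitInterval,
    edist (γ s) (γ t) = ENNReal.ofReal |(s : ℝ) - t| * edist x y

/-- `Γ` is geodesically convex: any two points of `Γ` are joined by a unique minimizing geodesic
of `M`, and this geodesic lies in `Γ`. -/
def GeodesicallyConvex (Γ : Set M) : Prop :=
  ∀ x ∈ Γ, ∀ y ∈ Γ, ∃ γ : unitInterval → M, IsMinimizingGeodesic x y γ ∧ (∀ t, γ t ∈ Γ) ∧
    ∀ γ' : unitInterval → M, IsMinimizingGeodesic x y γ' → γ' = γ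

end metric

end Pool.Agent.H82
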