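import Mathlib
import Pool.Agent.H82.Defs

open scoped Manifold ContDiff Topology ENNReal Bundle
open MeasureTheory Bundle Set

noncomputable section

namespace Pool.Agent.H82

/-- conformally flat coefficients -/
def confG (w : Rn 2 → ℝ) (i j : Fin 2) (y : Rn 2) : ℝ := if i = j then Real.exp (2 * w y) else 0

lemma pd_const {n : ℕ} (k : Fin n) (a : ℝ) (y : Rn n) : pd k (fun _ => a) y = 0 := by
  simp [pd]

lemma pd_exp {w : Rn 2 → ℝ} (hw : ContDiff ℝ ∞ w) (k : Fin 2) (y : Rn 2) :
    pd k (fun y => Real.exp (2 * w y)) y = 2 * Real.exp (2 * w y) * pd k w y := by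
  unfold pd
  have h : DifferentiableAt ℝ w y := (hw.differentiable (by simp)) y
  have := ((h.hasFDerivAt.const_mul 2).exp).fderiv
  rw [this]
  simp
  ring

lemma pd_confG {w : Rn 2 → ℝ} (hw : ContDiff ℝ ∞ w) (k i j : Fin 2) (y : Rn 2) :
    pd k (confG w i j) y = if i = j then 2 * Real.exp (2 * w y) * pd k w y else 0 := by
  by_cases h : i = j
  · have : confG w i j = fun y => Real.exp (2 * w y) := by
      ext y; simp [confG, h]
    rw [this, pd_exp hw, if_pos h]
  · have : confG w i j = fun y => 0 := by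
      ext y; simp [confG, h]
    rw [this, pd_const, if_neg h]

lemma inv_confG (w : Rn 2 → ℝ) (y : Rn 2) :
    (Matrix.of fun a b => confG w a b y)⁻¹ = Matrix.diagonal (fun _ => Real.exp (-(2 * w y))) := by
  apply Matrix.inv_eq_left_inv
  ext i j
  fin_cases i <;> fin_cases j <;>
    simp [Matrix.mul_apply, confG, ← Real.exp_add]

lemma christoffel_confG {w : Rn 2 → ℝ} (hw : ContDiff ℝ ∞ w) (k i j : Fin 2) (y : Rn 2) :
    christoffel (confG w) k i j y =
      (if k = j then pd i w y else 0) + (if k = i then pd j w y else 0)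
        - (if i = j then pd k w y else 0) := by
  unfold christoffel
  rw [inv_confG]
  simp only [pd_confG hw]
  have e : Real.exp (-(2 * w y)) * Real.exp (2 * w y) = 1 := by
    rw [← Real.exp_add]; simp
  fin_cases k <;> fin_cases i <;> fin_cases j <;>
    simp [Fin.sum_univ_two] <;>
    first
      | linear_combination (pd 0 w y) * e
      | linear_combination (pd 1 w y) * e

lemma differentiable_pd {w : Rn 2 → ℝ} (hw : ContDiff ℝ ∞ w) (k : Fin 2) :
    Differentiable ℝ (pd k w) := by
  have h1 : ContDiff ℝ ∞ (fderiv ℝ w) := hw.fderiv_right (by simp)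
  have h2 : ContDiff ℝ ∞ (fun y => fderiv ℝ w y (EuclideanSpace.single k 1)) :=
    h1.clm_apply contDiff_const
  exact h2.differentiable (by simp)

lemma pd_symm {w : Rn 2 → ℝ} (hw : ContDiff ℝ ∞ w) (k l : Fin 2) (y : Rn 2) :
    pd k (pd l w) y = pd l (pd k w) y := by
  have h1 : ContDiff ℝ ∞ (fderiv ℝ w) := hw.fderiv_right (by simp)
  have h2 : ∀ k l : Fin 2, pd k (pd l w) y =
      fderiv ℝ (fderiv ℝ w) y (EuclideanSpace.single k 1) (EuclideanSpace.single l 1) := by
    intro k l
    have h3 : DifferentiableAt ℝ (fderiv ℝ w) y := h1.differentiable (by simp) y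
    have h4 := (h3.hasFDerivAt.clm_apply
      (hasFDerivAt_const (EuclideanSpace.single l (1 : ℝ) : Rn 2) y)).fderiv
    unfold pd
    rw [h4]
    simp
  have h5 : IsSymmSndFDerivAt ℝ w y := hw.contDiffAt.isSymmSndFDerivAt (by simpa using ENat.LEInfty.out)
  rw [h2, h2]
  exact h5 _ _

lemma pd_add {f g : Rn 2 → ℝ} (hf : Differentiable ℝ f) (hg : Differentiable ℝ g) (k : Fin 2)
    (y : Rn 2) : pd k (fun y => f y + g y) y = pd k f y + pd k g y := by
  unfold pd
  rw [fderiv_fun_add (hf y) (hg y)]
  simp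

lemma pd_sub {f g : Rn 2 → ℝ} (hf : Differentiable ℝ f) (hg : Differentiable ℝ g) (k : Fin 2)
    (y : Rn 2) : pd k (fun y => f y - g y) y = pd k f y - pd k g y := by
  unfold pd
  rw [fderiv_fun_sub (hf y) (hg y)]
  simp

lemma pd_neg {f : Rn 2 → ℝ} (k : Fin 2)
    (y : Rn 2) : pd k (fun y => - f y) y = - pd k f y := by
  unfold pd
  rw [fderiv_fun_neg]
  simp

/-- Ricci curvature of the conformally flat metric `e^{2w}(dx² + dy²)`. -/
lemma ricci_confG {w : Rn 2 → ℝ} (hw : ContDiff ℝ ∞ w) (i j : Fin 2) (y : Rn 2) :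
    ricci (confG w) i j y = if i = j then -(pd 0 (pd 0 w) y + pd 1 (pd 1 w) y) else 0 := by
  have hC : ∀ k i j, christoffel (confG w) k i j = fun y => (if k = j then pd i w y else 0) +
      (if k = i then pd j w y else 0) - (if i = j then pd k w y else 0) := by
    intro k i j; ext y; exact christoffel_confG hw k i j y
  have d0 := differentiable_pd hw 0
  have d1 := differentiable_pd hw 1
  have s := pd_symm hw 0 1 y
  unfold ricci
  simp only [hC]
  fin_cases i <;> fin_cases j <;>
    simp [Fin.sum_univ_two, pd_neg] <;>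
    first
      | linear_combination (0 : ℝ) * s
      | linear_combination s
      | linear_combination -s

/-- first derivative along a coordinate line -/
lemma hasDerivAt_line {f : Rn 2 → ℝ} (hf : Differentiable ℝ f) (k : Fin 2) (y : Rn 2) (t : ℝ) :
    HasDerivAt (fun t : ℝ => f (y + t • EuclideanSpace.single k 1))
      (pd k f (y + t • EuclideanSpace.single k 1)) t := by
  have h1 : HasDerivAt (fun t : ℝ => y + t • (EuclideanSpace.single k 1 : Rn 2))
      (EuclideanSpace.single k 1) t := by
    simpa using ((hasDerivAt_id t).smul_const (EuclideanSpace.single k 1 : Rn 2)).const_add y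
  exact (hf _).hasFDerivAt.comp_hasDerivAt t h1

/-- The second derivative `∂ₖ∂ₖ w` is computed along the coordinate line. -/
lemma pd_pd_eq {w : Rn 2 → ℝ} (hw : ContDiff ℝ ∞ w) (k : Fin 2) (y : Rn 2) {φ' : ℝ → ℝ} {φ'' : ℝ}
    (h1 : ∀ t, HasDerivAt (fun t : ℝ => w (y + t • EuclideanSpace.single k 1)) (φ' t) t)
    (h2 : HasDerivAt φ' φ'' 0) : pd k (pd k w) y = φ'' := by
  have e : φ' = fun t : ℝ => pd k w (y + t • EuclideanSpace.single k 1) := by
    ext t
    exact (h1 t).unique (hasDerivAt_line (hw.differentiable (by simp)) k y t)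
  rw [e] at h2
  have h3 := hasDerivAt_line (differentiable_pd hw k) k y 0
  have := h3.unique h2
  simpa using this

end Pool.Agent.H82
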