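import Mathlib
import Pool.Agent.H82.Defs

open scoped Manifold ContDiff Topology ENNReal NNReal Bundle
open MeasureTheory Bundle Set Metric

noncomputable section
namespace Pool.Agent.H82

abbrev E3 := EuclideanSpace ℝ (Fin 3)
abbrev S2 := sphere (0 : E3) 1
abbrev R2 := Rn 2

instance : Fact (Module.finrank ℝ E3 = 2 + 1) := ⟨by simp⟩

/-- differential of the inclusion -/
def dι (x : S2) : R2 →L[ℝ] E3 :=
  (mfderiv (𝓡 2) 𝓘(ℝ, E3) ((↑) : S2 → E3) x : TangentSpace (𝓡 2) x →L[ℝ] E3)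

set_option linter.deprecated false in
lemma dι_injective (x : S2) : Function.Injective (dι x) := by
  exact mfderiv_coe_sphere_injective (n := 2) (E := E3) x

def bil (A : R2 →L[ℝ] E3) : R2 →L[ℝ] R2 →L[ℝ] ℝ := (innerSL ℝ (E := E3)).bilinearComp A A

lemma bil_apply (A : R2 →L[ℝ] E3) (v w : R2) : bil A v w = inner ℝ (A v) (A w) := by
  simp [bil]

def confInner (F : E3 → ℝ) (x : S2) : R2 →L[ℝ] R2 →L[ℝ] ℝ :=
  F x • bil (dι x)

lemma confInner_apply (F : E3 → ℝ) (x : S2) (v w : R2) :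
    confInner F x v w = F x * inner ℝ (dι x v) (dι x w) := by
  simp [confInner, bil_apply]

lemma confInner_symm (F : E3 → ℝ) (x : S2) (v w : R2) :
    confInner F x v w = confInner F x w v := by
  rw [confInner_apply, confInner_apply, real_inner_comm]

lemma confInner_pos {F : E3 → ℝ} (hpos : ∀ x, 0 < F x) (x : S2) (v : R2) (hv : v ≠ 0) :
    0 < confInner F x v v := by
  rw [confInner_apply]
  apply mul_pos (hpos _)
  rw [real_inner_self_pos]
  intro h
  apply hv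
  apply dι_injective x
  rw [h, map_zero]

lemma contDiff_bil {n : ℕ∞ω} : ContDiff ℝ n bil := by
  rw [contDiff_clm_apply_iff]
  intro v
  rw [contDiff_clm_apply_iff]
  intro w
  simp only [bil_apply]
  exact (contDiff_id.clm_apply contDiff_const).inner ℝ (contDiff_id.clm_apply contDiff_const)

lemma confInner_bounded {F : E3 → ℝ} (hpos : ∀ x, 0 < F x) (x : S2) :
    Bornology.IsVonNBounded ℝ {v : R2 | confInner F x v v < 1} := by
  -- the continuous linear injective map dι x is bounded below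
  obtain ⟨K, hK, hA⟩ : ∃ K : ℝ≥0, 0 < K ∧ AntilipschitzWith K (dι x) := by
    exact (LinearMap.injective_iff_antilipschitz (dι x : R2 →ₗ[ℝ] E3)).1 (dι_injective x)
  rw [NormedSpace.isVonNBounded_iff, isBounded_iff_forall_norm_le]
  refine ⟨K * (Real.sqrt (F x))⁻¹, ?_⟩
  intro v hv
  have hv' : confInner F x v v < 1 := hv
  rw [confInner_apply, real_inner_self_eq_norm_sq] at hv'
  have h1 : ‖v‖ ≤ K * ‖dι x v‖ := by
    have := hA.le_mul_dist v 0
    simpa using this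
  have h2 : (Real.sqrt (F x) * ‖dι x v‖) ^ 2 < 1 := by
    rw [mul_pow, Real.sq_sqrt (hpos _).le]; exact hv'
  have h3 : Real.sqrt (F x) * ‖dι x v‖ ≤ 1 := by
    nlinarith [mul_nonneg (Real.sqrt_nonneg (F x)) (norm_nonneg (dι x v))]
  have h4 : 0 < Real.sqrt (F x) := Real.sqrt_pos.2 (hpos _)
  have h5 : ‖dι x v‖ ≤ (Real.sqrt (F x))⁻¹ := by
    rw [← one_div, le_div_iff₀ h4]; linarith
  calc ‖v‖ ≤ K * ‖dι x v‖ := h1
    _ ≤ K * (Real.sqrt (F x))⁻¹ := by gcongr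

set_option backward.isDefEq.respectTransparency false in
lemma contMDiff_confInner {F : E3 → ℝ} (hF : ContDiff ℝ ∞ F) :
    ContMDiff (𝓡 2) ((𝓡 2).prod 𝓘(ℝ, R2 →L[ℝ] R2 →L[ℝ] ℝ)) ∞
      (fun b : S2 ↦ (TotalSpace.mk' (R2 →L[ℝ] R2 →L[ℝ] ℝ) b (confInner F b) :
        TotalSpace (R2 →L[ℝ] R2 →L[ℝ] ℝ)
        (fun b : S2 => TangentSpace (𝓡 2) b →L[ℝ] TangentSpace (𝓡 2) b →L[ℝ] ℝ))) := by
  intro x₀
  rw [contMDiffAt_section]
  have hD : ContMDiffAt (𝓡 2) 𝓘(ℝ, R2 →L[ℝ] E3) ∞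
      (inTangentCoordinates (𝓡 2) 𝓘(ℝ, E3) id (fun x : S2 => (x : E3)) (fun x => dι x) x₀) x₀ :=
    ContMDiffAt.mfderiv_const (n := ∞) (contMDiff_coe_sphere x₀) (by simp)
  have hF' : ContMDiffAt (𝓡 2) 𝓘(ℝ, ℝ) ∞ (fun x : S2 => F x) x₀ :=
    (hF.contMDiff.comp contMDiff_coe_sphere) x₀
  have hB : ContMDiffAt (𝓡 2) 𝓘(ℝ, R2 →L[ℝ] R2 →L[ℝ] ℝ) ∞
      (fun x : S2 => F x • bil (inTangentCoordinates (𝓡 2) 𝓘(ℝ, E3) id
        (fun x : S2 => (x : E3)) (fun x => dι x) x₀ x)) x₀ :=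
    hF'.smul ((contDiff_bil (n := ∞)).contMDiff.contMDiffAt.comp x₀ hD)
  apply hB.congr_of_eventuallyEq
  have hx₀ : (chartAt R2 x₀).source ∈ 𝓝 x₀ := chart_source_mem_nhds R2 x₀
  filter_upwards [hx₀] with x hx
  have key : ∀ v : R2, inTangentCoordinates (𝓡 2) 𝓘(ℝ, E3) id (fun x : S2 => (x : E3))
      (fun x => dι x) x₀ x v = dι x ((trivializationAt R2 (TangentSpace (𝓡 2)) x₀).symm x v) := by
    intro v
    unfold inTangentCoordinates
    rw [ContinuousLinearMap.inCoordinates_eq (by simpa using hx) (by simp)]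
    simp
    rfl
  ext v w
  rw [hom_trivializationAt_apply]
  simp only []
  rw [inCoordinates_apply_eq₂ (by simpa using hx) (by simpa using hx) (by simp)]
  simp only [Trivial.fiberBundle_trivializationAt', Trivial.linearMapAt_trivialization,
    LinearMap.id_coe, id_eq]
  rw [smul_apply, smul_apply, bil_apply, key, key,
    smul_eq_mul]
  exact confInner_apply _ _ _ _

def confMetric (F : E3 → ℝ) (hF : ContDiff ℝ ∞ F) (hpos : ∀ x, 0 < F x) :
    ContMDiffRiemannianMetric (𝓡 2) ∞ R2 (fun x : S2 => TangentSpace (𝓡 2) x) where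
  inner x := confInner F x
  symm x v w := confInner_symm F x v w
  pos x v hv := confInner_pos hpos x v hv
  isVonNBounded x := confInner_bounded hpos x
  contMDiff := contMDiff_confInner hF

/-- a conformal factor (for the inner product) -/
structure Conf where
  F : E3 → ℝ
  smooth : ContDiff ℝ ∞ F
  pos : ∀ x, 0 < F x

/-- the unit sphere with the Riemannian metric `F` times the round one -/
def SG (_c : Conf) : Type := S2

section inst
variable (c : Conf)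

instance : TopologicalSpace (SG c) := inferInstanceAs (TopologicalSpace S2)
instance : ChartedSpace R2 (SG c) := inferInstanceAs (ChartedSpace R2 S2)
instance : IsManifold (𝓡 2) ∞ (SG c) := inferInstanceAs (IsManifold (𝓡 2) ∞ S2)
instance : T3Space (SG c) := inferInstanceAs (T3Space S2)
instance : CompactSpace (SG c) := inferInstanceAs (CompactSpace S2)

instance instRB : RiemannianBundle (fun x : SG c => TangentSpace (𝓡 2) x) :=
  ⟨(confMetric c.F c.smooth c.pos).toRiemannianMetric⟩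

instance instSRB : IsContMDiffRiemannianBundle (𝓡 2) ∞ R2 (fun x : SG c => TangentSpace (𝓡 2) x) :=
  ⟨(confMetric c.F c.smooth c.pos).inner, (confMetric c.F c.smooth c.pos).contMDiff,
    fun _ _ _ ↦ rfl⟩

lemma inner_eq (x : SG c) (v w : TangentSpace (𝓡 2) x) :
    inner ℝ v w = confInner c.F x v w := rfl

/-- the point of `ℝ³` underlying a point of `SG c` -/
def SG.val {c : Conf} (x : SG c) : E3 := Subtype.val (p := fun y => y ∈ sphere (0 : E3) 1) x

lemma norm_eq (x : SG c) (v : TangentSpace (𝓡 2) x) :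
    ‖v‖ = Real.sqrt (c.F x.val) * ‖dι x v‖ := by
  rw [norm_eq_sqrt_real_inner, inner_eq]
  have := confInner_apply c.F x v v
  rw [this, real_inner_self_eq_norm_sq, Real.sqrt_mul (c.pos _).le, Real.sqrt_sq (norm_nonneg _)]
  rfl

lemma enorm_eq (x : SG c) (v : TangentSpace (𝓡 2) x) :
    ‖v‖ₑ = ENNReal.ofReal (Real.sqrt (c.F x.val)) * ‖dι x v‖ₑ := by
  rw [← ofReal_norm, norm_eq, ENNReal.ofReal_mul (Real.sqrt_nonneg _),
    ofReal_norm]

/-- Riemannian distance of `F` times the round metric -/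
def gE (x y : S2) : ℝ≥0∞ := Manifold.riemannianEDist (𝓡 2) (M := SG c) x y

/-- length of a curve in the sphere -/
def len (γ : ℝ → E3) (a b : ℝ) : ℝ≥0∞ :=
  ∫⁻ t in Icc a b, ENNReal.ofReal (Real.sqrt (c.F (γ t))) * ‖deriv γ t‖ₑ

lemma pathELength_eq {γ : ℝ → SG c} (hγ : ContMDiff 𝓘(ℝ, ℝ) (𝓡 2) 1 γ) (a b : ℝ) :
    Manifold.pathELength (𝓡 2) γ a b = len c (fun t => (γ t).val) a b := by
  rw [Manifold.pathELength_eq_lintegral_mfderiv_Icc]
  unfold len
  congr 1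
  ext t
  have h1 : MDifferentiableAt 𝓘(ℝ, ℝ) (𝓡 2) (M' := S2) γ t := hγ.mdifferentiable one_ne_zero t
  have h2 : MDifferentiableAt (𝓡 2) 𝓘(ℝ, E3) ((↑) : S2 → E3) (γ t) :=
    (contMDiff_coe_sphere (m := 1) (γ t : S2)).mdifferentiableAt one_ne_zero
  have h3 := mfderiv_comp t h2 h1
  rw [enorm_eq c (γ t)]
  congr 2
  have h4 : mfderiv 𝓘(ℝ, ℝ) 𝓘(ℝ, E3) (fun t => (γ t).val) t (1 : ℝ) =
      deriv (fun t => (γ t).val) t := by
    rw [mfderiv_eq_fderiv]; rfl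
  rw [← h4]
  have h5 : mfderiv 𝓘(ℝ, ℝ) 𝓘(ℝ, E3) (fun t => (γ t).val) t =
    (mfderiv (𝓡 2) 𝓘(ℝ, E3) ((↑) : S2 → E3) (γ t)).comp
      (mfderiv 𝓘(ℝ, ℝ) (𝓡 2) (M' := S2) γ t) := h3
  rw [h5]
  rfl

lemma gE_le_len {γ : ℝ → E3} (hγ : ContDiff ℝ 1 γ) (h1 : ∀ t, ‖γ t‖ = 1) {a b : ℝ} (hab : a ≤ b)
    {x y : S2} (hx : γ a = x) (hy : γ b = y) : gE c x y ≤ len c γ a b := by
  have hm : ∀ t, γ t ∈ sphere (0 : E3) 1 := fun t => by simp [h1 t]
  let η : ℝ → S2 := Set.codRestrict γ _ hm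
  have hη : ContMDiff 𝓘(ℝ, ℝ) (𝓡 2) 1 η :=
    ContMDiff.codRestrict_sphere (n := 2) hγ.contMDiff hm
  have := Manifold.riemannianEDist_le_pathELength (I := 𝓡 2) (M := SG c) (γ := η) (a := a) (b := b)
    (x := x) (y := y) hη.contMDiffOn (Subtype.ext hx) (Subtype.ext hy) hab
  unfold gE
  apply this.trans
  rw [pathELength_eq c hη]
  exact le_of_eq rfl

lemma exists_len_lt {x y : S2} {r : ℝ≥0∞} (h : gE c x y < r) :
    ∃ γ : ℝ → E3, ContDiff ℝ 1 γ ∧ (∀ t, ‖γ t‖ = 1) ∧ γ 0 = x ∧ γ 1 = y ∧ len c γ 0 1 < r := by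
  obtain ⟨γ, h0, h1, hγ, hl, -, -⟩ :=
    Manifold.exists_lt_locally_constant_of_riemannianEDist_lt (I := 𝓡 2) (M := SG c) h zero_lt_one
  have hγ' : ContMDiff 𝓘(ℝ, ℝ) (𝓡 2) 1 (M' := S2) γ := hγ
  refine ⟨fun t => (γ t).val, ?_, fun t => ?_, ?_, ?_, ?_⟩
  · have := (contMDiff_coe_sphere (m := 1) (n := 2) (E := E3)).comp hγ'
    exact contMDiff_iff_contDiff.1 this
  · exact norm_eq_of_mem_sphere (γ t : S2)
  · show (γ 0).val = x
    rw [h0]; rfl
  · show (γ 1).val = y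
    rw [h1]; rfl
  · rw [← pathELength_eq c hγ]
    exact hl

end inst

end Pool.Agent.H82
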