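import Mathlib
import Pool.Agent.H82.SphereMetric
import Pool.Agent.H82.Ricci2D

open scoped Manifold ContDiff Topology ENNReal NNReal Bundle
open MeasureTheory Bundle Set Metric

noncomputable section
namespace Pool.Agent.H82

/-- inverse stereographic projection (as a map to `ℝ³`) written with a linear isometry `A` of `ℝ²`
onto the orthogonal complement of `v` -/
def psi (A : R2 →ₗᵢ[ℝ] E3) (v : E3) (y : R2) : E3 :=
  v + (‖y‖ ^ 2 + 4)⁻¹ • ((4 : ℝ) • A y - (8 : ℝ) • v)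

lemma exists_psi (v : S2) : ∃ A : R2 →ₗᵢ[ℝ] E3, (∀ y, inner ℝ (A y) (v : E3) = 0) ∧
    ∀ y : R2, ((stereographic' 2 v).symm y : E3) = psi A v y := by
  let U : (ℝ ∙ (v : E3))ᗮ ≃ₗᵢ[ℝ] EuclideanSpace ℝ (Fin 2) :=
        (OrthonormalBasis.fromOrthogonalSpanSingleton 2 (ne_zero_of_mem_unit_sphere v)).repr
  let A : R2 →ₗᵢ[ℝ] E3 := (Submodule.subtypeₗᵢ _).comp U.symm.toLinearIsometry
  refine ⟨A, fun y => ?_, fun y => ?_⟩
  · have h := (U.symm y).2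
    rw [Submodule.mem_orthogonal_singleton_iff_inner_left] at h
    exact h
  · rw [stereographic'_symm_apply]
    have h1 : ‖((U.symm y : (ℝ ∙ (v : E3))ᗮ) : E3)‖ = ‖y‖ := A.norm_map y
    have h0 : (‖y‖ ^ 2 + 4) ≠ 0 := by positivity
    show (‖((U.symm y : (ℝ ∙ (v : E3))ᗮ) : E3)‖ ^ 2 + 4)⁻¹ • (4 : ℝ) • (A y) +
        (‖((U.symm y : (ℝ ∙ (v : E3))ᗮ) : E3)‖ ^ 2 + 4)⁻¹ •
        (‖((U.symm y : (ℝ ∙ (v : E3))ᗮ) : E3)‖ ^ 2 - 4) • (v : E3) = _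
    rw [h1]
    unfold psi
    match_scalars
    · field_simp
    · field_simp; ring

variable {A : R2 →ₗᵢ[ℝ] E3} {v : E3}

lemma psi_contDiff : ContDiff ℝ ∞ (psi A v) := by
  unfold psi
  have h1 : ContDiff ℝ ∞ (fun y : R2 => ‖y‖ ^ 2 + 4) := (contDiff_norm_sq ℝ).add contDiff_const
  have h2 : ContDiff ℝ ∞ (fun y : R2 => (‖y‖ ^ 2 + 4)⁻¹) :=
    h1.inv (fun y => by positivity)
  exact contDiff_const.add (h2.smul ((A.contDiff.const_smul _).sub contDiff_const))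

lemma psi_hasFDerivAt (y : R2) : HasFDerivAt (psi A v)
    ((‖y‖ ^ 2 + 4)⁻¹ • ((4 : ℝ) • A.toContinuousLinearMap) +
      ((-((‖y‖ ^ 2 + 4) ^ 2)⁻¹) • ((2 : ℝ) • innerSL ℝ y)).smulRight
        ((4 : ℝ) • A y - (8 : ℝ) • v)) y := by
  have h0 : (‖y‖ ^ 2 + 4) ≠ 0 := by positivity
  have h1 : HasFDerivAt (fun y : R2 => ‖y‖ ^ 2 + 4) ((2 : ℝ) • innerSL ℝ y) y := by
    have h := (hasStrictFDerivAt_norm_sq y).hasFDerivAt.add_const (4 : ℝ)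
    have e : (2 : ℕ) • innerSL ℝ y = (2 : ℝ) • innerSL ℝ y := by rw [two_smul, two_smul]
    rw [e] at h
    exact h
  have h2 : HasFDerivAt (fun y : R2 => (‖y‖ ^ 2 + 4)⁻¹)
      ((-((‖y‖ ^ 2 + 4) ^ 2)⁻¹) • ((2 : ℝ) • innerSL ℝ y)) y :=
    (hasDerivAt_inv h0).comp_hasFDerivAt y h1
  have h3 : HasFDerivAt (fun y : R2 => (4 : ℝ) • A y - (8 : ℝ) • v)
      ((4 : ℝ) • A.toContinuousLinearMap) y :=
    (A.toContinuousLinearMap.hasFDerivAt.const_smul (4 : ℝ)).sub_const _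
  have h4 := (h2.smul h3).const_add v
  exact h4

lemma psi_fderiv (y a : R2) : fderiv ℝ (psi A v) y a =
    (‖y‖ ^ 2 + 4)⁻¹ • ((4 : ℝ) • A a) -
      (2 * ((‖y‖ ^ 2 + 4) ^ 2)⁻¹ * inner ℝ y a) • ((4 : ℝ) • A y - (8 : ℝ) • v) := by
  rw [(psi_hasFDerivAt y).fderiv]
  simp
  module

lemma psi_fderiv_inner (hv : ‖v‖ = 1) (hA : ∀ y, inner ℝ (A y) v = 0) (y a b : R2) :
    inner ℝ (fderiv ℝ (psi A v) y a) (fderiv ℝ (psi A v) y b) =
      16 / (‖y‖ ^ 2 + 4) ^ 2 * inner ℝ a b := by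
  have h0 : (‖y‖ ^ 2 + 4) ≠ 0 := by positivity
  have hA' : ∀ y, inner ℝ v (A y) = 0 := fun y => by rw [real_inner_comm]; exact hA y
  rw [psi_fderiv, psi_fderiv]
  simp only [inner_sub_left, inner_sub_right, inner_smul_left, inner_smul_right, hA, hA',
    A.inner_map_map, conj_trivial, real_inner_self_eq_norm_sq, hv, real_inner_comm y a]
  field_simp
  ring


lemma dι_mfderiv_chart_symm (x₀ : S2) (y a : R2) :
    dι ((chartAt R2 x₀).symm y)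
      (mfderiv (𝓡 2) (𝓡 2) (chartAt R2 x₀).symm y a : TangentSpace (𝓡 2) _) =
    fderiv ℝ (fun y : R2 => (((chartAt R2 x₀).symm y : S2) : E3)) y a := by
  have hy : y ∈ (chartAt R2 x₀).target := by
    show y ∈ (stereographic' 2 (-x₀)).target
    simp
  have h1 : MDifferentiableAt (𝓡 2) (𝓡 2) (chartAt R2 x₀).symm y :=
    mdifferentiableAt_atlas_symm (chart_mem_atlas _ _) hy
  have h2 : MDifferentiableAt (𝓡 2) 𝓘(ℝ, E3) ((↑) : S2 → E3) ((chartAt R2 x₀).symm y) :=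
    (contMDiff_coe_sphere (m := 1) _).mdifferentiableAt one_ne_zero
  have h3 := mfderiv_comp y h2 h1
  have h4 : mfderiv (𝓡 2) 𝓘(ℝ, E3) (fun y : R2 => (((chartAt R2 x₀).symm y : S2) : E3)) y a =
    fderiv ℝ (fun y : R2 => (((chartAt R2 x₀).symm y : S2) : E3)) y a := by
    rw [mfderiv_eq_fderiv]; rfl
  rw [← h4]
  have h5 : mfderiv (𝓡 2) 𝓘(ℝ, E3) (fun y : R2 => (((chartAt R2 x₀).symm y : S2) : E3)) y =
    (mfderiv (𝓡 2) 𝓘(ℝ, E3) ((↑) : S2 → E3) ((chartAt R2 x₀).symm y)).comp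
      (mfderiv (𝓡 2) (𝓡 2) (chartAt R2 x₀).symm y) := h3
  rw [h5]
  rfl

lemma metricCoeff_eq (c : Conf) (x₀ : SG c) : ∃ (A : R2 →ₗᵢ[ℝ] E3) (v : E3), ‖v‖ = 1 ∧
    v = -x₀.val ∧
    (∀ y, inner ℝ (A y) v = 0) ∧
    (∀ y : R2, SG.val (c := c) ((chartAt R2 x₀).symm y) = psi A v y) ∧
    ∀ i j y, metricCoeff 2 x₀ i j y =
      if i = j then c.F (psi A v y) * (16 / (‖y‖ ^ 2 + 4) ^ 2) else 0 := by
  let x₁ : S2 := x₀
  obtain ⟨A, hA, hpsi⟩ := exists_psi (-x₁)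
  have hv : ‖((-x₁ : S2) : E3)‖ = 1 := norm_eq_of_mem_sphere _
  refine ⟨A, ((-x₁ : S2) : E3), hv, rfl, hA, hpsi, fun i j y => ?_⟩
  have hf : (fun y : R2 => (((chartAt R2 x₁).symm y : S2) : E3)) = psi A ((-x₁ : S2) : E3) := by
    ext1 y; exact hpsi y
  have h1 : metricCoeff 2 x₀ i j y = confInner c.F ((chartAt R2 x₁).symm y)
      (mfderiv (𝓡 2) (𝓡 2) (chartAt R2 x₁).symm y (EuclideanSpace.single i 1))
      (mfderiv (𝓡 2) (𝓡 2) (chartAt R2 x₁).symm y (EuclideanSpace.single j 1)) := rfl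
  rw [h1]
  have h2 := confInner_apply c.F ((chartAt R2 x₁).symm y)
      (mfderiv (𝓡 2) (𝓡 2) (chartAt R2 x₁).symm y (EuclideanSpace.single i 1))
      (mfderiv (𝓡 2) (𝓡 2) (chartAt R2 x₁).symm y (EuclideanSpace.single j 1))
  rw [h2, dι_mfderiv_chart_symm, dι_mfderiv_chart_symm, hf, psi_fderiv_inner hv hA]
  have h3 : (((chartAt R2 x₁).symm y : S2) : E3) = psi A ((-x₁ : S2) : E3) y := hpsi y
  rw [h3]
  have h4 : inner ℝ (EuclideanSpace.single i (1:ℝ) : R2) (EuclideanSpace.single j (1 : ℝ)) =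
      if i = j then (1:ℝ) else 0 := by
    rw [EuclideanSpace.inner_single_left]
    simp
  rw [h4]
  split_ifs <;> simp

end Pool.Agent.H82
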