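import Mathlib
import Pool.Agent.H82.SphereChart

open scoped Manifold ContDiff Topology ENNReal NNReal Bundle
open MeasureTheory Bundle Set Metric

noncomputable section
namespace Pool.Agent.H82

/-- the first two coordinates as a complex number -/
def zc (X : E3) : ℂ := ⟨X 0, X 1⟩

def zcL : E3 →L[ℝ] ℂ :=
  LinearMap.toContinuousLinearMap
    { toFun := zc
      map_add' := fun x y => by apply Complex.ext <;> simp [zc]
      map_smul' := fun c x => by apply Complex.ext <;> simp [zc] }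

lemma zcL_apply (X : E3) : zcL X = zc X := rfl

lemma zc_add (x y : E3) : zc (x + y) = zc x + zc y := zcL.map_add x y
lemma zc_smul (r : ℝ) (x : E3) : zc (r • x) = r • zc x := zcL.map_smul r x

lemma norm_zc_le (X : E3) : ‖zc X‖ ≤ ‖X‖ := by
  have h1 : ‖zc X‖ ^ 2 ≤ ‖X‖ ^ 2 := by
    rw [Complex.sq_norm, Complex.normSq_apply, EuclideanSpace.norm_sq_eq, Fin.sum_univ_three]
    simp only [zc, Real.norm_eq_abs, sq_abs]
    nlinarith [sq_nonneg (X 2)]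
  exact le_of_sq_le_sq h1 (norm_nonneg _)

/-- the function whose zero set is the union of the ridges -/
def q (m : ℕ) (X : E3) : ℝ := ((zc X) ^ m).im

lemma q_contDiff (m : ℕ) : ContDiff ℝ ∞ (q m) := by
  have h1 : ContDiff ℝ ∞ (fun X : E3 => (zcL X) ^ m) := zcL.contDiff.pow m
  exact Complex.imCLM.contDiff.comp h1

/-- the logarithm of the conformal factor -/
def uu (κ s : ℝ) (m : ℕ) (X : E3) : ℝ := -(κ * Real.sqrt (s ^ 2 + q m X ^ 2))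

lemma uu_contDiff (κ : ℝ) {s : ℝ} (hs : 0 < s) (m : ℕ) : ContDiff ℝ ∞ (uu κ s m) := by
  unfold uu
  apply ContDiff.neg
  apply contDiff_const.mul
  apply ContDiff.sqrt
  · exact contDiff_const.add ((q_contDiff m).pow 2)
  · intro x; positivity

/-- the conformal factor `e^{2u}` -/
def cf (κ : ℝ) {s : ℝ} (hs : 0 < s) (m : ℕ) : Conf where
  F X := Real.exp (2 * uu κ s m X)
  smooth := (contDiff_const.mul (uu_contDiff κ hs m)).exp
  pos _ := Real.exp_pos _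

/-- one variable computation -/
lemma hasDerivAt_U {κ s : ℝ} (hs : 0 < s) {Q Q' : ℝ → ℝ} {Q'' : ℝ}
    (hQ : ∀ t, HasDerivAt Q (Q' t) t) (hQ' : HasDerivAt Q' Q'' 0) :
    (∀ t, HasDerivAt (fun t => -(κ * Real.sqrt (s ^ 2 + Q t ^ 2)))
      (-(κ * (Q t * Q' t / Real.sqrt (s ^ 2 + Q t ^ 2)))) t) ∧
    HasDerivAt (fun t => -(κ * (Q t * Q' t / Real.sqrt (s ^ 2 + Q t ^ 2))))
      (-(κ * (Q 0 * Q'' / Real.sqrt (s ^ 2 + Q 0 ^ 2) +
        s ^ 2 * Q' 0 ^ 2 / Real.sqrt (s ^ 2 + Q 0 ^ 2) ^ 3))) 0 := by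
  have hR : ∀ t, HasDerivAt (fun t => Real.sqrt (s ^ 2 + Q t ^ 2))
      (Q t * Q' t / Real.sqrt (s ^ 2 + Q t ^ 2)) t := by
    intro t
    have h1 : HasDerivAt (fun t => s ^ 2 + Q t ^ 2) (2 * Q t * Q' t) t := by
      simpa using ((hQ t).pow 2).const_add (s ^ 2)
    have h2 : s ^ 2 + Q t ^ 2 ≠ 0 := by positivity
    convert h1.sqrt h2 using 1
    field_simp
  refine ⟨fun t => ((hR t).const_mul κ).neg, ?_⟩
  have hpos : 0 < s ^ 2 + Q 0 ^ 2 := by positivity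
  have hR0 : 0 < Real.sqrt (s ^ 2 + Q 0 ^ 2) := Real.sqrt_pos.2 hpos
  have hsq : Real.sqrt (s ^ 2 + Q 0 ^ 2) ^ 2 = s ^ 2 + Q 0 ^ 2 := Real.sq_sqrt hpos.le
  have h3 : HasDerivAt (fun t => Q t * Q' t / Real.sqrt (s ^ 2 + Q t ^ 2))
      (((Q' 0 * Q' 0 + Q 0 * Q'') * Real.sqrt (s ^ 2 + Q 0 ^ 2) -
        (Q 0 * Q' 0) * (Q 0 * Q' 0 / Real.sqrt (s ^ 2 + Q 0 ^ 2))) /
        Real.sqrt (s ^ 2 + Q 0 ^ 2) ^ 2) 0 := ((hQ 0).mul hQ').div (hR 0) hR0.ne'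
  refine ((h3.const_mul κ).neg).congr_deriv ?_
  set R := Real.sqrt (s ^ 2 + Q 0 ^ 2) with hRdef
  field_simp
  have : s ^ 2 = R ^ 2 - Q 0 ^ 2 := by rw [hsq]; ring
  rw [this]
  ring

lemma hasDerivAt_im {f : ℝ → ℂ} {f' : ℂ} {t : ℝ} (h : HasDerivAt f f' t) :
    HasDerivAt (fun t => (f t).im) f'.im t :=
  Complex.imCLM.hasFDerivAt.comp_hasDerivAt t h

/-- derivative of `Im (α ^ m)` -/
lemma hasDerivAt_Q {α α' : ℝ → ℂ} {α'' : ℂ} (m : ℕ)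
    (h1 : ∀ t, HasDerivAt α (α' t) t) (h2 : HasDerivAt α' α'' 0) :
    (∀ t, HasDerivAt (fun t => (α t ^ m).im) ((m * α t ^ (m - 1) * α' t).im) t) ∧
    HasDerivAt (fun t => ((m : ℂ) * α t ^ (m - 1) * α' t).im)
      (m * (((m - 1 : ℕ) : ℂ) * α 0 ^ (m - 1 - 1) * α' 0) * α' 0 +
        m * α 0 ^ (m - 1) * α'').im 0 := by
  refine ⟨fun t => hasDerivAt_im ((h1 t).pow m), hasDerivAt_im ?_⟩
  exact (((h1 0).pow (m - 1)).const_mul (m : ℂ)).mul h2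

/-- the complex coordinate along a line of a stereographic chart -/
lemma hasDerivAt_alpha (A : R2 →ₗᵢ[ℝ] E3) (v : E3) (y e : R2) (t : ℝ) :
    HasDerivAt (fun t : ℝ => zc (psi A v (y + t • e)))
      (zc (fderiv ℝ (psi A v) (y + t • e) e)) t := by
  have h1 : HasDerivAt (fun t : ℝ => y + t • e) e t := by
    simpa using ((hasDerivAt_id t).smul_const e).const_add y
  have h2 : HasDerivAt (fun t : ℝ => psi A v (y + t • e)) (fderiv ℝ (psi A v) (y + t • e) e) t :=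
    ((psi_contDiff (A := A) (v := v)).differentiable (by simp) _).hasFDerivAt.comp_hasDerivAt t h1
  exact zcL.hasFDerivAt.comp_hasDerivAt t h2

/-- second derivative of inverse stereographic projection along a line (unit direction) -/
def psi2 (A : R2 →ₗᵢ[ℝ] E3) (v : E3) (y e : R2) : E3 :=
  (8 * ((‖y‖ ^ 2 + 4) ^ 3)⁻¹ * (inner ℝ y e) ^ 2 - 2 * ((‖y‖ ^ 2 + 4) ^ 2)⁻¹) •
    ((4 : ℝ) • A y - (8 : ℝ) • v) - (4 * ((‖y‖ ^ 2 + 4) ^ 2)⁻¹ * inner ℝ y e) • ((4 : ℝ) • A e)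

lemma hasDerivAt_psi2 (A : R2 →ₗᵢ[ℝ] E3) (v : E3) (y e : R2) (he : ‖e‖ = 1) :
    HasDerivAt (fun t : ℝ => fderiv ℝ (psi A v) (y + t • e) e) (psi2 A v y e) 0 := by
  have h1 : HasDerivAt (fun t : ℝ => y + t • e) e 0 := by
    simpa using ((hasDerivAt_id (0 : ℝ)).smul_const e).const_add y
  have hN : HasDerivAt (fun t : ℝ => ‖y + t • e‖ ^ 2 + 4) (2 * inner ℝ y e) 0 := by
    have := (h1.norm_sq).add_const (4 : ℝ)
    simpa using this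
  have h0 : ‖y + (0 : ℝ) • e‖ ^ 2 + 4 ≠ 0 := by positivity
  have hNi : HasDerivAt (fun t : ℝ => (‖y + t • e‖ ^ 2 + 4)⁻¹)
      (-(2 * inner ℝ y e) / (‖y + (0 : ℝ) • e‖ ^ 2 + 4) ^ 2) 0 := hN.inv h0
  have hN2 : HasDerivAt (fun t : ℝ => ((‖y + t • e‖ ^ 2 + 4) ^ 2)⁻¹)
      (-(2 * (‖y + (0 : ℝ) • e‖ ^ 2 + 4) ^ 1 * (2 * inner ℝ y e)) /
        ((‖y + (0 : ℝ) • e‖ ^ 2 + 4) ^ 2) ^ 2) 0 := by
    exact ((hN.pow 2).inv (pow_ne_zero 2 h0)).congr_deriv (by simp)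
  have hi : HasDerivAt (fun t : ℝ => inner ℝ (y + t • e) e) (inner ℝ e e) 0 := by
    have := h1.inner ℝ (hasDerivAt_const (0 : ℝ) e)
    simpa using this
  have hb : HasDerivAt (fun t : ℝ => (4 : ℝ) • A (y + t • e) - (8 : ℝ) • v) ((4 : ℝ) • A e) 0 := by
    have := ((A.toContinuousLinearMap.hasFDerivAt.comp_hasDerivAt (0 : ℝ) h1).const_smul
      (4 : ℝ)).sub_const ((8 : ℝ) • v)
    exact this
  have h5 : (fun t : ℝ => fderiv ℝ (psi A v) (y + t • e) e) = fun t : ℝ =>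
      (‖y + t • e‖ ^ 2 + 4)⁻¹ • ((4 : ℝ) • A e) -
      (2 * ((‖y + t • e‖ ^ 2 + 4) ^ 2)⁻¹ * inner ℝ (y + t • e) e) •
        ((4 : ℝ) • A (y + t • e) - (8 : ℝ) • v) := by
    ext1 t
    exact psi_fderiv _ _
  rw [h5]
  have hm : HasDerivAt (fun t : ℝ => 2 * ((‖y + t • e‖ ^ 2 + 4) ^ 2)⁻¹ * inner ℝ (y + t • e) e)
      (2 * (-(2 * (‖y + (0 : ℝ) • e‖ ^ 2 + 4) ^ 1 * (2 * inner ℝ y e)) /
        ((‖y + (0 : ℝ) • e‖ ^ 2 + 4) ^ 2) ^ 2) * inner ℝ (y + (0 : ℝ) • e) e +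
        2 * ((‖y + (0 : ℝ) • e‖ ^ 2 + 4) ^ 2)⁻¹ * inner ℝ e e) 0 := (hN2.const_mul 2).mul hi
  have hs : HasDerivAt (fun t : ℝ => (2 * ((‖y + t • e‖ ^ 2 + 4) ^ 2)⁻¹ *
      inner ℝ (y + t • e) e) • ((4 : ℝ) • A (y + t • e) - (8 : ℝ) • v))
      ((2 * ((‖y + (0 : ℝ) • e‖ ^ 2 + 4) ^ 2)⁻¹ * inner ℝ (y + (0 : ℝ) • e) e) • ((4 : ℝ) • A e) +
      (2 * (-(2 * (‖y + (0 : ℝ) • e‖ ^ 2 + 4) ^ 1 * (2 * inner ℝ y e)) /
        ((‖y + (0 : ℝ) • e‖ ^ 2 + 4) ^ 2) ^ 2) * inner ℝ (y + (0 : ℝ) • e) e +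
        2 * ((‖y + (0 : ℝ) • e‖ ^ 2 + 4) ^ 2)⁻¹ * inner ℝ e e) •
        ((4 : ℝ) • A (y + (0 : ℝ) • e) - (8 : ℝ) • v)) 0 := hm.smul hb
  have h6 := (hNi.smul_const ((4 : ℝ) • A e)).sub hs
  refine h6.congr_deriv ?_
  simp only [zero_smul, add_zero]
  unfold psi2
  have hee : inner ℝ e e = (1 : ℝ) := by rw [real_inner_self_eq_norm_sq, he]; norm_num
  rw [hee]
  have h0' : ‖y‖ ^ 2 + 4 ≠ 0 := by positivity
  match_scalars
  · field_simp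
    ring
  · field_simp
    ring
  · field_simp
    ring

lemma basis_norm (k : Fin 2) : ‖(EuclideanSpace.single k 1 : R2)‖ = 1 := by simp

lemma inner_basis (y : R2) (k : Fin 2) : inner ℝ y (EuclideanSpace.single k (1 : ℝ)) = y k := by
  rw [EuclideanSpace.inner_single_right]; simp

lemma psi2_sum (A : R2 →ₗᵢ[ℝ] E3) (v : E3) (y : R2) :
    psi2 A v y (EuclideanSpace.single 0 1) + psi2 A v y (EuclideanSpace.single 1 1) =
      (-(32 / (‖y‖ ^ 2 + 4) ^ 2)) • psi A v y := by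
  have hy : y = y 0 • (EuclideanSpace.single 0 1 : R2) + y 1 • (EuclideanSpace.single 1 1 : R2) := by
    ext i; fin_cases i <;> simp
  have hAy : A y = y 0 • A (EuclideanSpace.single 0 1) + y 1 • A (EuclideanSpace.single 1 1) := by
    conv_lhs => rw [hy]
    rw [map_add, map_smul, map_smul]
  have hn : ‖y‖ ^ 2 = y 0 ^ 2 + y 1 ^ 2 := by
    rw [EuclideanSpace.norm_sq_eq, Fin.sum_univ_two]; simp
  have h0 : y 0 ^ 2 + y 1 ^ 2 + 4 ≠ 0 := by positivity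
  unfold psi2 psi
  rw [inner_basis, inner_basis, hAy, hn]
  match_scalars
  · field_simp
    ring
  · field_simp
    ring
  · field_simp
    ring

variable {A : R2 →ₗᵢ[ℝ] E3} {v : E3}

lemma norm_fderiv_psi (hv : ‖v‖ = 1) (hA : ∀ y, inner ℝ (A y) v = 0) (y e : R2) (he : ‖e‖ = 1) :
    ‖fderiv ℝ (psi A v) y e‖ = 4 / (‖y‖ ^ 2 + 4) := by
  have h := psi_fderiv_inner hv hA y e e
  rw [real_inner_self_eq_norm_sq, real_inner_self_eq_norm_sq, he] at h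
  have h2 : ‖fderiv ℝ (psi A v) y e‖ ^ 2 = (4 / (‖y‖ ^ 2 + 4)) ^ 2 := by
    rw [h, div_pow]; norm_num
  exact (pow_left_inj₀ (norm_nonneg _) (by positivity) two_ne_zero).1 h2

lemma psi_norm (hv : ‖v‖ = 1) (hA : ∀ y, inner ℝ (A y) v = 0) (y : R2) : ‖psi A v y‖ = 1 := by
  have hA' : ∀ y, inner ℝ v (A y) = 0 := fun y => by rw [real_inner_comm]; exact hA y
  have h2 : ‖psi A v y‖ ^ 2 = 1 ^ 2 := by
    rw [← real_inner_self_eq_norm_sq]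
    unfold psi
    simp only [inner_add_left, inner_add_right, inner_sub_left, inner_sub_right, inner_smul_left,
      inner_smul_right, hA, hA', A.inner_map_map, conj_trivial, real_inner_self_eq_norm_sq, hv]
    have h0 : ‖y‖ ^ 2 + 4 ≠ 0 := by positivity
    field_simp
    ring
  exact (pow_left_inj₀ (norm_nonneg _) (by positivity) two_ne_zero).1 h2

/-- the logarithm of the conformal factor of the metric in a stereographic chart -/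
def ww (κ s : ℝ) (m : ℕ) (A : R2 →ₗᵢ[ℝ] E3) (v : E3) (y : R2) : ℝ :=
  uu κ s m (psi A v y) + (Real.log 4 - Real.log (‖y‖ ^ 2 + 4))

lemma ww_contDiff (κ : ℝ) {s : ℝ} (hs : 0 < s) (m : ℕ) (A : R2 →ₗᵢ[ℝ] E3) (v : E3) :
    ContDiff ℝ ∞ (ww κ s m A v) := by
  unfold ww
  apply ((uu_contDiff κ hs m).comp psi_contDiff).add
  apply contDiff_const.sub
  apply ((contDiff_norm_sq ℝ).add contDiff_const).log
  intro x; positivity

lemma exp_ww (κ s : ℝ) (m : ℕ) (A : R2 →ₗᵢ[ℝ] E3) (v : E3) (y : R2) :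
    Real.exp (2 * ww κ s m A v y) =
      Real.exp (2 * uu κ s m (psi A v y)) * (16 / (‖y‖ ^ 2 + 4) ^ 2) := by
  have h0 : 0 < ‖y‖ ^ 2 + 4 := by positivity
  unfold ww
  rw [mul_add, Real.exp_add]
  congr 1
  rw [← Real.log_div (by norm_num) h0.ne', two_mul, Real.exp_add, Real.exp_log (by positivity)]
  field_simp
  norm_num

/-- second derivative of `ww` along a coordinate line -/
lemma pd_pd_ww (κ : ℝ) {s : ℝ} (hs : 0 < s) (m : ℕ) (k : Fin 2) (y : R2) :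
    pd k (pd k (ww κ s m A v)) y =
      -(κ * (q m (psi A v y) * ((m : ℂ) * (((m - 1 : ℕ) : ℂ) * zc (psi A v y) ^ (m - 1 - 1) *
        zc (fderiv ℝ (psi A v) y (EuclideanSpace.single k 1))) *
        zc (fderiv ℝ (psi A v) y (EuclideanSpace.single k 1)) +
        m * zc (psi A v y) ^ (m - 1) * zc (psi2 A v y (EuclideanSpace.single k 1))).im /
          Real.sqrt (s ^ 2 + q m (psi A v y) ^ 2) +
        s ^ 2 * ((m : ℂ) * zc (psi A v y) ^ (m - 1) *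
          zc (fderiv ℝ (psi A v) y (EuclideanSpace.single k 1))).im ^ 2 /
          Real.sqrt (s ^ 2 + q m (psi A v y) ^ 2) ^ 3)) -
      (2 * (‖y‖ ^ 2 + 4) - (2 * y k) ^ 2) / (‖y‖ ^ 2 + 4) ^ 2 := by
  set e : R2 := EuclideanSpace.single k 1 with he
  have hen : ‖e‖ = 1 := basis_norm k
  have hα := fun t => hasDerivAt_alpha A v y e t
  have hα2 : HasDerivAt (fun t : ℝ => zc (fderiv ℝ (psi A v) (y + t • e) e))
      (zc (psi2 A v y e)) 0 := zcL.hasFDerivAt.comp_hasDerivAt 0 (hasDerivAt_psi2 A v y e hen)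
  obtain ⟨hQ, hQ'⟩ := hasDerivAt_Q m hα hα2
  obtain ⟨hU, hU'⟩ := hasDerivAt_U (κ := κ) hs hQ hQ'
  have hN : ∀ t : ℝ, HasDerivAt (fun t : ℝ => ‖y + t • e‖ ^ 2 + 4) (2 * (y k + t)) t := by
    intro t
    have h1 : HasDerivAt (fun t : ℝ => y + t • e) e t := by
      simpa using ((hasDerivAt_id t).smul_const e).const_add y
    refine ((h1.norm_sq).add_const (4 : ℝ)).congr_deriv ?_
    rw [inner_add_left, inner_smul_left, real_inner_self_eq_norm_sq, hen, he, inner_basis]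
    simp
  have hL : ∀ t : ℝ, HasDerivAt (fun t : ℝ => Real.log 4 - Real.log (‖y + t • e‖ ^ 2 + 4))
      (-((2 * (y k + t)) / (‖y + t • e‖ ^ 2 + 4))) t := by
    intro t
    have h0 : ‖y + t • e‖ ^ 2 + 4 ≠ 0 := by positivity
    exact ((hN t).log h0).const_sub _
  have hL' : HasDerivAt (fun t : ℝ => -((2 * (y k + t)) / (‖y + t • e‖ ^ 2 + 4)))
      (-((2 * (‖y‖ ^ 2 + 4) - (2 * y k) ^ 2) / (‖y‖ ^ 2 + 4) ^ 2)) 0 := by
    have h0 : ‖y + (0 : ℝ) • e‖ ^ 2 + 4 ≠ 0 := by positivity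
    have h1 : HasDerivAt (fun t : ℝ => 2 * (y k + t)) (2 * 1) 0 :=
      ((hasDerivAt_id (0 : ℝ)).const_add (y k)).const_mul 2
    refine ((h1.div (hN 0) h0).neg).congr_deriv ?_
    simp only [zero_smul, add_zero]
    ring
  have := pd_pd_eq (ww_contDiff κ hs m A v) k y (fun t => (hU t).add (hL t)) (hU'.add hL')
  rw [this]
  simp only [zero_smul, add_zero]
  rfl

lemma lap_ww_neg {κ s : ℝ} (hκ : 0 ≤ κ) (hs : 0 < s) {m : ℕ} (hm : 1 ≤ m)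
    (hκm : 2 * κ * m ^ 2 < 1) (hv : ‖v‖ = 1) (hA : ∀ y, inner ℝ (A y) v = 0) (y : R2) :
    pd 0 (pd 0 (ww κ s m A v)) y + pd 1 (pd 1 (ww κ s m A v)) y < 0 := by
  rw [pd_pd_ww κ hs, pd_pd_ww κ hs]
  set e0 : R2 := EuclideanSpace.single 0 1 with he0
  set e1 : R2 := EuclideanSpace.single 1 1 with he1
  set N := ‖y‖ ^ 2 + 4 with hN
  have hNpos : 0 < N := by positivity
  set α := zc (psi A v y) with hα
  set α0 := zc (fderiv ℝ (psi A v) y e0) with hα0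
  set α1 := zc (fderiv ℝ (psi A v) y e1) with hα1
  set β0 := zc (psi2 A v y e0) with hβ0
  set β1 := zc (psi2 A v y e1) with hβ1
  set Q := q m (psi A v y) with hQ
  set R := Real.sqrt (s ^ 2 + Q ^ 2) with hR
  have hRpos : 0 < R := Real.sqrt_pos.2 (by positivity)
  have hQR : |Q| ≤ R := by
    rw [hR]; apply Real.abs_le_sqrt; nlinarith [sq_nonneg s]
  have hα_le : ‖α‖ ≤ 1 := (norm_zc_le _).trans (psi_norm hv hA y).le
  have hα0_le : ‖α0‖ ≤ 4 / N := (norm_zc_le _).trans (norm_fderiv_psi hv hA y e0 (basis_norm 0)).le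
  have hα1_le : ‖α1‖ ≤ 4 / N := (norm_zc_le _).trans (norm_fderiv_psi hv hA y e1 (basis_norm 1)).le
  have hβ : β0 + β1 = (-(32 / N ^ 2) : ℝ) • α := by
    rw [hβ0, hβ1, ← zc_add, psi2_sum, zc_smul]
  -- the complex second derivative terms
  set T0 : ℂ := (m : ℂ) * (((m - 1 : ℕ) : ℂ) * α ^ (m - 1 - 1) * α0) * α0 with hT0
  set T1 : ℂ := (m : ℂ) * (((m - 1 : ℕ) : ℂ) * α ^ (m - 1 - 1) * α1) * α1 with hT1
  have hT : ∀ a : ℂ, ‖a‖ ≤ 4 / N → ‖(m : ℂ) * (((m - 1 : ℕ) : ℂ) * α ^ (m - 1 - 1) * a) * a‖ ≤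
      (m : ℝ) * ((m : ℝ) - 1) * (16 / N ^ 2) := by
    intro a ha
    rw [norm_mul, norm_mul, norm_mul, norm_mul, norm_pow, Complex.norm_natCast,
      Complex.norm_natCast]
    have h1 : ‖α‖ ^ (m - 1 - 1) ≤ 1 := pow_le_one₀ (norm_nonneg _) hα_le
    have h2 : ((m - 1 : ℕ) : ℝ) = (m : ℝ) - 1 := by
      rw [Nat.cast_sub hm]; simp
    rw [h2]
    have h3 : (0 : ℝ) ≤ (m : ℝ) - 1 := by
      have : (1 : ℝ) ≤ m := by exact_mod_cast hm
      linarith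
    calc (m : ℝ) * (((m : ℝ) - 1) * ‖α‖ ^ (m - 1 - 1) * ‖a‖) * ‖a‖
        ≤ (m : ℝ) * (((m : ℝ) - 1) * 1 * (4 / N)) * (4 / N) := by gcongr
      _ = (m : ℝ) * ((m : ℝ) - 1) * (16 / N ^ 2) := by field_simp; ring
  have hT0_le := hT α0 hα0_le
  have hT1_le := hT α1 hα1_le
  have hB : ‖(m : ℂ) * α ^ (m - 1) * (β0 + β1)‖ ≤ (m : ℝ) * (32 / N ^ 2) := by
    rw [hβ, norm_mul, norm_mul, norm_smul, norm_pow, Complex.norm_natCast, Real.norm_eq_abs,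
      abs_neg, abs_of_pos (by positivity : (0 : ℝ) < 32 / N ^ 2)]
    have h1 : ‖α‖ ^ (m - 1) ≤ 1 := pow_le_one₀ (norm_nonneg _) hα_le
    calc (m : ℝ) * ‖α‖ ^ (m - 1) * (32 / N ^ 2 * ‖α‖)
        ≤ (m : ℝ) * 1 * (32 / N ^ 2 * 1) := by gcongr
      _ = (m : ℝ) * (32 / N ^ 2) := by ring
  set S : ℂ := T0 + T1 + (m : ℂ) * α ^ (m - 1) * (β0 + β1) with hS
  have hS_le : ‖S‖ ≤ 32 * (m : ℝ) ^ 2 / N ^ 2 := by
    calc ‖S‖ ≤ ‖T0‖ + ‖T1‖ + ‖(m : ℂ) * α ^ (m - 1) * (β0 + β1)‖ := norm_add₃_le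
      _ ≤ (m : ℝ) * ((m : ℝ) - 1) * (16 / N ^ 2) + (m : ℝ) * ((m : ℝ) - 1) * (16 / N ^ 2) +
          (m : ℝ) * (32 / N ^ 2) := by gcongr
      _ = 32 * (m : ℝ) ^ 2 / N ^ 2 := by ring
  have hSim : |S.im| ≤ 32 * (m : ℝ) ^ 2 / N ^ 2 := (Complex.abs_im_le_norm S).trans hS_le
  have hSsum : (T0 + (m : ℂ) * α ^ (m - 1) * β0).im + (T1 + (m : ℂ) * α ^ (m - 1) * β1).im
      = S.im := by
    rw [hS, ← Complex.add_im]; congr 1; ring
  -- the round part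
  have hround : (2 * N - (2 * y 0) ^ 2) / N ^ 2 + (2 * N - (2 * y 1) ^ 2) / N ^ 2 = 16 / N ^ 2 := by
    have hn : ‖y‖ ^ 2 = y 0 ^ 2 + y 1 ^ 2 := by
      rw [EuclideanSpace.norm_sq_eq, Fin.sum_univ_two]; simp
    have : y 0 ^ 2 + y 1 ^ 2 = N - 4 := by rw [← hn, hN]; ring
    field_simp
    linear_combination (-4) * this
  -- main estimate
  have hQS : -(Q / R * S.im) ≤ 32 * (m : ℝ) ^ 2 / N ^ 2 := by
    have h1 : |Q / R| ≤ 1 := by
      rw [abs_div, abs_of_pos hRpos, div_le_one hRpos]; exact hQR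
    have h2 : |Q / R * S.im| ≤ 1 * (32 * (m : ℝ) ^ 2 / N ^ 2) := by
      rw [abs_mul]; gcongr
    have := neg_abs_le (Q / R * S.im)
    linarith
  have hpos0 : 0 ≤ s ^ 2 * ((m : ℂ) * α ^ (m - 1) * α0).im ^ 2 / R ^ 3 := by positivity
  have hpos1 : 0 ≤ s ^ 2 * ((m : ℂ) * α ^ (m - 1) * α1).im ^ 2 / R ^ 3 := by positivity
  set P0 := s ^ 2 * ((m : ℂ) * α ^ (m - 1) * α0).im ^ 2 / R ^ 3 with hP0
  set P1 := s ^ 2 * ((m : ℂ) * α ^ (m - 1) * α1).im ^ 2 / R ^ 3 with hP1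
  have hfin : -(κ * (Q * (T0 + (m : ℂ) * α ^ (m - 1) * β0).im / R + P0)) -
        (2 * N - (2 * y 0) ^ 2) / N ^ 2 +
      (-(κ * (Q * (T1 + (m : ℂ) * α ^ (m - 1) * β1).im / R + P1)) -
        (2 * N - (2 * y 1) ^ 2) / N ^ 2) =
      κ * (-(Q / R * S.im)) - κ * (P0 + P1) - 16 / N ^ 2 := by
    rw [← hround, ← hSsum]
    ring
  rw [hfin]
  have h3 : κ * (-(Q / R * S.im)) ≤ κ * (32 * (m : ℝ) ^ 2 / N ^ 2) := by gcongr
  have h4 : κ * (32 * (m : ℝ) ^ 2 / N ^ 2) < 16 / N ^ 2 := by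
    rw [mul_div_assoc', div_lt_div_iff_of_pos_right (by positivity)]
    linarith
  have h5 : 0 ≤ κ * (P0 + P1) := by positivity
  linarith

/-- The metric `e^{2u} g_round` has strictly positive Ricci curvature. -/
theorem strictlyPositiveRicci {κ s : ℝ} (hκ : 0 ≤ κ) (hs : 0 < s) {m : ℕ} (hm : 1 ≤ m)
    (hκm : 2 * κ * m ^ 2 < 1) : StrictlyPositiveRicci 2 (SG (cf κ hs m)) := by
  intro x₀ y hy w hw
  obtain ⟨A, v, hv, -, hA, -, hG⟩ := metricCoeff_eq (cf κ hs m) x₀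
  have hGw : metricCoeff 2 x₀ = confG (ww κ s m A v) := by
    ext i j y
    rw [hG]
    unfold confG
    rw [exp_ww]
    rfl
  rw [hGw]
  simp only [ricci_confG (ww_contDiff κ hs m A v)]
  have := lap_ww_neg hκ hs hm hκm hv hA y
  rw [Fin.sum_univ_two, Fin.sum_univ_two, Fin.sum_univ_two]
  simp only [if_true]
  have h01 : (0 : Fin 2) ≠ 1 := by decide
  simp only [h01, h01.symm, if_false]
  have hne : 0 < w 0 ^ 2 + w 1 ^ 2 := by
    by_contra hcon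
    apply hw
    have h0 : w 0 = 0 := by nlinarith [sq_nonneg (w 0), sq_nonneg (w 1)]
    have h1 : w 1 = 0 := by nlinarith [sq_nonneg (w 0), sq_nonneg (w 1)]
    ext i; fin_cases i
    · exact h0
    · exact h1
  nlinarith

end Pool.Agent.H82
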