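import Mathlib
import Pool.Agent.H82.Curv

open scoped Manifold ContDiff Topology ENNReal NNReal Bundle
open MeasureTheory Bundle Set Metric

noncomputable section
namespace Pool.Agent.H82

/-- angle -/
abbrev ang (x y : E3) : ℝ := InnerProductGeometry.angle x y

lemma cos_ang {x y : E3} (hx : ‖x‖ = 1) (hy : ‖y‖ = 1) : Real.cos (ang x y) = inner ℝ x y := by
  rw [InnerProductGeometry.cos_angle, hx, hy]; simp

lemma dist_eq_sin {x y : E3} (hx : ‖x‖ = 1) (hy : ‖y‖ = 1) :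
    ‖x - y‖ = 2 * Real.sin (ang x y / 2) := by
  have h0 : 0 ≤ ang x y := InnerProductGeometry.angle_nonneg _ _
  have h1 : ang x y ≤ Real.pi := InnerProductGeometry.angle_le_pi _ _
  have hs : 0 ≤ Real.sin (ang x y / 2) := Real.sin_nonneg_of_nonneg_of_le_pi (by linarith) (by linarith)
  have h2 : ‖x - y‖ ^ 2 = (2 * Real.sin (ang x y / 2)) ^ 2 := by
    rw [norm_sub_sq_real, hx, hy, ← cos_ang hx hy]
    have : Real.cos (ang x y) = 1 - 2 * Real.sin (ang x y / 2) ^ 2 := by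
      have := Real.cos_sq' (ang x y / 2)
      have h3 := Real.cos_two_mul (ang x y / 2)
      rw [show 2 * (ang x y / 2) = ang x y by ring] at h3
      rw [h3, this]; ring
    rw [this]; ring
  exact (pow_left_inj₀ (norm_nonneg _) (by positivity) two_ne_zero).1 h2

lemma dist_le_ang {x y : E3} (hx : ‖x‖ = 1) (hy : ‖y‖ = 1) : ‖x - y‖ ≤ ang x y := by
  rw [dist_eq_sin hx hy]
  have h0 : 0 ≤ ang x y := InnerProductGeometry.angle_nonneg _ _
  have := Real.sin_le (x := ang x y / 2) (by linarith)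
  linarith

lemma ang_le_pi_div_two_mul {x y : E3} (hx : ‖x‖ = 1) (hy : ‖y‖ = 1) :
    ang x y ≤ Real.pi / 2 * ‖x - y‖ := by
  rw [dist_eq_sin hx hy]
  have h0 : 0 ≤ ang x y := InnerProductGeometry.angle_nonneg _ _
  have h1 : ang x y ≤ Real.pi := InnerProductGeometry.angle_le_pi _ _
  have h2 := Real.mul_le_sin (x := ang x y / 2) (by linarith) (by linarith)
  have hpi := Real.pi_pos
  have : 2 / Real.pi * (ang x y / 2) = ang x y / Real.pi := by ring
  rw [this, div_le_iff₀ hpi] at h2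
  linarith

lemma ang_le_of_small {x y : E3} (hx : ‖x‖ = 1) (hy : ‖y‖ = 1) (hd : ‖x - y‖ ≤ 1 / 2) :
    ang x y ≤ ‖x - y‖ + ‖x - y‖ ^ 3 := by
  have h0 : 0 ≤ ang x y := InnerProductGeometry.angle_nonneg _ _
  have h1 := ang_le_pi_div_two_mul hx hy
  have hpi : Real.pi < 3.15 := Real.pi_lt_d2
  have hn := norm_nonneg (x - y)
  have h2 : ang x y ≤ 1.6 * ‖x - y‖ := by nlinarith
  rcases h0.eq_or_lt with h | h
  · rw [← h]; positivity
  have h3 : ang x y / 2 ≤ 1 := by linarith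
  have h4 := Real.sin_gt_sub_cube (x := ang x y / 2) (by linarith)
  have h5 := dist_eq_sin hx hy
  have h6 : ang x y - ang x y ^ 3 / 16 ≤ ‖x - y‖ := by
    have h8 : 0 ≤ ang x y ^ 3 := by positivity
    have h9 : (ang x y / 2) ^ 3 / 6 = ang x y ^ 3 / 48 := by ring
    rw [h5]; linarith
  have h7 : ang x y ^ 3 ≤ (1.6 * ‖x - y‖) ^ 3 := by gcongr
  nlinarith [pow_nonneg hn 3]

/-- The angle is at most the length of a curve on the sphere. -/
lemma ang_le_length {γ : ℝ → E3} (hγ : ContDiff ℝ 1 γ) (h1 : ∀ t, ‖γ t‖ = 1) {a b : ℝ}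
    (hab : a ≤ b) : ang (γ a) (γ b) ≤ ∫ t in a..b, ‖deriv γ t‖ := by
  have hcont : Continuous (fun t => ‖deriv γ t‖) := (hγ.continuous_deriv le_rfl).norm
  have hB' : ∀ t, HasDerivAt (fun u => ∫ t in a..u, ‖deriv γ t‖) ‖deriv γ t‖ t := fun t =>
    intervalIntegral.integral_hasDerivAt_right (hcont.intervalIntegrable _ _)
      (hcont.stronglyMeasurableAtFilter _ _) hcont.continuousAt
  have hne : ∀ t, γ t ≠ 0 := fun t h => by simpa [h] using h1 t
  have hf : Continuous (fun t => ang (γ a) (γ t)) := by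
    rw [continuous_iff_continuousAt]
    intro t
    have h2 : ContinuousAt (fun t => ((γ a, γ t) : E3 × E3)) t :=
      continuousAt_const.prodMk hγ.continuous.continuousAt
    exact ContinuousAt.comp (f := fun t => ((γ a, γ t) : E3 × E3))
      (InnerProductGeometry.continuousAt_angle (x := (γ a, γ t)) (hne a) (hne t)) h2
  refine image_le_of_liminf_slope_right_le_deriv_boundary (f := fun t => ang (γ a) (γ t))
    (B := fun u => ∫ t in a..u, ‖deriv γ t‖) (B' := fun t => ‖deriv γ t‖) hf.continuousOn ?_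
    (fun t _ => (hB' t).continuousAt.continuousWithinAt) (fun t _ => (hB' t).hasDerivWithinAt)
    ?_ (right_mem_Icc.2 hab)
  · simp [InnerProductGeometry.angle_self (hne a)]
  intro x _ r hr
  apply Filter.Eventually.frequently
  -- choose η
  obtain ⟨η, hη, hηr⟩ : ∃ η > 0, (1 + η) * (‖deriv γ x‖ + η) < r := by
    have hc : ContinuousAt (fun η : ℝ => (1 + η) * (‖deriv γ x‖ + η)) 0 := by fun_prop
    have h2 : (fun η : ℝ => (1 + η) * (‖deriv γ x‖ + η)) 0 < r := by simpa using hr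
    have h3 : ∀ᶠ η in 𝓝[>] (0:ℝ), (1 + η) * (‖deriv γ x‖ + η) < r :=
      (hc.eventually_lt continuousAt_const h2).filter_mono nhdsWithin_le_nhds
    have h4 : ∀ᶠ η in 𝓝[>] (0:ℝ), 0 < η := self_mem_nhdsWithin
    obtain ⟨η, h5, h6⟩ := (h4.and h3).exists
    exact ⟨η, h5, h6⟩
  have hd : HasDerivAt γ (deriv γ x) x := (hγ.differentiable one_ne_zero x).hasDerivAt
  have e1 : ∀ᶠ z in 𝓝[>] x, ‖γ z - γ x‖ ≤ (‖deriv γ x‖ + η) * (z - x) := by
    have := hd.isLittleO.bound hη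
    have h5 : ∀ᶠ z in 𝓝[>] x, ‖γ z - γ x - (z - x) • deriv γ x‖ ≤ η * ‖z - x‖ :=
      this.filter_mono nhdsWithin_le_nhds
    filter_upwards [h5, self_mem_nhdsWithin] with z hz hzx
    have hzx' : 0 < z - x := sub_pos.2 hzx
    have h6 : ‖γ z - γ x‖ ≤ ‖γ z - γ x - (z - x) • deriv γ x‖ + ‖(z - x) • deriv γ x‖ := by
      have := norm_add_le (γ z - γ x - (z - x) • deriv γ x) ((z - x) • deriv γ x)
      simpa using this
    rw [norm_smul] at h6
    rw [Real.norm_of_nonneg hzx'.le] at h6 hz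
    linarith
  have e2 : ∀ᶠ z in 𝓝[>] x, ‖γ x - γ z‖ ≤ 1 / 2 ∧ ‖γ x - γ z‖ ^ 2 ≤ η := by
    have hc : ContinuousAt (fun z => ‖γ x - γ z‖) x := by
      have := hγ.continuous
      fun_prop
    have hc2 : ContinuousAt (fun z => ‖γ x - γ z‖ ^ 2) x := hc.pow 2
    have h5 : ∀ᶠ z in 𝓝 x, ‖γ x - γ z‖ < 1 / 2 :=
      hc.eventually_lt continuousAt_const (by simp)
    have h6 : ∀ᶠ z in 𝓝 x, ‖γ x - γ z‖ ^ 2 < η :=
      hc2.eventually_lt continuousAt_const (by simpa using hη)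
    filter_upwards [h5.filter_mono nhdsWithin_le_nhds, h6.filter_mono nhdsWithin_le_nhds]
      with z h7 h8 using ⟨h7.le, h8.le⟩
  filter_upwards [e1, e2, self_mem_nhdsWithin] with z h5 h6 hzx
  have hzx' : 0 < z - x := sub_pos.2 hzx
  rw [slope_def_field]
  have h7 : ang (γ a) (γ z) ≤ ang (γ a) (γ x) + ang (γ x) (γ z) :=
    InnerProductGeometry.angle_le_angle_add_angle _ _ _
  have h8 := ang_le_of_small (h1 x) (h1 z) h6.1
  have h9 : ang (γ x) (γ z) ≤ (1 + η) * ‖γ x - γ z‖ := by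
    have := h6.2
    nlinarith [norm_nonneg (γ x - γ z)]
  rw [norm_sub_rev] at h5
  rw [div_lt_iff₀ hzx']
  have hη1 : 0 < 1 + η := by linarith
  calc ang (γ a) (γ z) - ang (γ a) (γ x) ≤ (1 + η) * ‖γ x - γ z‖ := by linarith
    _ ≤ (1 + η) * ((‖deriv γ x‖ + η) * (z - x)) := by gcongr
    _ = ((1 + η) * (‖deriv γ x‖ + η)) * (z - x) := by ring
    _ < r * (z - x) := by gcongr

end Pool.Agent.H82
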