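import Mathlib
import Pool.Agent.H82.Dist

open scoped Manifold ContDiff Topology ENNReal NNReal Bundle
open MeasureTheory Bundle Set Metric

noncomputable section
namespace Pool.Agent.H82

lemma norm_S2 (x : S2) : ‖(x : E3)‖ = 1 := norm_eq_of_mem_sphere x

lemma lintegral_deriv {γ : ℝ → E3} (hγ : ContDiff ℝ 1 γ) {a b : ℝ} (hab : a ≤ b) :
    ∫⁻ t in Icc a b, ‖deriv γ t‖ₑ = ENNReal.ofReal (∫ t in a..b, ‖deriv γ t‖) := by
  have hcont : Continuous (fun t => ‖deriv γ t‖) := (hγ.continuous_deriv le_rfl).norm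
  rw [intervalIntegral.integral_of_le hab, ← integral_Icc_eq_integral_Ioc,
    ofReal_integral_eq_lintegral_ofReal]
  · simp_rw [ofReal_norm]
  · exact (hcont.continuousOn.integrableOn_compact isCompact_Icc)
  · exact Filter.Eventually.of_forall (fun t => norm_nonneg _)

variable (c : Conf)

/-- lower bound for the length of a curve -/
lemma le_len {γ : ℝ → E3} (hγ : ContDiff ℝ 1 γ) (h1 : ∀ t, ‖γ t‖ = 1) {a b : ℝ} (hab : a ≤ b)
    {K : ℝ} (hK : 0 ≤ K) (h : ∀ t ∈ Icc a b, K ≤ Real.sqrt (c.F (γ t))) :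
    ENNReal.ofReal (K * ang (γ a) (γ b)) ≤ len c γ a b := by
  have h2 : ENNReal.ofReal K * ∫⁻ t in Icc a b, ‖deriv γ t‖ₑ ≤ len c γ a b := by
    unfold len
    rw [← lintegral_const_mul' _ _ ENNReal.ofReal_ne_top]
    apply setLIntegral_mono' measurableSet_Icc
    intro t ht
    gcongr
    exact h t ht
  refine le_trans ?_ h2
  rw [lintegral_deriv hγ hab, ← ENNReal.ofReal_mul hK]
  apply ENNReal.ofReal_le_ofReal
  gcongr
  exact ang_le_length hγ h1 hab

/-- upper bound for the length of a curve -/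
lemma len_le {γ : ℝ → E3} {a b : ℝ}
    {K L : ℝ} (hK : 0 ≤ K) (hL : ∀ t ∈ Icc a b, ‖deriv γ t‖ ≤ L)
    (h : ∀ t ∈ Icc a b, Real.sqrt (c.F (γ t)) ≤ K) :
    len c γ a b ≤ ENNReal.ofReal (K * L * (b - a)) := by
  unfold len
  have h2 : ∀ t ∈ Icc a b, ENNReal.ofReal (Real.sqrt (c.F (γ t))) * ‖deriv γ t‖ₑ ≤
      ENNReal.ofReal (K * L) := by
    intro t ht
    rw [← ofReal_norm, ← ENNReal.ofReal_mul (Real.sqrt_nonneg _)]
    apply ENNReal.ofReal_le_ofReal
    have := h t ht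
    have := hL t ht
    gcongr
  calc ∫⁻ t in Icc a b, ENNReal.ofReal (Real.sqrt (c.F (γ t))) * ‖deriv γ t‖ₑ
      ≤ ∫⁻ t in Icc a b, ENNReal.ofReal (K * L) := setLIntegral_mono' measurableSet_Icc h2
    _ = ENNReal.ofReal (K * L) * ENNReal.ofReal (b - a) := by
        rw [setLIntegral_const, Real.volume_Icc]
    _ ≤ ENNReal.ofReal (K * L * (b - a)) := by
        by_cases hab : a ≤ b
        · rcases hab.eq_or_lt with hab | hab
          · simp [hab]
          · have hL0 : 0 ≤ L := (norm_nonneg _).trans (hL a (left_mem_Icc.2 hab.le))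
            rw [ENNReal.ofReal_mul (mul_nonneg hK hL0)]
        · rw [ENNReal.ofReal_of_nonpos (p := b - a) (by linarith)]; simp

lemma le_gE {K : ℝ} (hK : 0 ≤ K) (h : ∀ X : E3, ‖X‖ = 1 → K ≤ Real.sqrt (c.F X)) (x y : S2) :
    ENNReal.ofReal (K * ang x y) ≤ gE c x y := by
  by_contra hcon
  rw [not_le] at hcon
  obtain ⟨γ, hγ, h1, h0x, h1y, hlt⟩ := exists_len_lt c hcon
  have := le_len c hγ h1 zero_le_one hK (fun t _ => h _ (h1 t))
  rw [h0x, h1y] at this
  exact absurd hlt (not_lt.2 this)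

/-- local lower bound -/
lemma le_gE_local {K K' r : ℝ} (hK : 0 ≤ K) (hK' : 0 ≤ K')
    (h : ∀ X : E3, ‖X‖ = 1 → K ≤ Real.sqrt (c.F X)) (x y : S2)
    (h' : ∀ X : E3, ‖X‖ = 1 → ‖X - x‖ ≤ r → K' ≤ Real.sqrt (c.F X))
    (hlt : gE c x y < ENNReal.ofReal (K * r)) :
    ENNReal.ofReal (K' * ang x y) ≤ gE c x y := by
  by_contra hcon
  rw [not_le] at hcon
  obtain ⟨γ, hγ, h1, h0x, h1y, hlen⟩ := exists_len_lt c (lt_min hlt hcon)
  by_cases hstay : ∀ t ∈ Icc (0:ℝ) 1, ‖γ t - x‖ ≤ r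
  · have := le_len c hγ h1 zero_le_one hK' (fun t ht => h' _ (h1 t) (hstay t ht))
    rw [h0x, h1y] at this
    exact absurd (hlen.trans_le (min_le_right _ _)) (not_lt.2 this)
  · push Not at hstay
    obtain ⟨t, ht, htr⟩ := hstay
    have h2 := le_len c hγ h1 ht.1 hK (fun t _ => h _ (h1 t))
    have h3 : len c γ 0 t ≤ len c γ 0 1 := by
      unfold len
      exact lintegral_mono_set (Icc_subset_Icc_right ht.2)
    have h4 : ENNReal.ofReal (K * r) ≤ ENNReal.ofReal (K * ang (γ 0) (γ t)) := by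
      apply ENNReal.ofReal_le_ofReal
      have := dist_le_ang (h1 0) (h1 t)
      rw [h0x] at this ⊢
      rw [norm_sub_rev] at htr
      gcongr
      linarith
    exact absurd (hlen.trans_le (min_le_left _ _)) (not_lt.2 ((h4.trans h2).trans h3))

/-- great circle through `x` in the direction `w` -/
def gc (x w : E3) (t : ℝ) : E3 := Real.cos t • x + Real.sin t • w

lemma gc_contDiff (x w : E3) {n : ℕ∞ω} : ContDiff ℝ n (gc x w) := by
  unfold gc
  exact (Real.contDiff_cos.smul contDiff_const).add (Real.contDiff_sin.smul contDiff_const)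

lemma gc_norm {x w : E3} (hx : ‖x‖ = 1) (hw : ‖w‖ = 1) (hxw : inner ℝ x w = 0) (t : ℝ) :
    ‖gc x w t‖ = 1 := by
  have h2 : ‖gc x w t‖ ^ 2 = 1 ^ 2 := by
    unfold gc
    rw [norm_add_sq_real, norm_smul, norm_smul, inner_smul_left, inner_smul_right, hxw, hx, hw]
    simp
  exact (pow_left_inj₀ (norm_nonneg _) (by positivity) two_ne_zero).1 h2

lemma gc_deriv (x w : E3) (t : ℝ) : HasDerivAt (gc x w) (-Real.sin t • x + Real.cos t • w) t :=
  ((Real.hasDerivAt_cos t).smul_const x).add ((Real.hasDerivAt_sin t).smul_const w)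

lemma gc_deriv_norm {x w : E3} (hx : ‖x‖ = 1) (hw : ‖w‖ = 1) (hxw : inner ℝ x w = 0) (t : ℝ) :
    ‖deriv (gc x w) t‖ = 1 := by
  have h2 : ‖deriv (gc x w) t‖ ^ 2 = 1 ^ 2 := by
    rw [(gc_deriv x w t).deriv]
    rw [norm_add_sq_real, norm_smul, norm_smul, inner_smul_left, inner_smul_right, hxw, hx, hw]
    simp
  exact (pow_left_inj₀ (norm_nonneg _) (by positivity) two_ne_zero).1 h2

/-- a unit vector orthogonal to a given vector -/
lemma exists_unit_orth (x : E3) : ∃ w : E3, ‖w‖ = 1 ∧ inner ℝ x w = 0 := by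
  by_cases h : x 0 = 0 ∧ x 1 = 0
  · refine ⟨EuclideanSpace.single 0 1, by simp, ?_⟩
    rw [EuclideanSpace.inner_single_right]; simp [h.1]
  · let w : E3 := !₂[x 1, -x 0, 0]
    have hw : w ≠ 0 := by
      intro h0
      apply h
      have e0 : w 0 = 0 := by rw [h0]; rfl
      have e1 : w 1 = 0 := by rw [h0]; rfl
      simp [w] at e0 e1
      exact ⟨e1, e0⟩
    have hn : ‖w‖ ≠ 0 := norm_ne_zero_iff.2 hw
    refine ⟨(‖w‖)⁻¹ • w, by rw [norm_smul, norm_inv, norm_norm, inv_mul_cancel₀ hn], ?_⟩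
    rw [inner_smul_right, PiLp.inner_apply, Fin.sum_univ_three]
    simp [w]
    right; ring

/-- two points of the sphere are joined by a great circle arc of length the angle -/
lemma exists_gc {x y : E3} (hx : ‖x‖ = 1) (hy : ‖y‖ = 1) :
    ∃ w : E3, ‖w‖ = 1 ∧ inner ℝ x w = 0 ∧ gc x w (ang x y) = y := by
  have hc := cos_ang hx hy
  have h0 : 0 ≤ ang x y := InnerProductGeometry.angle_nonneg _ _
  have h1 : ang x y ≤ Real.pi := InnerProductGeometry.angle_le_pi _ _
  by_cases hs : Real.sin (ang x y) = 0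
  · obtain ⟨w, hw, hxw⟩ := exists_unit_orth x
    refine ⟨w, hw, hxw, ?_⟩
    unfold gc
    rw [hs, zero_smul, add_zero, hc]
    have h2 : inner ℝ x y ^ 2 = (1 : ℝ) := by
      have := Real.sin_sq_add_cos_sq (ang x y)
      rw [hs, hc] at this; linarith
    have h3 : ‖inner ℝ x y • x - y‖ ^ 2 = 0 := by
      rw [norm_sub_sq_real, norm_smul, inner_smul_left, hx, hy, mul_pow, Real.norm_eq_abs, sq_abs]
      simp
      nlinarith
    have h4 : ‖inner ℝ x y • x - y‖ = 0 := by simpa using h3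
    exact sub_eq_zero.1 (norm_eq_zero.1 h4)
  · have hs' : 0 < Real.sin (ang x y) :=
      lt_of_le_of_ne (Real.sin_nonneg_of_nonneg_of_le_pi h0 h1) (Ne.symm hs)
    refine ⟨(Real.sin (ang x y))⁻¹ • (y - Real.cos (ang x y) • x), ?_, ?_, ?_⟩
    · rw [norm_smul, norm_inv, Real.norm_of_nonneg hs'.le]
      have h2 : ‖y - Real.cos (ang x y) • x‖ ^ 2 = Real.sin (ang x y) ^ 2 := by
        rw [norm_sub_sq_real, norm_smul, inner_smul_right, hx, hy, real_inner_comm, ← hc,
          mul_pow, Real.norm_eq_abs, sq_abs, Real.sin_sq]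
        ring
      have h3 : ‖y - Real.cos (ang x y) • x‖ = Real.sin (ang x y) :=
        (pow_left_inj₀ (norm_nonneg _) hs'.le two_ne_zero).1 h2
      rw [h3, inv_mul_cancel₀ hs]
    · rw [inner_smul_right, inner_sub_right, inner_smul_right, real_inner_self_eq_norm_sq, hx, ← hc]
      ring
    · unfold gc
      rw [smul_smul, mul_inv_cancel₀ hs, one_smul]
      abel

lemma gE_le {K : ℝ} (hK : 0 ≤ K) (h : ∀ X : E3, ‖X‖ = 1 → Real.sqrt (c.F X) ≤ K) (x y : S2) :
    gE c x y ≤ ENNReal.ofReal (K * ang x y) := by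
  obtain ⟨w, hw, hxw, hy⟩ := exists_gc (norm_S2 x) (norm_S2 y)
  have h1 := gE_le_len c (gc_contDiff (x : E3) w) (gc_norm (norm_S2 x) hw hxw)
    (InnerProductGeometry.angle_nonneg (x : E3) y) (x := x) (y := y)
    (by simp [gc]) hy
  refine h1.trans ?_
  have h2 := len_le c (γ := gc (x : E3) w) (a := 0) (b := ang x y) hK (L := 1)
    (fun t _ => (gc_deriv_norm (norm_S2 x) hw hxw t).le)
    (fun t _ => h _ (gc_norm (norm_S2 x) hw hxw t))
  simpa using h2

/-- linear isometries preserving the conformal factor preserve the distance -/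
lemma gE_map_le (R : E3 →ₗᵢ[ℝ] E3) (hR : ∀ X, c.F (R X) = c.F X) (x y x' y' : S2)
    (hx : (x' : E3) = R x) (hy : (y' : E3) = R y) : gE c x' y' ≤ gE c x y := by
  by_contra hcon
  rw [not_le] at hcon
  obtain ⟨γ, hγ, h1, h0x, h1y, hlt⟩ := exists_len_lt c hcon
  have h2 := gE_le_len c (γ := fun t => R (γ t)) (R.contDiff.comp hγ)
    (fun t => by rw [R.norm_map]; exact h1 t) zero_le_one (x := x') (y := y')
    (by simp only [h0x, hx]) (by simp only [h1y, hy])
  have h3 : len c (fun t => R (γ t)) 0 1 = len c γ 0 1 := by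
    unfold len
    congr 1
    ext t
    have hd : HasDerivAt γ (deriv γ t) t := (hγ.differentiable one_ne_zero t).hasDerivAt
    have hd2 : HasDerivAt (fun t => R (γ t)) (R (deriv γ t)) t :=
      R.toContinuousLinearMap.hasFDerivAt.comp_hasDerivAt t hd
    rw [hd2.deriv, hR, ← ofReal_norm, ← ofReal_norm, R.norm_map]
  rw [h3] at h2
  exact absurd hlt (not_lt.2 h2)

end Pool.Agent.H82
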