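import Mathlib
import Pool.Agent.H82.Dist2

open scoped Manifold ContDiff Topology ENNReal NNReal Bundle
open MeasureTheory Bundle Set Metric

noncomputable section
namespace Pool.Agent.H82

/-- spherical coordinates -/
def sph (ψ t : ℝ) : E3 := !₂[Real.sin t * Real.cos ψ, Real.sin t * Real.sin ψ, Real.cos t]

lemma sph_norm (ψ t : ℝ) : ‖sph ψ t‖ = 1 := by
  have h2 : ‖sph ψ t‖ ^ 2 = 1 ^ 2 := by
    rw [EuclideanSpace.norm_sq_eq, Fin.sum_univ_three]
    simp only [Real.norm_eq_abs, sq_abs]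
    simp [sph]
    have h1 := Real.sin_sq_add_cos_sq t
    have h2 := Real.sin_sq_add_cos_sq ψ
    linear_combination h1 + Real.sin t ^ 2 * h2
  exact (pow_left_inj₀ (norm_nonneg _) (by positivity) two_ne_zero).1 h2

def sphS (ψ t : ℝ) : S2 := ⟨sph ψ t, by simp [sph_norm]⟩

lemma zc_sph (ψ t : ℝ) : zc (sph ψ t) = Real.sin t * Complex.exp (ψ * Complex.I) := by
  rw [Complex.exp_mul_I, ← Complex.ofReal_cos, ← Complex.ofReal_sin]
  apply Complex.ext
  · rw [Complex.re_ofReal_mul, Complex.add_re, Complex.ofReal_re, Complex.re_ofReal_mul]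
    simp [zc, sph]
  · rw [Complex.im_ofReal_mul, Complex.add_im, Complex.ofReal_im, Complex.im_ofReal_mul]
    simp [zc, sph]

lemma q_sph (m : ℕ) (ψ t : ℝ) : q m (sph ψ t) = Real.sin t ^ m * Real.sin (m * ψ) := by
  unfold q
  rw [zc_sph, mul_pow, ← Complex.exp_nat_mul]
  have : (m : ℂ) * (ψ * Complex.I) = ((m * ψ : ℝ) : ℂ) * Complex.I := by push_cast; ring
  rw [this, Complex.exp_mul_I, ← Complex.ofReal_cos, ← Complex.ofReal_sin, ← Complex.ofReal_pow,
    Complex.im_ofReal_mul, Complex.add_im, Complex.ofReal_im, Complex.im_ofReal_mul]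
  simp

lemma vec_eq (a b d : ℝ) : (!₂[a, b, d] : E3) = a • EuclideanSpace.single 0 1 +
    b • EuclideanSpace.single 1 1 + d • EuclideanSpace.single 2 1 := by
  ext i
  fin_cases i <;> simp

/-- a path in spherical coordinates -/
lemma sph_path_hasDerivAt {ψ ψ' : ℝ → ℝ} {t : ℝ} (h : HasDerivAt ψ (ψ' t) t) :
    HasDerivAt (fun t => sph (ψ t) t)
      (!₂[Real.cos t * Real.cos (ψ t) - Real.sin t * (Real.sin (ψ t) * ψ' t),
        Real.cos t * Real.sin (ψ t) + Real.sin t * (Real.cos (ψ t) * ψ' t), -Real.sin t] : E3) t := by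
  unfold sph
  simp only [vec_eq]
  refine (((((Real.hasDerivAt_sin t).mul h.cos).smul_const _).add
    (((Real.hasDerivAt_sin t).mul h.sin).smul_const _)).add
    ((Real.hasDerivAt_cos t).smul_const _)).congr_deriv ?_
  congr 3
  ring

lemma sph_path_norm {ψ ψ' : ℝ → ℝ} {t : ℝ} (h : HasDerivAt ψ (ψ' t) t) :
    ‖deriv (fun t => sph (ψ t) t) t‖ ≤ 1 + ψ' t ^ 2 / 2 := by
  rw [(sph_path_hasDerivAt h).deriv]
  have h2 : ‖(!₂[Real.cos t * Real.cos (ψ t) - Real.sin t * (Real.sin (ψ t) * ψ' t),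
        Real.cos t * Real.sin (ψ t) + Real.sin t * (Real.cos (ψ t) * ψ' t), -Real.sin t] : E3)‖ ^ 2
      = 1 + Real.sin t ^ 2 * ψ' t ^ 2 := by
    rw [EuclideanSpace.norm_sq_eq, Fin.sum_univ_three]
    simp only [Real.norm_eq_abs, sq_abs]
    simp
    have h1 := Real.sin_sq_add_cos_sq t
    have h2 := Real.sin_sq_add_cos_sq (ψ t)
    linear_combination h1 + (Real.cos t ^ 2 + Real.sin t ^ 2 * ψ' t ^ 2) * h2
  have h3 : Real.sin t ^ 2 ≤ 1 := by nlinarith [Real.sin_sq_add_cos_sq t, sq_nonneg (Real.cos t)]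
  apply le_of_sq_le_sq _ (by positivity)
  rw [h2]
  nlinarith [sq_nonneg (ψ' t), sq_nonneg (ψ' t ^ 2), mul_nonneg (sub_nonneg.2 h3) (sq_nonneg (ψ' t))]

lemma sph_contDiff {ψ : ℝ → ℝ} {n : ℕ∞ω} (h : ContDiff ℝ n ψ) : ContDiff ℝ n (fun t => sph (ψ t) t) := by
  unfold sph
  simp only [vec_eq]
  exact (((Real.contDiff_sin.mul h.cos).smul contDiff_const).add
    ((Real.contDiff_sin.mul h.sin).smul contDiff_const)).add
    (Real.contDiff_cos.smul contDiff_const)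

lemma sqrt_cf (κ : ℝ) {s : ℝ} (hs : 0 < s) (m : ℕ) (X : E3) :
    Real.sqrt ((cf κ hs m).F X) = Real.exp (uu κ s m X) := by
  show Real.sqrt (Real.exp (2 * uu κ s m X)) = _
  rw [two_mul, Real.exp_add, Real.sqrt_mul_self (Real.exp_pos _).le]

lemma len_le_integral (c : Conf) {γ : ℝ → E3} {a b : ℝ} (hab : a ≤ b) {g : ℝ → ℝ}
    (hg : Continuous g)
    (h : ∀ t ∈ Icc a b, Real.sqrt (c.F (γ t)) * ‖deriv γ t‖ ≤ g t) :
    len c γ a b ≤ ENNReal.ofReal (∫ t in a..b, g t) := by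
  have h0 : ∀ t ∈ Icc a b, 0 ≤ g t := fun t ht =>
    (mul_nonneg (Real.sqrt_nonneg _) (norm_nonneg _)).trans (h t ht)
  rw [intervalIntegral.integral_of_le hab, ← integral_Icc_eq_integral_Ioc,
    ofReal_integral_eq_lintegral_ofReal (hg.continuousOn.integrableOn_compact isCompact_Icc)]
  · unfold len
    apply setLIntegral_mono' measurableSet_Icc
    intro t ht
    rw [← ofReal_norm, ← ENNReal.ofReal_mul (Real.sqrt_nonneg _)]
    exact ENNReal.ofReal_le_ofReal (h t ht)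
  · rw [Filter.EventuallyLE, ae_restrict_iff' measurableSet_Icc]
    exact Filter.Eventually.of_forall h0

lemma uu_le_exp {κ s : ℝ} (hκ : 0 ≤ κ) (hκ1 : κ ≤ 1) (m : ℕ) (X : E3) {d : ℝ}
    (hd0 : 0 ≤ d) (hd1 : d ≤ 1) (hd : d ≤ |q m X|) :
    Real.exp (uu κ s m X) ≤ 1 - κ * d / 2 := by
  have h1 : |q m X| ≤ Real.sqrt (s ^ 2 + q m X ^ 2) := by
    apply Real.abs_le_sqrt; nlinarith [sq_nonneg s]
  have h2 : uu κ s m X ≤ -(κ * d) := by
    unfold uu
    have : κ * d ≤ κ * Real.sqrt (s ^ 2 + q m X ^ 2) := by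
      gcongr; linarith
    linarith
  have hx0 : 0 ≤ κ * d := by positivity
  have hx1 : κ * d ≤ 1 := by nlinarith
  calc Real.exp (uu κ s m X) ≤ Real.exp (-(κ * d)) := Real.exp_le_exp.2 h2
    _ = (Real.exp (κ * d))⁻¹ := Real.exp_neg _
    _ ≤ (1 + κ * d)⁻¹ := by
        apply inv_anti₀ (by positivity)
        have := Real.add_one_le_exp (κ * d)
        linarith
    _ ≤ 1 - κ * d / 2 := by
        rw [inv_le_comm₀ (by positivity) (by linarith), ← one_div, div_le_iff₀ (by linarith)]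
        nlinarith

/-- Going slightly around the ridge is shorter than following it. -/
lemma bump {κ : ℝ} (hκ : 0 < κ) (hκ1 : κ ≤ 1) {m : ℕ} (hm : 1 ≤ m) {θ : ℝ}
    (hθ : Real.sin (m * θ) = 0) {a b : ℝ} (hab : a < b) (hsin : ∀ t ∈ Icc a b, Real.sin t ≠ 0) :
    ∃ V : ℝ, 0 ≤ V ∧ V < b - a ∧ ∀ (s : ℝ) (hs : 0 < s),
      gE (cf κ hs m) (sphS θ a) (sphS θ b) ≤ ENNReal.ofReal V := by
  -- lower bound for |sin t|^m
  obtain ⟨S, hS, hS1, hSt⟩ : ∃ S > 0, S ≤ 1 ∧ ∀ t ∈ Icc a b, S ≤ |Real.sin t| ^ m := by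
    have hc : ContinuousOn (fun t => |Real.sin t| ^ m) (Icc a b) := by fun_prop
    obtain ⟨t₀, ht₀, hmin⟩ := isCompact_Icc.exists_isMinOn ⟨a, left_mem_Icc.2 hab.le⟩ hc
    refine ⟨|Real.sin t₀| ^ m, pow_pos (abs_pos.2 (hsin t₀ ht₀)) m,
      pow_le_one₀ (abs_nonneg _) (Real.abs_sin_le_one _), fun t ht => hmin ht⟩
  set ℓ := b - a with hℓ
  have hℓ0 : 0 < ℓ := sub_pos.2 hab
  have hm0 : (1 : ℝ) ≤ m := by exact_mod_cast hm
  set τ := min (κ * S / 24) (1 / (m * ℓ ^ 2)) with hτ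
  have hτ0 : 0 < τ := lt_min (by positivity) (by positivity)
  have hτ1 : τ ≤ κ * S / 24 := min_le_left _ _
  have hτ2 : τ * (m * ℓ ^ 2) ≤ 1 := by
    have := min_le_right (κ * S / 24) (1 / (m * ℓ ^ 2))
    rw [← hτ, le_div_iff₀ (by positivity)] at this
    exact this
  set k := κ * S * τ / 4 with hk
  set C := 1 + τ ^ 2 * ℓ ^ 2 / 2 with hC
  have hcosm : |Real.cos (m * θ)| = 1 := by
    have := Real.sin_sq_add_cos_sq (m * θ)
    rw [hθ] at this
    have h2 : Real.cos (m * θ) ^ 2 = 1 := by linarith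
    exact (pow_left_inj₀ (abs_nonneg _) zero_le_one two_ne_zero).1 (by rw [sq_abs, h2, one_pow])
  set ψ : ℝ → ℝ := fun t => θ + τ * ((t - a) * (b - t)) with hψ
  set ψ' : ℝ → ℝ := fun t => τ * (a + b - 2 * t) with hψ'
  have hder : ∀ t, HasDerivAt ψ (ψ' t) t := by
    intro t
    refine ((((hasDerivAt_id t).sub_const a).mul ((hasDerivAt_id t).const_sub b)).const_mul
      τ |>.const_add θ).congr_deriv ?_
    simp only [hψ', id]
    ring
  have hψc : ContDiff ℝ 1 ψ := by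
    rw [hψ]
    fun_prop
  have hk0 : 0 ≤ k := by positivity
  -- pointwise bound
  have hpt : ∀ (s : ℝ) (hs : 0 < s), ∀ t ∈ Icc a b,
      Real.sqrt ((cf κ hs m).F (sph (ψ t) t)) * ‖deriv (fun t => sph (ψ t) t) t‖ ≤
        (1 - k * ((t - a) * (b - t))) * C := by
    intro s hs t ht
    have hh0 : 0 ≤ (t - a) * (b - t) :=
      mul_nonneg (sub_nonneg.2 ht.1) (sub_nonneg.2 ht.2)
    have hh1 : (t - a) * (b - t) ≤ ℓ ^ 2 / 4 := by
      rw [hℓ]; nlinarith [sq_nonneg ((t - a) - (b - t))]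
    set x := τ * ((t - a) * (b - t)) with hx
    have hx0 : 0 ≤ x := by positivity
    have hmx : m * x ≤ 1 / 4 := by
      have : m * x ≤ m * (τ * (ℓ ^ 2 / 4)) := by rw [hx]; gcongr
      nlinarith
    have hpi : (3 : ℝ) < Real.pi := Real.pi_gt_three
    have hpi4 : Real.pi < 4 := by linarith [Real.pi_lt_d2]
    have hsinmx : x / 2 ≤ Real.sin (m * x) := by
      have h1 := Real.mul_le_sin (x := m * x) (by positivity) (by linarith)
      have h2 : 1 / 2 * (m * x) ≤ 2 / Real.pi * (m * x) := by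
        have h4 : (1 : ℝ) / 2 ≤ 2 / Real.pi := by
          rw [le_div_iff₀ (by linarith)]; linarith
        exact mul_le_mul_of_nonneg_right h4 (by positivity)
      have h3 : x ≤ m * x := by nlinarith
      linarith
    have hq : |q m (sph (ψ t) t)| = |Real.sin t| ^ m * |Real.sin (m * x)| := by
      rw [q_sph, abs_mul, abs_pow]
      congr 1
      have : (m : ℝ) * ψ t = m * θ + m * x := by rw [hψ, hx]; ring
      rw [this, Real.sin_add, hθ, zero_mul, zero_add, abs_mul, hcosm, one_mul]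
    have hd : S * x / 2 ≤ |q m (sph (ψ t) t)| := by
      rw [hq]
      have h1 := hSt t ht
      have h2 : x / 2 ≤ |Real.sin (m * x)| := hsinmx.trans (le_abs_self _)
      calc S * x / 2 = S * (x / 2) := by ring
        _ ≤ |Real.sin t| ^ m * |Real.sin (m * x)| := by gcongr
    have hx1 : x ≤ 1 := by nlinarith
    have hd1 : S * x / 2 ≤ 1 := by nlinarith
    have h1 := uu_le_exp (s := s) hκ.le hκ1 m (sph (ψ t) t) (by positivity) hd1 hd
    rw [sqrt_cf]
    have h2 := sph_path_norm (hder t)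
    have h3 : 1 + ψ' t ^ 2 / 2 ≤ C := by
      have h4 : (a + b - 2 * t) ^ 2 ≤ ℓ ^ 2 := by
        rw [hℓ]; nlinarith
      have h5 : ψ' t ^ 2 = τ ^ 2 * (a + b - 2 * t) ^ 2 := by rw [hψ']; ring
      have h6 : τ ^ 2 * (a + b - 2 * t) ^ 2 ≤ τ ^ 2 * ℓ ^ 2 := by gcongr
      rw [hC, h5]; linarith
    have h4 : 1 - κ * (S * x / 2) / 2 = 1 - k * ((t - a) * (b - t)) := by
      rw [hk, hx]; ring
    rw [h4] at h1
    have h5 : 0 ≤ 1 - k * ((t - a) * (b - t)) := (Real.exp_pos _).le.trans h1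
    calc Real.exp (uu κ s m (sph (ψ t) t)) * ‖deriv (fun t => sph (ψ t) t) t‖
        ≤ (1 - k * ((t - a) * (b - t))) * (1 + ψ' t ^ 2 / 2) := by gcongr
      _ ≤ (1 - k * ((t - a) * (b - t))) * C := by gcongr
  -- the integral
  have hint : ∫ t in a..b, (1 - k * ((t - a) * (b - t))) * C = (ℓ - k * ℓ ^ 3 / 6) * C := by
    have hF : ∀ t, HasDerivAt (fun t => (t - k * (ℓ * (t - a) ^ 2 / 2 - (t - a) ^ 3 / 3)) * C)
        ((1 - k * ((t - a) * (b - t))) * C) t := by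
      intro t
      have h1 : HasDerivAt (fun t : ℝ => t - a) 1 t := (hasDerivAt_id t).sub_const a
      have h2 := ((h1.pow 2).const_mul ℓ).div_const 2
      have h3 := (h1.pow 3).div_const 3
      refine (((hasDerivAt_id t).sub ((h2.sub h3).const_mul k)).mul_const C).congr_deriv ?_
      rw [hℓ]; push_cast; ring
    rw [intervalIntegral.integral_eq_sub_of_hasDerivAt (fun t _ => hF t)
      (by apply Continuous.intervalIntegrable; fun_prop)]
    rw [hℓ]; ring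
  have hVlt : (ℓ - k * ℓ ^ 3 / 6) * C < ℓ := by
    have h1 : (ℓ - k * ℓ ^ 3 / 6) * C = ℓ - ℓ ^ 3 * τ * (κ * S / 24 - τ / 2)
        - k * ℓ ^ 3 / 6 * (τ ^ 2 * ℓ ^ 2 / 2) := by
      rw [hC, hk]; ring
    have h2 : 0 < ℓ ^ 3 * τ * (κ * S / 24 - τ / 2) := by
      apply mul_pos (by positivity); linarith
    have h3 : 0 ≤ k * ℓ ^ 3 / 6 * (τ ^ 2 * ℓ ^ 2 / 2) := by positivity
    linarith
  refine ⟨max ((ℓ - k * ℓ ^ 3 / 6) * C) 0, le_max_right _ _, max_lt hVlt hℓ0, fun s hs => ?_⟩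
  have h1 := gE_le_len (cf κ hs m) (sph_contDiff hψc) (fun t => sph_norm _ _) hab.le
    (x := sphS θ a) (y := sphS θ b) (by simp [hψ, sphS]) (by simp [hψ, sphS])
  refine h1.trans ?_
  have h2 := len_le_integral (cf κ hs m) (γ := fun t => sph (ψ t) t) hab.le
    (g := fun t => (1 - k * ((t - a) * (b - t))) * C) (by fun_prop) (hpt s hs)
  rw [hint] at h2
  exact h2.trans (ENNReal.ofReal_le_ofReal (le_max_left _ _))

end Pool.Agent.H82
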