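import Mathlib
import Pool.Agent.H82.Ridge

open scoped Manifold ContDiff Topology ENNReal NNReal Bundle
open MeasureTheory Bundle Set Metric

noncomputable section
namespace Pool.Agent.H82

lemma gE_triangle (c : Conf) (x y z : S2) : gE c x z ≤ gE c x y + gE c y z :=
  Manifold.riemannianEDist_triangle (I := 𝓡 2) (M := SG c)

lemma gE_comm (c : Conf) (x y : S2) : gE c x y = gE c y x :=
  Manifold.riemannianEDist_comm (I := 𝓡 2) (M := SG c)

lemma abs_q_le (m : ℕ) {X : E3} (hX : ‖X‖ ≤ 1) : |q m X| ≤ 1 := by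
  unfold q
  refine (Complex.abs_im_le_norm _).trans ?_
  rw [norm_pow]
  exact pow_le_one₀ (norm_nonneg _) ((norm_zc_le X).trans hX)

lemma uu_le {κ s : ℝ} (hκ : 0 ≤ κ) (hs : 0 < s) (m : ℕ) (X : E3) : uu κ s m X ≤ -(κ * s) := by
  unfold uu
  have h1 : s ≤ Real.sqrt (s ^ 2 + q m X ^ 2) := by
    apply Real.le_sqrt_of_sq_le; nlinarith [sq_nonneg (q m X)]
  have : κ * s ≤ κ * Real.sqrt (s ^ 2 + q m X ^ 2) := by gcongr
  linarith

lemma sqrt_cf_le {κ s : ℝ} (hκ : 0 ≤ κ) (hs : 0 < s) (m : ℕ) (X : E3) :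
    Real.sqrt ((cf κ hs m).F X) ≤ Real.exp (-(κ * s)) := by
  rw [sqrt_cf]
  exact Real.exp_le_exp.2 (uu_le hκ hs m X)

lemma sqrt_cf_le_one {κ s : ℝ} (hκ : 0 ≤ κ) (hs : 0 < s) (m : ℕ) (X : E3) :
    Real.sqrt ((cf κ hs m).F X) ≤ 1 := by
  refine (sqrt_cf_le hκ hs m X).trans ?_
  rw [Real.exp_le_one_iff]
  have : 0 ≤ κ * s := by positivity
  linarith

lemma le_sqrt_cf {κ s : ℝ} (hκ : 0 ≤ κ) (hs : 0 < s) (hs1 : s ≤ 1) (m : ℕ) {X : E3} (hX : ‖X‖ = 1) :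
    Real.exp (-(2 * κ)) ≤ Real.sqrt ((cf κ hs m).F X) := by
  rw [sqrt_cf]
  apply Real.exp_le_exp.2
  unfold uu
  have h1 : Real.sqrt (s ^ 2 + q m X ^ 2) ≤ 2 := by
    rw [Real.sqrt_le_left (by norm_num)]
    have := abs_q_le m hX.le
    have h2 : q m X ^ 2 ≤ 1 := by rw [← sq_abs]; nlinarith [abs_nonneg (q m X)]
    nlinarith
  have : κ * Real.sqrt (s ^ 2 + q m X ^ 2) ≤ κ * 2 := by gcongr
  linarith

lemma gE_sph_le {κ s : ℝ} (hκ : 0 ≤ κ) (hs : 0 < s) (m : ℕ) (θ u v : ℝ) :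
    gE (cf κ hs m) (sphS θ u) (sphS θ v) ≤ ENNReal.ofReal |u - v| := by
  wlog huv : u ≤ v with H
  · rw [gE_comm, abs_sub_comm]
    exact H hκ hs m θ v u (le_of_not_ge huv)
  have hd : ∀ t, HasDerivAt (fun _ : ℝ => θ) ((fun _ : ℝ => (0:ℝ)) t) t := fun t =>
    hasDerivAt_const t θ
  have h1 := gE_le_len (cf κ hs m) (γ := fun t => sph θ t) (sph_contDiff (ψ := fun _ => θ) contDiff_const)
    (fun t => sph_norm _ _) huv (x := sphS θ u) (y := sphS θ v) rfl rfl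
  refine h1.trans ?_
  have h2 := len_le (cf κ hs m) (γ := fun t => sph θ t) (a := u) (b := v) (K := 1) (L := 1)
    zero_le_one (fun t _ => by
      simpa using sph_path_norm (ψ := fun _ => θ) (ψ' := fun _ => 0) (hd t))
    (fun t _ => sqrt_cf_le_one hκ hs m _)
  rw [abs_sub_comm, abs_of_nonneg (by linarith)]
  simpa using h2

/-- pointwise version of the claim that ridges are not minimizing -/
lemma ridge_pointwise {κ : ℝ} (hκ : 0 < κ) (hκ1 : κ ≤ 1) {m : ℕ} (hm : 1 ≤ m) {θ : ℝ}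
    (hθ : Real.sin (m * θ) = 0) {φ ℓ : ℝ} (hℓ : 0 < ℓ) (hℓπ : ℓ ≤ Real.pi) :
    ∃ β > 0, ∀ (s : ℝ) (hs : 0 < s), gE (cf κ hs m) (sphS θ φ) (sphS θ (φ + ℓ)) ≤
      ENNReal.ofReal (ℓ - β) ∧ β ≤ ℓ := by
  -- a point of the arc which is not a pole
  obtain ⟨t₀, h1, h2, h3⟩ : ∃ t₀, φ < t₀ ∧ t₀ < φ + ℓ ∧ Real.sin t₀ ≠ 0 := by
    by_contra hcon
    push Not at hcon
    have e1 := hcon (φ + ℓ / 2) (by linarith) (by linarith)
    have e2 := hcon (φ + ℓ / 3) (by linarith) (by linarith)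
    have e3 : Real.sin (ℓ / 6) = 0 := by
      have : ℓ / 6 = (φ + ℓ / 2) - (φ + ℓ / 3) := by ring
      rw [this, Real.sin_sub, e1, e2]; ring
    have e4 : 0 < Real.sin (ℓ / 6) :=
      Real.sin_pos_of_pos_of_lt_pi (by linarith) (by linarith [Real.pi_pos])
    exact e4.ne' e3
  -- a small interval around it
  obtain ⟨a, b, ha, hab, hb, hsin⟩ : ∃ a b, φ < a ∧ a < b ∧ b < φ + ℓ ∧
      ∀ t ∈ Icc a b, Real.sin t ≠ 0 := by
    have hopen : IsOpen {t : ℝ | Real.sin t ≠ 0 ∧ φ < t ∧ t < φ + ℓ} := by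
      apply IsOpen.inter
      · exact isOpen_ne_fun Real.continuous_sin continuous_const
      · exact isOpen_Ioi.inter isOpen_Iio
    obtain ⟨ε, hε, hball⟩ := Metric.isOpen_iff.1 hopen t₀ ⟨h3, h1, h2⟩
    have hsub : ∀ t ∈ Icc (t₀ - ε / 2) (t₀ + ε / 2), Real.sin t ≠ 0 ∧ φ < t ∧ t < φ + ℓ := by
      intro t ht
      apply hball
      rw [Metric.mem_ball, Real.dist_eq, abs_lt]
      constructor <;> linarith [ht.1, ht.2]
    refine ⟨t₀ - ε / 2, t₀ + ε / 2, (hsub _ ⟨le_rfl, by linarith⟩).2.1, by linarith,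
      (hsub _ ⟨by linarith, le_rfl⟩).2.2, fun t ht => (hsub t ht).1⟩
  obtain ⟨V, hV0, hV, hVs⟩ := bump hκ hκ1 hm hθ hab hsin
  refine ⟨b - a - V, by linarith, fun s hs => ⟨?_, by linarith⟩⟩
  calc gE (cf κ hs m) (sphS θ φ) (sphS θ (φ + ℓ))
      ≤ gE (cf κ hs m) (sphS θ φ) (sphS θ a) + gE (cf κ hs m) (sphS θ a) (sphS θ (φ + ℓ)) :=
        gE_triangle _ _ _ _
    _ ≤ gE (cf κ hs m) (sphS θ φ) (sphS θ a) + (gE (cf κ hs m) (sphS θ a) (sphS θ b) +
        gE (cf κ hs m) (sphS θ b) (sphS θ (φ + ℓ))) := by gcongr; exact gE_triangle _ _ _ _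
    _ ≤ ENNReal.ofReal |φ - a| + (ENNReal.ofReal V + ENNReal.ofReal |b - (φ + ℓ)|) := by
        gcongr
        · exact gE_sph_le hκ.le hs m _ _ _
        · exact hVs s hs
        · exact gE_sph_le hκ.le hs m _ _ _
    _ = ENNReal.ofReal (ℓ - (b - a - V)) := by
        rw [← ENNReal.ofReal_add hV0 (abs_nonneg _), ← ENNReal.ofReal_add (abs_nonneg _)
          (by positivity), abs_of_neg (by linarith), abs_of_neg (by linarith)]
        congr 1; ring

/-- uniform version: for small `s`, all long arcs of a ridge are not minimizing -/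
lemma ridge_uniform_one {κ : ℝ} (hκ : 0 < κ) (hκ1 : κ ≤ 1) {m : ℕ} (hm : 1 ≤ m) {θ : ℝ}
    (hθ : Real.sin (m * θ) = 0) {ε : ℝ} (hε : 0 < ε) :
    ∀ᶠ s in 𝓝 (0 : ℝ), ∀ p ∈ Icc (-Real.pi) Real.pi ×ˢ Icc ε Real.pi, ∀ hs : 0 < s,
      gE (cf κ hs m) (sphS θ p.1) (sphS θ (p.1 + p.2)) <
        ENNReal.ofReal (Real.exp (-(κ * s)) * p.2) := by
  have hK : IsCompact (Icc (-Real.pi) Real.pi ×ˢ Icc ε Real.pi) := isCompact_Icc.prod isCompact_Icc
  apply hK.eventually_forall_of_forall_eventually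
    (P := fun s p => ∀ hs : 0 < s, gE (cf κ hs m) (sphS θ p.1) (sphS θ (p.1 + p.2)) <
        ENNReal.ofReal (Real.exp (-(κ * s)) * p.2))
  rintro ⟨φ, ℓ⟩ ⟨hφ, hℓ⟩
  obtain ⟨β, hβ, h⟩ := ridge_pointwise hκ hκ1 hm hθ (φ := φ) (ℓ := ℓ) (hε.trans_le hℓ.1) hℓ.2
  -- the open condition
  have hcont : ContinuousAt (fun z : ℝ × ℝ × ℝ => |z.2.1 - φ| + (ℓ - β) +
      |(φ + ℓ) - (z.2.1 + z.2.2)| - Real.exp (-(κ * z.1)) * z.2.2) (0, φ, ℓ) := by fun_prop
  have hval : (fun z : ℝ × ℝ × ℝ => |z.2.1 - φ| + (ℓ - β) +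
      |(φ + ℓ) - (z.2.1 + z.2.2)| - Real.exp (-(κ * z.1)) * z.2.2) (0, φ, ℓ) < 0 := by
    simp; linarith
  have hpos : ContinuousAt (fun z : ℝ × ℝ × ℝ => z.2.2) (0, φ, ℓ) := by fun_prop
  have hpos' : (0 : ℝ) < (fun z : ℝ × ℝ × ℝ => z.2.2) (0, φ, ℓ) := hε.trans_le hℓ.1
  filter_upwards [hcont.eventually_lt continuousAt_const hval,
    continuousAt_const.eventually_lt hpos hpos'] with z hz hz2 hs
  obtain ⟨s, φ', ℓ'⟩ := z
  simp only at hz hz2 hs ⊢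
  obtain ⟨hβ1, hβ2⟩ := h s hs
  calc gE (cf κ hs m) (sphS θ φ') (sphS θ (φ' + ℓ'))
      ≤ gE (cf κ hs m) (sphS θ φ') (sphS θ φ) + gE (cf κ hs m) (sphS θ φ) (sphS θ (φ' + ℓ')) :=
        gE_triangle _ _ _ _
    _ ≤ gE (cf κ hs m) (sphS θ φ') (sphS θ φ) + (gE (cf κ hs m) (sphS θ φ) (sphS θ (φ + ℓ)) +
        gE (cf κ hs m) (sphS θ (φ + ℓ)) (sphS θ (φ' + ℓ'))) := by
          gcongr; exact gE_triangle _ _ _ _
    _ ≤ ENNReal.ofReal |φ' - φ| + (ENNReal.ofReal (ℓ - β) +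
        ENNReal.ofReal |(φ + ℓ) - (φ' + ℓ')|) := by
        gcongr
        · exact gE_sph_le hκ.le hs m _ _ _
        · exact gE_sph_le hκ.le hs m _ _ _
    _ = ENNReal.ofReal (|φ' - φ| + (ℓ - β) + |(φ + ℓ) - (φ' + ℓ')|) := by
        rw [← ENNReal.ofReal_add (by linarith) (abs_nonneg _), ← ENNReal.ofReal_add (abs_nonneg _)
          (add_nonneg (by linarith) (abs_nonneg _))]
        congr 1; ring
    _ < ENNReal.ofReal (Real.exp (-(κ * s)) * ℓ') := by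
        rw [ENNReal.ofReal_lt_ofReal_iff (by positivity)]
        linarith

/-- the unit normal to the plane of the ridge at longitude `θ` -/
def nrm (θ : ℝ) : E3 := !₂[-Real.sin θ, Real.cos θ, 0]

lemma nrm_norm (θ : ℝ) : ‖nrm θ‖ = 1 := by
  have h2 : ‖nrm θ‖ ^ 2 = 1 ^ 2 := by
    rw [EuclideanSpace.norm_sq_eq, Fin.sum_univ_three]
    simp only [Real.norm_eq_abs, sq_abs]
    simp [nrm]
  exact (pow_left_inj₀ (norm_nonneg _) (by positivity) two_ne_zero).1 h2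

/-- points of the sphere in the plane of the ridge at longitude `θ` -/
lemma exists_sph {θ : ℝ} {X : E3} (hX : ‖X‖ = 1) (hn : inner ℝ X (nrm θ) = 0) :
    ∃ φ ∈ Icc (-Real.pi) Real.pi, X = sph θ φ := by
  -- coordinates in the plane
  set A := X 0 * Real.cos θ + X 1 * Real.sin θ with hA
  have hn' : X 0 * Real.sin θ = X 1 * Real.cos θ := by
    rw [PiLp.inner_apply, Fin.sum_univ_three] at hn
    simp [nrm] at hn
    linarith
  have hcs := Real.sin_sq_add_cos_sq θ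
  have h0 : X 0 = A * Real.cos θ := by
    rw [hA]; linear_combination (-X 0) * hcs + Real.sin θ * hn'
  have h1 : X 1 = A * Real.sin θ := by
    rw [hA]; linear_combination (-X 1) * hcs - Real.cos θ * hn'
  have hnorm : A ^ 2 + X 2 ^ 2 = 1 := by
    have h2 : ‖X‖ ^ 2 = 1 := by rw [hX]; norm_num
    rw [EuclideanSpace.norm_sq_eq, Fin.sum_univ_three] at h2
    simp only [Real.norm_eq_abs, sq_abs] at h2
    rw [h0, h1] at h2
    nlinarith
  -- the angle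
  set z : ℂ := ⟨X 2, A⟩ with hz
  have hzn : ‖z‖ = 1 := by
    have : ‖z‖ ^ 2 = 1 ^ 2 := by
      rw [Complex.sq_norm, Complex.normSq_apply]; simp [hz]; nlinarith
    exact (pow_left_inj₀ (norm_nonneg _) (by positivity) two_ne_zero).1 this
  have hz0 : z ≠ 0 := by intro h; rw [h] at hzn; simp at hzn
  have hcos : Real.cos z.arg = X 2 := by
    rw [Complex.cos_arg hz0, hzn]; simp [hz]
  have hsin : Real.sin z.arg = A := by
    rw [Complex.sin_arg, hzn]; simp [hz]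
  refine ⟨z.arg, ⟨(Complex.neg_pi_lt_arg z).le, Complex.arg_le_pi z⟩, ?_⟩
  ext i
  fin_cases i
  · show X 0 = _
    rw [h0, ← hsin]; simp [sph]
  · show X 1 = _
    rw [h1, ← hsin]; simp [sph]
  · show X 2 = _
    rw [← hcos]; simp [sph]

lemma inner_sph (θ a b : ℝ) : inner ℝ (sph θ a) (sph θ b) = Real.cos (a - b) := by
  rw [PiLp.inner_apply, Fin.sum_univ_three]
  simp [sph]
  rw [Real.cos_sub]
  have hcs := Real.sin_sq_add_cos_sq θ
  linear_combination (Real.sin a * Real.sin b) * hcs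

/-- two points of the ridge at longitude `θ` in suitable position -/
lemma exists_sph_pair {θ : ℝ} {x y : S2} (hx : inner ℝ (x : E3) (nrm θ) = 0)
    (hy : inner ℝ (y : E3) (nrm θ) = 0) :
    ∃ φ ∈ Icc (-Real.pi) Real.pi, (x = sphS θ φ ∧ y = sphS θ (φ + ang x y)) ∨
      (y = sphS θ φ ∧ x = sphS θ (φ + ang x y)) := by
  obtain ⟨a, ha, hxa⟩ := exists_sph (norm_S2 x) hx
  obtain ⟨b, hb, hyb⟩ := exists_sph (norm_S2 y) hy
  have h0 : 0 ≤ ang x y := InnerProductGeometry.angle_nonneg _ _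
  have h1 : ang x y ≤ Real.pi := InnerProductGeometry.angle_le_pi _ _
  have hc : Real.cos (ang x y) = Real.cos (a - b) := by
    rw [cos_ang (norm_S2 x) (norm_S2 y), hxa, hyb, inner_sph]
  have hper : ∀ t, sph θ (t + 2 * Real.pi) = sph θ t := by
    intro t; simp [sph]
  rcases le_total a b with hab | hab
  · by_cases h2 : b - a ≤ Real.pi
    · have : ang x y = b - a := by
        apply Real.injOn_cos ⟨h0, h1⟩ ⟨by linarith, h2⟩
        rw [hc, ← Real.cos_neg]; ring_nf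
      refine ⟨a, ha, Or.inl ⟨Subtype.ext hxa, Subtype.ext ?_⟩⟩
      rw [this, hyb]; simp [sphS]
    · push Not at h2
      have : ang x y = a + 2 * Real.pi - b := by
        apply Real.injOn_cos ⟨h0, h1⟩ ⟨by linarith [ha.1, hb.2], by linarith⟩
        rw [hc, show a + 2 * Real.pi - b = (a - b) + 2 * Real.pi by ring, Real.cos_add_two_pi]
      refine ⟨b, hb, Or.inr ⟨Subtype.ext hyb, Subtype.ext ?_⟩⟩
      rw [this, hxa]
      show _ = sph θ (b + (a + 2 * Real.pi - b))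
      rw [show b + (a + 2 * Real.pi - b) = a + 2 * Real.pi by ring, hper]
  · by_cases h2 : a - b ≤ Real.pi
    · have : ang x y = a - b := by
        apply Real.injOn_cos ⟨h0, h1⟩ ⟨by linarith, h2⟩
        rw [hc]
      refine ⟨b, hb, Or.inr ⟨Subtype.ext hyb, Subtype.ext ?_⟩⟩
      rw [this, hxa]; simp [sphS]
    · push Not at h2
      have : ang x y = b + 2 * Real.pi - a := by
        apply Real.injOn_cos ⟨h0, h1⟩ ⟨by linarith [ha.2, hb.1], by linarith⟩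
        rw [hc, show b + 2 * Real.pi - a = -(a - b) + 2 * Real.pi by ring, Real.cos_add_two_pi,
          Real.cos_neg]
      refine ⟨a, ha, Or.inl ⟨Subtype.ext hxa, Subtype.ext ?_⟩⟩
      rw [this, hyb]
      show _ = sph θ (a + (b + 2 * Real.pi - a))
      rw [show a + (b + 2 * Real.pi - a) = b + 2 * Real.pi by ring, hper]

/-- Claim D: for small `s`, for any two points of a ridge at distance at least `ε`, the ridge arc
between them is not minimizing. -/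
lemma ridge_uniform {κ : ℝ} (hκ : 0 < κ) (hκ1 : κ ≤ 1) {m : ℕ} (hm : 1 ≤ m) {θ : ℝ}
    (hθ : Real.sin (m * θ) = 0) {ε : ℝ} (hε : 0 < ε) :
    ∀ᶠ s in 𝓝 (0 : ℝ), ∀ hs : 0 < s, ∀ x y : S2, inner ℝ (x : E3) (nrm θ) = 0 →
      inner ℝ (y : E3) (nrm θ) = 0 → ε ≤ ‖(x : E3) - y‖ →
      gE (cf κ hs m) x y < ENNReal.ofReal (Real.exp (-(κ * s)) * ang x y) := by
  filter_upwards [ridge_uniform_one hκ hκ1 hm hθ hε] with s h hs x y hx hy hxy
  obtain ⟨φ, hφ, hcase⟩ := exists_sph_pair hx hy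
  have h1 : ε ≤ ang x y := hxy.trans (dist_le_ang (norm_S2 x) (norm_S2 y))
  have h2 : ang x y ≤ Real.pi := InnerProductGeometry.angle_le_pi _ _
  have h3 := h (φ, ang x y) ⟨hφ, ⟨h1, h2⟩⟩ hs
  simp only at h3
  rcases hcase with ⟨e1, e2⟩ | ⟨e1, e2⟩
  · rw [← e2, ← e1] at h3; exact h3
  · rw [← e2, ← e1] at h3; rw [gE_comm]; exact h3

end Pool.Agent.H82
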