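import Mathlib
import Pool.Agent.H82.Ridge2

open scoped Manifold ContDiff Topology ENNReal NNReal Bundle
open MeasureTheory Bundle Set Metric

noncomputable section
namespace Pool.Agent.H82

/-- reflection in the plane of the ridge at longitude `θ` -/
def refl (θ : ℝ) : E3 →ₗᵢ[ℝ] E3 := ((ℝ ∙ nrm θ)ᗮ.reflection).toLinearIsometry

lemma refl_apply (θ : ℝ) (X : E3) : refl θ X = X - (2 * inner ℝ X (nrm θ)) • nrm θ := by
  show (ℝ ∙ nrm θ)ᗮ.reflection X = _
  rw [Submodule.reflection_orthogonal_apply, Submodule.reflection_singleton_apply, nrm_norm,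
    real_inner_comm]
  simp
  module

lemma refl_refl (θ : ℝ) (X : E3) : refl θ (refl θ X) = X := by
  show (ℝ ∙ nrm θ)ᗮ.reflection ((ℝ ∙ nrm θ)ᗮ.reflection X) = X
  simp

lemma refl_fixed {θ : ℝ} {X : E3} (h : refl θ X = X) : inner ℝ X (nrm θ) = 0 := by
  rw [refl_apply] at h
  have h1 : (2 * inner ℝ X (nrm θ)) • nrm θ = 0 := by
    have := sub_eq_self.1 h
    exact this
  rcases smul_eq_zero.1 h1 with h2 | h2
  · linarith
  · exfalso
    have := nrm_norm θ
    rw [h2, norm_zero] at this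
    norm_num at this

lemma refl_of_mem {θ : ℝ} {X : E3} (h : inner ℝ X (nrm θ) = 0) : refl θ X = X := by
  rw [refl_apply, h]; simp

lemma zc_refl (θ : ℝ) (X : E3) :
    zc (refl θ X) = Complex.exp (θ * Complex.I) ^ 2 * (starRingEnd ℂ) (zc X) := by
  rw [refl_apply, sub_eq_add_neg, zc_add, ← neg_smul, zc_smul, Complex.exp_mul_I,
    ← Complex.ofReal_cos, ← Complex.ofReal_sin, PiLp.inner_apply, Fin.sum_univ_three]
  have hcs := Real.sin_sq_add_cos_sq θ
  apply Complex.ext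
  · simp [zc, nrm, pow_two, -Complex.ofReal_cos, -Complex.ofReal_sin]
    linear_combination (-X 0) * hcs
  · simp [zc, nrm, pow_two, -Complex.ofReal_cos, -Complex.ofReal_sin]
    linear_combination (-X 1) * hcs

lemma q_refl {m : ℕ} {θ : ℝ} (hθ : Real.sin (m * θ) = 0) (X : E3) :
    q m (refl θ X) = - q m X := by
  have h1 : (Complex.exp (θ * Complex.I) ^ 2) ^ m = 1 := by
    rw [← pow_mul, mul_comm 2 m, pow_mul, ← Complex.exp_nat_mul]
    have : (m : ℂ) * (θ * Complex.I) = ((m * θ : ℝ) : ℂ) * Complex.I := by push_cast; ring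
    rw [this, Complex.exp_mul_I, ← Complex.ofReal_cos, ← Complex.ofReal_sin, hθ]
    have h2 : Real.cos (m * θ) ^ 2 = 1 := by
      have := Real.sin_sq_add_cos_sq (m * θ)
      rw [hθ] at this; linarith
    rw [Complex.ofReal_zero, zero_mul, add_zero, ← Complex.ofReal_pow, h2, Complex.ofReal_one]
  unfold q
  rw [zc_refl, mul_pow, h1, one_mul, ← map_pow, Complex.conj_im]

lemma cf_refl (κ : ℝ) {s : ℝ} (hs : 0 < s) {m : ℕ} {θ : ℝ} (hθ : Real.sin (m * θ) = 0) (X : E3) :
    (cf κ hs m).F (refl θ X) = (cf κ hs m).F X := by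
  show Real.exp (2 * uu κ s m (refl θ X)) = Real.exp (2 * uu κ s m X)
  unfold uu
  rw [q_refl hθ, neg_sq]

/-- the reflection as a map of the sphere -/
def reflS (θ : ℝ) (x : S2) : S2 := ⟨refl θ x, by simp [(refl θ).norm_map]⟩

lemma reflS_reflS (θ : ℝ) (x : S2) : reflS θ (reflS θ x) = x := Subtype.ext (refl_refl θ x)

lemma gE_reflS (κ : ℝ) {s : ℝ} (hs : 0 < s) {m : ℕ} {θ : ℝ} (hθ : Real.sin (m * θ) = 0)
    (x y : S2) : gE (cf κ hs m) (reflS θ x) (reflS θ y) = gE (cf κ hs m) x y := by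
  apply le_antisymm
  · exact gE_map_le _ (refl θ) (cf_refl κ hs hθ) x y _ _ rfl rfl
  · have := gE_map_le _ (refl θ) (cf_refl κ hs hθ) (reflS θ x) (reflS θ y)
      (reflS θ (reflS θ x)) (reflS θ (reflS θ y)) rfl rfl
    rwa [reflS_reflS, reflS_reflS] at this

/-- `q` is Lipschitz on the unit ball -/
lemma q_lip (m : ℕ) {X Y : E3} (hX : ‖X‖ ≤ 1) (hY : ‖Y‖ ≤ 1) :
    |q m X - q m Y| ≤ m * ‖X - Y‖ := by
  have h1 : ∀ k : ℕ, ‖zc X ^ k - zc Y ^ k‖ ≤ k * ‖X - Y‖ := by
    intro k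
    induction k with
    | zero => simp
    | succ k ih =>
      have hx : ‖zc X‖ ≤ 1 := (norm_zc_le X).trans hX
      have hy : ‖zc Y ^ k‖ ≤ 1 := by
        rw [norm_pow]; exact pow_le_one₀ (norm_nonneg _) ((norm_zc_le Y).trans hY)
      have hz : ‖zc X - zc Y‖ ≤ ‖X - Y‖ := by
        have : zc X - zc Y = zc (X - Y) := (zcL.map_sub X Y).symm
        rw [this]; exact norm_zc_le _
      have e : zc X ^ (k + 1) - zc Y ^ (k + 1) =
          zc X * (zc X ^ k - zc Y ^ k) + (zc X - zc Y) * zc Y ^ k := by ring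
      rw [e]
      calc ‖zc X * (zc X ^ k - zc Y ^ k) + (zc X - zc Y) * zc Y ^ k‖
          ≤ ‖zc X‖ * ‖zc X ^ k - zc Y ^ k‖ + ‖zc X - zc Y‖ * ‖zc Y ^ k‖ := by
            refine (norm_add_le _ _).trans ?_
            rw [norm_mul, norm_mul]
        _ ≤ 1 * (k * ‖X - Y‖) + ‖X - Y‖ * 1 := by gcongr
        _ = ((k + 1 : ℕ) : ℝ) * ‖X - Y‖ := by push_cast; ring
  unfold q
  rw [← Complex.sub_im]
  exact (Complex.abs_im_le_norm _).trans (h1 m)

lemma q_eq_zero {m : ℕ} {θ : ℝ} (hθ : Real.sin (m * θ) = 0) {X : E3}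
    (h : inner ℝ X (nrm θ) = 0) : q m X = 0 := by
  have := q_refl hθ X
  rw [refl_of_mem h] at this
  linarith

/-- near a ridge the conformal factor is almost maximal -/
lemma le_sqrt_cf_near {κ s : ℝ} (hκ : 0 ≤ κ) (hs : 0 < s) {m : ℕ} {X Y : E3} (hX : ‖X‖ = 1)
    (hY : ‖Y‖ = 1) (hq : q m X = 0) {r : ℝ} (h : ‖Y - X‖ ≤ r) :
    Real.exp (-(κ * s) - κ * m * r) ≤ Real.sqrt ((cf κ hs m).F Y) := by
  rw [sqrt_cf]
  apply Real.exp_le_exp.2
  unfold uu
  have h1 := q_lip m hY.le hX.le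
  rw [hq, sub_zero] at h1
  have h2 : Real.sqrt (s ^ 2 + q m Y ^ 2) ≤ s + |q m Y| := by
    rw [Real.sqrt_le_left (by positivity)]
    nlinarith [sq_abs (q m Y), abs_nonneg (q m Y), mul_nonneg hs.le (abs_nonneg (q m Y))]
  have h3 : |q m Y| ≤ m * r := h1.trans (by gcongr)
  have h4 : κ * Real.sqrt (s ^ 2 + q m Y ^ 2) ≤ κ * (s + m * r) := by gcongr; linarith
  linarith

/-- A curve inside a ridge which is a metric geodesic has length at least the
angle times the maximal conformal factor. -/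
lemma ridge_lower {κ s : ℝ} (hκ : 0 ≤ κ) (hs : 0 < s) (hs1 : s ≤ 1) {m : ℕ} {θ : ℝ}
    (hθ : Real.sin (m * θ) = 0) {g : ℝ → S2} {D : ℝ} (hD : 0 ≤ D)
    (hg : ∀ a ∈ Icc (0:ℝ) 1, ∀ b ∈ Icc (0:ℝ) 1,
      gE (cf κ hs m) (g a) (g b) = ENNReal.ofReal (|a - b| * D))
    (hin : ∀ a ∈ Icc (0:ℝ) 1, inner ℝ (g a : E3) (nrm θ) = 0) :
    Real.exp (-(κ * s)) * ang (g 0) (g 1) ≤ D := by
  set c := cf κ hs m with hc
  set K := Real.exp (-(2 * κ)) with hK
  have hK0 : 0 < K := Real.exp_pos _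
  have hKle : ∀ X : E3, ‖X‖ = 1 → K ≤ Real.sqrt (c.F X) := fun X hX => le_sqrt_cf hκ hs hs1 m hX
  -- for every `r > 0`
  have key : ∀ r > 0, Real.exp (-(κ * s) - κ * m * r) * ang (g 0) (g 1) ≤ D := by
    intro r hr
    set K' := Real.exp (-(κ * s) - κ * m * r) with hK'
    have hK'0 : 0 < K' := Real.exp_pos _
    obtain ⟨N, hN⟩ := exists_nat_gt (D / (K * r))
    have hNpos : (0 : ℝ) < N := (div_nonneg hD (by positivity)).trans_lt hN
    have hND : D / N < K * r := by
      rw [div_lt_iff₀ (by positivity)] at hN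
      rw [div_lt_iff₀ hNpos]; linarith
    have hmem : ∀ k : ℕ, k ≤ N → (k / N : ℝ) ∈ Icc (0:ℝ) 1 := fun k hk =>
      ⟨by positivity, by rw [div_le_one hNpos]; exact_mod_cast hk⟩
    -- one step
    have hstep : ∀ k : ℕ, k + 1 ≤ N →
        K' * ang (g (k / N)) (g ((k + 1 : ℕ) / N)) ≤ D / N := by
      intro k hk
      have h1 := hg _ (hmem k (by omega)) _ (hmem (k + 1) hk)
      have h2 : |(k / N : ℝ) - ((k + 1 : ℕ) / N : ℝ)| * D = D / N := by
        have : (k / N : ℝ) - ((k + 1 : ℕ) / N : ℝ) = -(1 / N) := by push_cast; field_simp; ring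
        rw [this, abs_neg, abs_of_pos (by positivity)]
        ring
      rw [h2] at h1
      have h3 : gE c (g (k / N)) (g ((k + 1 : ℕ) / N)) < ENNReal.ofReal (K * r) := by
        rw [h1, ENNReal.ofReal_lt_ofReal_iff (by positivity)]; exact hND
      have h4 := le_gE_local c hK0.le hK'0.le hKle (g (k / N)) (g ((k + 1 : ℕ) / N))
        (r := r) (fun X hX hXr => le_sqrt_cf_near hκ hs (norm_S2 _) hX
          (q_eq_zero hθ (hin _ (hmem k (by omega)))) hXr) h3
      rw [h1, ENNReal.ofReal_le_ofReal_iff (by positivity)] at h4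
      exact h4
    -- induction
    have hind : ∀ k : ℕ, k ≤ N → K' * ang (g 0) (g (k / N)) ≤ k * (D / N) := by
      intro k
      induction k with
      | zero =>
        intro _
        simp only [Nat.cast_zero, zero_div, zero_mul]
        have : ang (g 0 : E3) (g 0) = 0 := InnerProductGeometry.angle_self (by
          intro h; have := norm_S2 (g 0); rw [h, norm_zero] at this; norm_num at this)
        rw [this, mul_zero]
      | succ k ih =>
        intro hk
        have h1 := ih (by omega)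
        have h2 := hstep k hk
        have h3 : ang (g 0 : E3) (g ((k + 1 : ℕ) / N)) ≤ ang (g 0 : E3) (g (k / N)) +
          ang (g (k / N) : E3) (g ((k + 1 : ℕ) / N)) :=
          InnerProductGeometry.angle_le_angle_add_angle _ _ _
        calc K' * ang (g 0) (g ((k + 1 : ℕ) / N)) ≤ K' * (ang (g 0 : E3) (g (k / N)) +
              ang (g (k / N) : E3) (g ((k + 1 : ℕ) / N))) := by gcongr
          _ ≤ k * (D / N) + D / N := by rw [mul_add]; linarith
          _ = ((k + 1 : ℕ) : ℝ) * (D / N) := by push_cast; ring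
    have h5 := hind N le_rfl
    rw [div_self hNpos.ne'] at h5
    calc K' * ang (g 0) (g 1) ≤ N * (D / N) := h5
      _ = D := by field_simp
  -- let `r → 0`
  have hlim : Filter.Tendsto (fun r : ℝ => Real.exp (-(κ * s) - κ * m * r) * ang (g 0) (g 1))
      (𝓝[>] 0) (𝓝 (Real.exp (-(κ * s)) * ang (g 0) (g 1))) := by
    have h1 : ContinuousAt (fun r : ℝ => Real.exp (-(κ * s) - κ * m * r) * ang (g 0) (g 1)) 0 := by
      fun_prop
    have h2 := h1.tendsto
    simp only [mul_zero, sub_zero] at h2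
    exact h2.mono_left nhdsWithin_le_nhds
  apply le_of_tendsto hlim
  filter_upwards [self_mem_nhdsWithin] with r hr using key r hr

end Pool.Agent.H82
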