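import Mathlib
import Pool.Agent.H82.Curv

open scoped Manifold ContDiff Topology ENNReal NNReal Bundle
open MeasureTheory Bundle Set Metric

noncomputable section
namespace Pool.Agent.H82

lemma abs_det_of_inner (L : R2 →L[ℝ] R2) (r : ℝ)
    (h : ∀ a b, inner ℝ (L a) (L b) = r * inner ℝ a b) : |L.det| = |r| := by
  let b := (EuclideanSpace.basisFun (Fin 2) ℝ).toBasis
  let M := LinearMap.toMatrix b b (L : R2 →ₗ[ℝ] R2)
  have hM : ∀ i j, M i j = (L (EuclideanSpace.single j 1)) i := by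
    intro i j
    simp [M, b, LinearMap.toMatrix_apply]
  have h1 : M.transpose * M = r • (1 : Matrix (Fin 2) (Fin 2) ℝ) := by
    ext j k
    have h2 := h (EuclideanSpace.single j 1) (EuclideanSpace.single k 1)
    rw [Matrix.mul_apply]
    simp only [Matrix.transpose_apply, hM, Matrix.smul_apply, Matrix.one_apply, smul_eq_mul]
    have h3 : inner ℝ (EuclideanSpace.single j (1:ℝ) : R2) (EuclideanSpace.single k (1 : ℝ)) =
      if j = k then (1:ℝ) else 0 := by
      rw [EuclideanSpace.inner_single_left]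
      simp
    rw [h3] at h2
    rw [← h2, PiLp.inner_apply]
    simp [mul_comm]
  have h2 : M.det ^ 2 = r ^ 2 := by
    have := congrArg Matrix.det h1
    rw [Matrix.det_mul, Matrix.det_transpose, Matrix.det_smul] at this
    simp at this
    nlinarith
  have h3 : M.det = L.det := by
    rw [ContinuousLinearMap.det]
    exact LinearMap.det_toMatrix b _
  rw [← h3]
  exact (sq_eq_sq_iff_abs_eq_abs _ _).1 h2

section
variable (c : Conf)

instance : MeasurableSpace (SG c) := borel _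
instance : BorelSpace (SG c) := ⟨rfl⟩

/-- Riemannian density in the chart at `x₀` -/
def dens (x₀ : SG c) (y : R2) : ℝ≥0∞ :=
  ENNReal.ofReal (Real.sqrt (Matrix.of fun i j => metricCoeff 2 x₀ i j y).det)

variable {c} in
/-- the point of the round sphere underlying a point of `SG c` -/
def SG.toS2 (x : SG c) : S2 := x

lemma chart_target (x₀ : SG c) : (chartAt R2 x₀).target = univ :=
  stereographic'_target (n := 2) (-x₀.toS2)

lemma chart_source (x₀ : SG c) : (chartAt R2 x₀).source = {(-x₀.toS2 : S2)}ᶜ :=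
  stereographic'_source (n := 2) (-x₀.toS2)

lemma continuous_chart_symm (x₀ : SG c) : Continuous (chartAt R2 x₀).symm := by
  have := (chartAt R2 x₀).continuousOn_symm
  rw [chart_target] at this
  exact continuousOn_univ.1 this

/-- formula for the density -/
lemma dens_eq {x₀ : SG c} {A : R2 →ₗᵢ[ℝ] E3} {v : E3}
    (hG : ∀ i j y, metricCoeff 2 x₀ i j y =
      if i = j then c.F (psi A v y) * (16 / (‖y‖ ^ 2 + 4) ^ 2) else 0) (y : R2) :
    dens c x₀ y = ENNReal.ofReal (c.F (psi A v y) * (16 / (‖y‖ ^ 2 + 4) ^ 2)) := by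
  unfold dens
  congr 1
  have hpos : 0 ≤ c.F (psi A v y) * (16 / (‖y‖ ^ 2 + 4) ^ 2) :=
    mul_nonneg (c.pos _).le (by positivity)
  rw [Matrix.det_fin_two]
  simp only [Matrix.of_apply, hG]
  simp only [if_true]
  have h01 : (0 : Fin 2) ≠ 1 := by decide
  simp only [h01, h01.symm, if_false, mul_zero, sub_zero]
  exact Real.sqrt_mul_self hpos

/-- transition map between two stereographic charts -/
lemma transition (x₀ x₁ : SG c) {z : R2}
    (hz : (chartAt R2 x₁).symm z ∈ (chartAt R2 x₀).source) :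
    DifferentiableAt ℝ (fun z : R2 => chartAt R2 x₀ ((chartAt R2 x₁).symm z)) z ∧
    ENNReal.ofReal |(fderiv ℝ (fun z : R2 => chartAt R2 x₀ ((chartAt R2 x₁).symm z)) z).det| *
      dens c x₀ (chartAt R2 x₀ ((chartAt R2 x₁).symm z)) = dens c x₁ z := by
  have hz1 : z ∈ (chartAt R2 x₁).target := by rw [chart_target]; trivial
  have hd : DifferentiableAt ℝ (fun z : R2 => chartAt R2 x₀ ((chartAt R2 x₁).symm z)) z := by
    have h1 : MDifferentiableAt (𝓡 2) (𝓡 2) (chartAt R2 x₁).symm z :=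
      mdifferentiableAt_atlas_symm (chart_mem_atlas _ _) hz1
    have h2 : MDifferentiableAt (𝓡 2) (𝓡 2) (chartAt R2 x₀) ((chartAt R2 x₁).symm z) :=
      mdifferentiableAt_atlas (chart_mem_atlas _ _) hz
    exact (h2.comp z h1).differentiableAt
  refine ⟨hd, ?_⟩
  obtain ⟨A₀, v₀, hv₀, -, hA₀, hψ₀, hG₀⟩ := metricCoeff_eq c x₀
  obtain ⟨A₁, v₁, hv₁, -, hA₁, hψ₁, hG₁⟩ := metricCoeff_eq c x₁
  rw [dens_eq c hG₀, dens_eq c hG₁]
  set T : R2 → R2 := fun z : R2 => chartAt R2 x₀ ((chartAt R2 x₁).symm z) with hT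
  -- psi₀ ∘ T = psi₁ near z
  have hopen : IsOpen {z : R2 | (chartAt R2 x₁).symm z ∈ (chartAt R2 x₀).source} :=
    (chartAt R2 x₀).open_source.preimage (continuous_chart_symm c x₁)
  have heq : ∀ z : R2, (chartAt R2 x₁).symm z ∈ (chartAt R2 x₀).source →
      psi A₀ v₀ (T z) = psi A₁ v₁ z := by
    intro z hz
    rw [← hψ₀, ← hψ₁, hT]
    simp only []
    rw [(chartAt R2 x₀).left_inv hz]
  have hev : (fun z => psi A₀ v₀ (T z)) =ᶠ[𝓝 z] psi A₁ v₁ := by
    filter_upwards [hopen.mem_nhds hz] with z hz using heq z hz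
  have hder : ∀ a, fderiv ℝ (psi A₀ v₀) (T z) (fderiv ℝ T z a) = fderiv ℝ (psi A₁ v₁) z a := by
    intro a
    rw [← hev.fderiv_eq]
    have h3 : DifferentiableAt ℝ (psi A₀ v₀) (T z) := psi_contDiff.differentiable (by simp) _
    have h4 := fderiv_comp z h3 hd
    have h5 : fderiv ℝ (fun z => psi A₀ v₀ (T z)) z = (fderiv ℝ (psi A₀ v₀) (T z)).comp
      (fderiv ℝ T z) := h4
    rw [h5]; rfl
  have hTz : 0 < ‖T z‖ ^ 2 + 4 := by positivity
  have hzz : 0 < ‖z‖ ^ 2 + 4 := by positivity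
  have hin : ∀ a b, inner ℝ (fderiv ℝ T z a) (fderiv ℝ T z b) =
      ((‖T z‖ ^ 2 + 4) ^ 2 / (‖z‖ ^ 2 + 4) ^ 2) * inner ℝ a b := by
    intro a b
    have h6 := psi_fderiv_inner hv₀ hA₀ (T z) (fderiv ℝ T z a) (fderiv ℝ T z b)
    rw [hder, hder, psi_fderiv_inner hv₁ hA₁] at h6
    field_simp at h6 ⊢
    linarith
  rw [abs_det_of_inner _ _ hin, heq z hz, abs_of_pos (by positivity),
    ← ENNReal.ofReal_mul (by positivity)]
  congr 1
  field_simp
  exact mul_comm _ _

/-- The Riemannian volume measure of `SG c` (computed in the chart at `x₀`). -/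
def volG (x₀ : SG c) : Measure (SG c) :=
  Measure.map (chartAt R2 x₀).symm (volume.withDensity (dens c x₀))

lemma volG_apply (x₀ : SG c) {A : Set (SG c)} (hA : MeasurableSet A) :
    volG c x₀ A = ∫⁻ y in (chartAt R2 x₀).symm ⁻¹' A, dens c x₀ y := by
  have hm : Measurable (chartAt R2 x₀).symm := (continuous_chart_symm c x₀).measurable
  unfold volG
  rw [Measure.map_apply hm hA, withDensity_apply _ (hm hA)]

lemma chart_image {x₁ : SG c} {A : Set (SG c)} (h : A ⊆ (chartAt R2 x₁).source) :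
    (chartAt R2 x₁) '' A = (chartAt R2 x₁).symm ⁻¹' A := by
  ext y
  constructor
  · rintro ⟨x, hx, rfl⟩
    show (chartAt R2 x₁).symm (chartAt R2 x₁ x) ∈ A
    rw [(chartAt R2 x₁).left_inv (h hx)]
    exact hx
  · intro hy
    exact ⟨_, hy, (chartAt R2 x₁).right_inv (by rw [chart_target]; trivial)⟩

theorem isRiemannianVolume_volG (x₀ : SG c) : IsRiemannianVolume 2 (SG c) (volG c x₀) := by
  intro x₁ A hA hsub
  rw [volG_apply c x₀ hA, chart_image c hsub]
  show _ = ∫⁻ y in (chartAt R2 x₁).symm ⁻¹' A, dens c x₁ y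
  set ψ₀ := (chartAt R2 x₀).symm with hψ₀
  set ψ₁ := (chartAt R2 x₁).symm with hψ₁
  have hm₁ : Measurable ψ₁ := (continuous_chart_symm c x₁).measurable
  set T : R2 → R2 := fun z : R2 => chartAt R2 x₀ (ψ₁ z) with hT
  set B' : Set R2 := ψ₁ ⁻¹' A ∩ {z | ψ₁ z ∈ (chartAt R2 x₀).source} with hB'
  have hopen : IsOpen {z : R2 | ψ₁ z ∈ (chartAt R2 x₀).source} :=
    (chartAt R2 x₀).open_source.preimage (continuous_chart_symm c x₁)
  have hB'm : MeasurableSet B' := (hm₁ hA).inter hopen.measurableSet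
  have himg : ψ₀ ⁻¹' A = T '' B' := by
    ext y
    constructor
    · intro hy
      have hy' : ψ₀ y ∈ A := hy
      have h1 : ψ₁ (chartAt R2 x₁ (ψ₀ y)) = ψ₀ y := (chartAt R2 x₁).left_inv (hsub hy')
      have h2 : ψ₀ y ∈ (chartAt R2 x₀).source :=
        (chartAt R2 x₀).map_target (by rw [chart_target]; trivial)
      refine ⟨chartAt R2 x₁ (ψ₀ y), ⟨?_, ?_⟩, ?_⟩
      · show ψ₁ _ ∈ A
        rw [h1]; exact hy'
      · show ψ₁ _ ∈ (chartAt R2 x₀).source
        rw [h1]; exact h2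
      · show chartAt R2 x₀ (ψ₁ _) = y
        rw [h1]
        exact (chartAt R2 x₀).right_inv (by rw [chart_target]; trivial)
    · rintro ⟨z, ⟨hz1, hz2⟩, rfl⟩
      show ψ₀ (chartAt R2 x₀ (ψ₁ z)) ∈ A
      have : ψ₀ (chartAt R2 x₀ (ψ₁ z)) = ψ₁ z := (chartAt R2 x₀).left_inv hz2
      rw [this]; exact hz1
  have hinj : InjOn T B' := by
    intro a ha b hb hab
    have h1 : ψ₁ a = ψ₁ b := (chartAt R2 x₀).injOn ha.2 hb.2 hab
    have h2 := congrArg (chartAt R2 x₁) h1
    rwa [(chartAt R2 x₁).right_inv (by rw [chart_target]; trivial),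
      (chartAt R2 x₁).right_inv (by rw [chart_target]; trivial)] at h2
  have hder : ∀ z ∈ B', HasFDerivWithinAt T (fderiv ℝ T z) B' z := fun z hz =>
    (transition c x₀ x₁ hz.2).1.hasFDerivAt.hasFDerivWithinAt
  rw [himg, lintegral_image_eq_lintegral_abs_det_fderiv_mul volume hB'm hder hinj]
  have h1 : ∫⁻ z in B', ENNReal.ofReal |(fderiv ℝ T z).det| * dens c x₀ (T z) =
      ∫⁻ z in B', dens c x₁ z :=
    setLIntegral_congr_fun hB'm (fun z hz => (transition c x₀ x₁ hz.2).2)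
  rw [h1]
  -- the two domains differ by a null set
  apply setLIntegral_congr
  have hsubs : ψ₁ ⁻¹' A \ B' ⊆ {z | ψ₁ z = (-x₀.toS2 : S2)} := by
    intro z hz
    by_contra hne
    apply hz.2
    refine ⟨hz.1, ?_⟩
    show ψ₁ z ∈ (chartAt R2 x₀).source
    rw [chart_source]
    exact hne
  have hsing : ({z | ψ₁ z = (-x₀.toS2 : S2)} : Set R2).Subsingleton := by
    intro a ha b hb
    have h1 : ψ₁ a = ψ₁ b := ha.trans hb.symm
    have h2 := congrArg (chartAt R2 x₁) h1
    rwa [(chartAt R2 x₁).right_inv (by rw [chart_target]; trivial),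
      (chartAt R2 x₁).right_inv (by rw [chart_target]; trivial)] at h2
  have hnull : volume (ψ₁ ⁻¹' A \ B') = 0 :=
    measure_mono_null hsubs (hsing.measure_zero volume)
  have hle : B' ≤ᵐ[volume] ψ₁ ⁻¹' A := Filter.Eventually.of_forall (fun z hz => hz.1)
  exact hle.antisymm (ae_le_set.2 hnull)

end

end Pool.Agent.H82
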