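import Mathlib
import Pool.Agent.H82.Refl
import Pool.Agent.H82.Volume

open scoped Manifold ContDiff Topology ENNReal NNReal Bundle
open MeasureTheory Bundle Set Metric

noncomputable section
namespace Pool.Agent.H82

lemma volume_annulus_le {a b : ℝ} (ha : 0 ≤ a) (hab : a ≤ b) :
    volume {y : R2 | a ≤ ‖y‖ ^ 2 ∧ ‖y‖ ^ 2 ≤ b} ≤ ENNReal.ofReal (Real.pi * (b - a)) := by
  have h1 : {y : R2 | a ≤ ‖y‖ ^ 2 ∧ ‖y‖ ^ 2 ≤ b} ⊆
      closedBall (0 : R2) (Real.sqrt b) \ ball (0 : R2) (Real.sqrt a) := by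
    rintro y ⟨h1, h2⟩
    constructor
    · rw [mem_closedBall_zero_iff]
      exact Real.le_sqrt_of_sq_le h2
    · rw [mem_ball_zero_iff, not_lt]
      exact (Real.sqrt_le_left (norm_nonneg _)).2 h1
  have h2 : ball (0 : R2) (Real.sqrt a) ⊆ closedBall (0 : R2) (Real.sqrt b) :=
    (ball_subset_ball (Real.sqrt_le_sqrt hab)).trans ball_subset_closedBall
  refine (measure_mono h1).trans ?_
  rw [measure_sdiff h2 measurableSet_ball.nullMeasurableSet (by
      rw [EuclideanSpace.volume_ball_fin_two]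
      exact ENNReal.mul_ne_top (by simp) (by simp)),
    EuclideanSpace.volume_ball_fin_two, EuclideanSpace.volume_closedBall_fin_two,
    ← ENNReal.ofReal_pow (Real.sqrt_nonneg _), ← ENNReal.ofReal_pow (Real.sqrt_nonneg _),
    Real.sq_sqrt (ha.trans hab), Real.sq_sqrt ha, ← ENNReal.ofReal_mul (ha.trans hab),
    ← ENNReal.ofReal_mul ha, ← ENNReal.ofReal_sub _ (by positivity)]
  apply ENNReal.ofReal_le_ofReal
  apply le_of_eq; ring

section
variable {κ s : ℝ} {m : ℕ}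

lemma cf_le_one (hκ : 0 ≤ κ) (hs : 0 < s) (X : E3) : (cf κ hs m).F X ≤ 1 := by
  have h := sqrt_cf_le_one hκ hs m X
  have h2 := Real.sq_sqrt ((cf κ hs m).pos X).le
  have h3 := Real.sqrt_nonneg ((cf κ hs m).F X)
  nlinarith

lemma le_cf (hκ : 0 ≤ κ) (hs : 0 < s) (hs1 : s ≤ 1) {X : E3} (hX : ‖X‖ = 1) :
    Real.exp (-(4 * κ)) ≤ (cf κ hs m).F X := by
  have h := le_sqrt_cf hκ hs hs1 m hX
  have h2 := Real.sq_sqrt ((cf κ hs m).pos X).le
  have h3 : Real.exp (-(4 * κ)) = Real.exp (-(2 * κ)) ^ 2 := by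
    rw [← Real.exp_nat_mul]; congr 1; push_cast; ring
  have h4 := Real.exp_pos (-(2 * κ))
  rw [h3, ← h2]
  gcongr

end

section
variable {c : Conf}

lemma dens_le_one (hc : ∀ X, c.F X ≤ 1) (x₀ : SG c) (y : R2) :
    dens c x₀ y ≤ 1 := by
  obtain ⟨A, v, hv, -, hA, hψ, hG⟩ := metricCoeff_eq c x₀
  rw [dens_eq _ hG, ← ENNReal.ofReal_one]
  apply ENNReal.ofReal_le_ofReal
  have h1 := hc (psi A v y)
  have h2 : (0:ℝ) ≤ ‖y‖ ^ 2 := by positivity
  have h3 : 16 / (‖y‖ ^ 2 + 4) ^ 2 ≤ 1 := by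
    rw [div_le_one (by positivity)]; nlinarith
  calc c.F (psi A v y) * (16 / (‖y‖ ^ 2 + 4) ^ 2) ≤ 1 * 1 := by
        apply mul_le_mul h1 h3 (by positivity) (by norm_num)
    _ = 1 := by norm_num

lemma norm_val (x : SG c) : ‖x.val‖ = 1 := norm_S2 x.toS2

lemma continuous_val : Continuous (SG.val (c := c)) := continuous_subtype_val

lemma measurable_val : Measurable (SG.val (c := c)) := continuous_val.measurable

/-- a thin band around a great circle has small volume -/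
lemma band_le (hc : ∀ X, c.F X ≤ 1) (x₀ : SG c) {ν : E3} (hν : ‖ν‖ = 1) {ρ : ℝ}
    (hρ : 0 ≤ ρ) (hρ1 : ρ ≤ 1 / 2) :
    volG c x₀ {x | |inner ℝ x.val ν| ≤ ρ} ≤ ENNReal.ofReal (70 * ρ) := by
  set B : Set (SG c) := {x | |inner ℝ x.val ν| ≤ ρ} with hB
  let νS : S2 := ⟨ν, by simp [hν]⟩
  let x₁ : SG c := νS
  have hx₁ : x₁.val = ν := rfl
  have hBm : MeasurableSet B := by
    have h1 : Measurable (fun x : SG c => |inner ℝ x.val ν|) :=
      ((continuous_val.inner continuous_const).abs).measurable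
    exact measurableSet_le h1 measurable_const
  have hsub : B ⊆ (chartAt R2 x₁).source := by
    intro x hx
    rw [chart_source]
    intro hx'
    have h1 : x.val = -ν := by
      have : x.toS2 = -x₁.toS2 := hx'
      have h2 := congrArg (Subtype.val) this
      exact h2
    have h2 : |inner ℝ x.val ν| ≤ ρ := hx
    rw [h1, inner_neg_left, real_inner_self_eq_norm_sq, hν] at h2
    norm_num at h2
    linarith
  obtain ⟨A, v, hv, hvx, hA, hψ, hG⟩ := metricCoeff_eq c x₁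
  rw [isRiemannianVolume_volG c x₀ x₁ B hBm hsub]
  have hle : ∀ y ∈ (chartAt R2 x₁) '' B, 4 * (1 - ρ) / (1 + ρ) ≤ ‖y‖ ^ 2 ∧
      ‖y‖ ^ 2 ≤ 4 * (1 + ρ) / (1 - ρ) := by
    intro y hy
    rw [chart_image c hsub] at hy
    have h1 : |inner ℝ (SG.val (c := c) ((chartAt R2 x₁).symm y)) ν| ≤ ρ := hy
    rw [hψ] at h1
    have hνv : ν = -v := by rw [hvx, hx₁]; simp
    have hN : 0 < ‖y‖ ^ 2 + 4 := by positivity
    have h2 : inner ℝ (psi A v y) ν = 8 / (‖y‖ ^ 2 + 4) - 1 := by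
      rw [hνv, inner_neg_right]
      unfold psi
      rw [inner_add_left, inner_smul_left, inner_sub_left, inner_smul_left, inner_smul_left, hA,
        real_inner_self_eq_norm_sq, hv]
      simp
      field_simp
      ring
    rw [h2, abs_le] at h1
    obtain ⟨h3, h4⟩ := h1
    have h5 : (1 - ρ) * (‖y‖ ^ 2 + 4) ≤ 8 := by
      have : 1 - ρ ≤ 8 / (‖y‖ ^ 2 + 4) := by linarith
      rwa [le_div_iff₀ hN] at this
    have h6 : 8 ≤ (1 + ρ) * (‖y‖ ^ 2 + 4) := by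
      have : 8 / (‖y‖ ^ 2 + 4) ≤ 1 + ρ := by linarith
      rwa [div_le_iff₀ hN] at this
    constructor
    · rw [div_le_iff₀ (by linarith)]; linarith
    · rw [le_div_iff₀ (by linarith)]; linarith
  have h7 : ∫⁻ y in (chartAt R2 x₁) '' B, dens c x₁ y ≤
      ∫⁻ y in (chartAt R2 x₁) '' B, 1 :=
    lintegral_mono (fun y => dens_le_one hc x₁ y)
  refine h7.trans ?_
  rw [setLIntegral_one]
  have h8 : volume ((chartAt R2 x₁) '' B) ≤
      volume {y : R2 | 4 * (1 - ρ) / (1 + ρ) ≤ ‖y‖ ^ 2 ∧ ‖y‖ ^ 2 ≤ 4 * (1 + ρ) / (1 - ρ)} :=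
    measure_mono hle
  have h9 : 4 * (1 - ρ) / (1 + ρ) ≤ 4 * (1 + ρ) / (1 - ρ) := by
    rw [div_le_div_iff₀ (by linarith) (by linarith)]
    nlinarith
  refine h8.trans ((volume_annulus_le (by
    apply div_nonneg <;> linarith) h9).trans ?_)
  apply ENNReal.ofReal_le_ofReal
  have h10 : 4 * (1 + ρ) / (1 - ρ) - 4 * (1 - ρ) / (1 + ρ) ≤ 64 / 3 * ρ := by
    have h11 : 4 * (1 + ρ) / (1 - ρ) - 4 * (1 - ρ) / (1 + ρ) = 16 * ρ / ((1 - ρ) * (1 + ρ)) := by
      have : 1 - ρ ≠ 0 := by linarith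
      have : 1 + ρ ≠ 0 := by linarith
      field_simp
      ring
    rw [h11, div_le_iff₀ (by nlinarith)]
    nlinarith [mul_nonneg hρ hρ, mul_nonneg (mul_nonneg hρ hρ) hρ, mul_nonneg hρ (sub_nonneg.2 hρ1),
      mul_nonneg (mul_nonneg hρ hρ) (sub_nonneg.2 hρ1)]
  have h12 := Real.pi_lt_d2
  have h13 := Real.pi_pos
  calc Real.pi * (4 * (1 + ρ) / (1 - ρ) - 4 * (1 - ρ) / (1 + ρ)) ≤ Real.pi * (64 / 3 * ρ) := by
        gcongr
    _ ≤ 3.15 * (64 / 3 * ρ) := by gcongr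
    _ ≤ 70 * ρ := by nlinarith

/-- the total volume is at least `1` -/
lemma one_le_vol (hc : ∀ X : E3, ‖X‖ = 1 → 1 / 2 ≤ c.F X)
    (x₀ : SG c) : 1 ≤ volG c x₀ univ := by
  obtain ⟨A, v, hv, -, hA, hψ, hG⟩ := metricCoeff_eq c x₀
  rw [volG_apply c x₀ MeasurableSet.univ, preimage_univ]
  have hball : ∀ y ∈ ball (0 : R2) 1, ENNReal.ofReal (8 / 25) ≤ dens c x₀ y := by
    intro y hy
    rw [dens_eq _ hG]
    apply ENNReal.ofReal_le_ofReal
    have hn : ‖psi A v y‖ = 1 := by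
      rw [← hψ]; exact norm_val _
    have h1 := hc _ hn
    have h3 : ‖y‖ < 1 := by simpa using hy
    have h4 : (16:ℝ) / 25 ≤ 16 / (‖y‖ ^ 2 + 4) ^ 2 := by
      apply div_le_div_of_nonneg_left (by norm_num) (by positivity)
      have : ‖y‖ ^ 2 ≤ 1 := by nlinarith [norm_nonneg y]
      have h5 : 0 ≤ ‖y‖ ^ 2 := by positivity
      nlinarith
    calc (8:ℝ) / 25 = 1 / 2 * (16 / 25) := by norm_num
      _ ≤ c.F (psi A v y) * (16 / (‖y‖ ^ 2 + 4) ^ 2) :=
        mul_le_mul h1 h4 (by norm_num) (c.pos _).le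
  calc (1 : ℝ≥0∞) ≤ ENNReal.ofReal (8 / 25) * volume (ball (0 : R2) 1) := by
        rw [EuclideanSpace.volume_ball_fin_two, ENNReal.ofReal_one, one_pow, one_mul,
          ← ENNReal.ofReal_mul (by norm_num), ← ENNReal.ofReal_one]
        apply ENNReal.ofReal_le_ofReal
        have := Real.pi_gt_d2
        norm_num at this ⊢
        linarith
    _ = ∫⁻ y in ball (0 : R2) 1, ENNReal.ofReal (8 / 25) := by
        rw [setLIntegral_const]
    _ ≤ ∫⁻ y in ball (0 : R2) 1, dens c x₀ y :=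
        setLIntegral_mono' measurableSet_ball hball
    _ ≤ ∫⁻ y in univ, dens c x₀ y := lintegral_mono_set (subset_univ _)

/-- the total volume is finite -/
lemma vol_lt_top (hc : ∀ X, c.F X ≤ 1) (x₀ : SG c) :
    volG c x₀ univ < ⊤ := by
  refine isCompact_univ.measure_lt_top_of_nhdsWithin (fun x₁ _ => ?_)
  set U : Set (SG c) := (chartAt R2 x₁).source ∩ (chartAt R2 x₁) ⁻¹' (ball (chartAt R2 x₁ x₁) 1)
    with hU
  have hUo : IsOpen U := (chartAt R2 x₁).continuousOn.isOpen_inter_preimage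
    (chartAt R2 x₁).open_source isOpen_ball
  have hx₁ : x₁ ∈ U := ⟨mem_chart_source R2 x₁, mem_ball_self one_pos⟩
  refine ⟨U, mem_nhdsWithin_of_mem_nhds (hUo.mem_nhds hx₁), ?_⟩
  rw [isRiemannianVolume_volG c x₀ x₁ U hUo.measurableSet inter_subset_left]
  have h7 : ∫⁻ y in (chartAt R2 x₁) '' U, dens c x₁ y ≤
      ∫⁻ y in (chartAt R2 x₁) '' U, 1 :=
    lintegral_mono (fun y => dens_le_one hc x₁ y)
  refine h7.trans_lt ?_
  rw [setLIntegral_one]
  have h8 : (chartAt R2 x₁) '' U ⊆ ball (chartAt R2 x₁ x₁) 1 := by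
    rintro _ ⟨x, hx, rfl⟩
    exact hx.2
  exact (measure_mono h8).trans_lt measure_ball_lt_top

end

end Pool.Agent.H82
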