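import Mathlib
import Pool.Agent.H82.Dist2

open scoped Topology
open Set Metric

noncomputable section
namespace Pool.Agent.H82

lemma inner3 (x y : E3) : inner ℝ x y = x 0 * y 0 + x 1 * y 1 + x 2 * y 2 := by
  rw [PiLp.inner_apply, Fin.sum_univ_three]
  simp [mul_comm]

/-- the cross product -/
def cr (x y : E3) : E3 := !₂[x 1 * y 2 - x 2 * y 1, x 2 * y 0 - x 0 * y 2, x 0 * y 1 - x 1 * y 0]

lemma cr0 (x y : E3) : cr x y 0 = x 1 * y 2 - x 2 * y 1 := rfl
lemma cr1 (x y : E3) : cr x y 1 = x 2 * y 0 - x 0 * y 2 := rfl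
lemma cr2 (x y : E3) : cr x y 2 = x 0 * y 1 - x 1 * y 0 := rfl

/-- the determinant of three vectors -/
def det3 (x y z : E3) : ℝ := inner ℝ (cr x y) z

lemma norm_cr_sq (x y : E3) : ‖cr x y‖ ^ 2 = ‖x‖ ^ 2 * ‖y‖ ^ 2 - inner ℝ x y ^ 2 := by
  rw [← real_inner_self_eq_norm_sq, ← real_inner_self_eq_norm_sq, ← real_inner_self_eq_norm_sq]
  simp only [inner3, cr0, cr1, cr2]
  ring

lemma norm_cr_le (x y : E3) : ‖cr x y‖ ≤ ‖x‖ * ‖y‖ := by
  have h := norm_cr_sq x y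
  have h1 : ‖cr x y‖ ^ 2 ≤ (‖x‖ * ‖y‖) ^ 2 := by nlinarith [sq_nonneg (inner ℝ x y : ℝ)]
  exact (pow_le_pow_iff_left₀ (norm_nonneg _) (by positivity) two_ne_zero).1 h1

lemma gram (x y z : E3) : det3 x y z ^ 2 = ‖x‖ ^ 2 * ‖y‖ ^ 2 * ‖z‖ ^ 2 +
    2 * inner ℝ x y * inner ℝ y z * inner ℝ x z - ‖x‖ ^ 2 * inner ℝ y z ^ 2 -
    ‖y‖ ^ 2 * inner ℝ x z ^ 2 - ‖z‖ ^ 2 * inner ℝ x y ^ 2 := by
  unfold det3
  rw [← real_inner_self_eq_norm_sq, ← real_inner_self_eq_norm_sq, ← real_inner_self_eq_norm_sq]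
  simp only [inner3, cr0, cr1, cr2]
  ring

lemma cr_det (x y z p : E3) :
    det3 x y z • cr x p = det3 x p z • cr x y - det3 x p y • cr x z := by
  ext i
  fin_cases i
  · simp [det3, inner3, cr0, cr1, cr2]; ring
  · simp [det3, inner3, cr0, cr1, cr2]; ring
  · simp [det3, inner3, cr0, cr1, cr2]; ring

lemma det3_mul_le {x y z : E3} (p : E3) (hx : ‖x‖ = 1) (hy : ‖y‖ = 1) (hz : ‖z‖ = 1) :
    |det3 x y z| * ‖cr x p‖ ≤ |det3 x p z| + |det3 x p y| := by
  have h := congrArg norm (cr_det x y z p)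
  rw [norm_smul, Real.norm_eq_abs] at h
  rw [h]
  refine (norm_sub_le _ _).trans ?_
  rw [norm_smul, norm_smul, Real.norm_eq_abs, Real.norm_eq_abs]
  have h1 : ‖cr x y‖ ≤ 1 := by have := norm_cr_le x y; rwa [hx, hy, one_mul] at this
  have h2 : ‖cr x z‖ ≤ 1 := by have := norm_cr_le x z; rwa [hx, hz, one_mul] at this
  have h3 := abs_nonneg (det3 x p z)
  have h4 := abs_nonneg (det3 x p y)
  nlinarith [norm_nonneg (cr x y), norm_nonneg (cr x z)]

lemma det3_sub_le {x z : E3} (p q : E3) (hx : ‖x‖ = 1) (hz : ‖z‖ = 1) :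
    |det3 x p z| ≤ |det3 x q z| + ‖p - q‖ := by
  have h : det3 x p z = det3 x q z + det3 x (p - q) z := by
    simp [det3, inner3, cr0, cr1, cr2]; ring
  have h1 : |det3 x (p - q) z| ≤ ‖p - q‖ := by
    unfold det3
    refine (abs_real_inner_le_norm _ _).trans ?_
    rw [hz, mul_one]
    have := norm_cr_le x (p - q)
    rwa [hx, one_mul] at this
  rw [h]
  exact (abs_add_le _ _).trans (by linarith)

/-- Bessel in the form needed -/
lemma le_norm_cr {x p n : E3} (hx : ‖x‖ = 1) (hp : ‖p‖ = 1) (hn : ‖n‖ = 1)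
    (hpn : inner ℝ p n = 0) : |inner ℝ x n| ≤ ‖cr x p‖ := by
  have h := gram x p n
  rw [hx, hp, hn, hpn] at h
  have h1 := norm_cr_sq x p
  rw [hx, hp] at h1
  have h2 : (inner ℝ x n : ℝ) ^ 2 ≤ ‖cr x p‖ ^ 2 := by
    have := sq_nonneg (det3 x p n)
    rw [h1]
    nlinarith
  rw [← sq_abs] at h2
  exact (pow_le_pow_iff_left₀ (abs_nonneg _) (norm_nonneg _) two_ne_zero).1 h2

/-- three almost collinear points of the sphere are almost coplanar -/
lemma det3_le_of_ang {x p y : E3} (hx : ‖x‖ = 1) (hp : ‖p‖ = 1) (hy : ‖y‖ = 1) {η : ℝ}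
    (h : ang x p + ang p y ≤ ang x y + η) : |det3 x p y| ≤ Real.sqrt (2 * η) := by
  have h1 : ang x y ≤ ang x p + ang p y := InnerProductGeometry.angle_le_angle_add_angle _ _ _
  have hg := gram x p y
  rw [hx, hp, hy] at hg
  have ha := cos_ang hx hp
  have hb := cos_ang hp hy
  have hc := cos_ang hx hy
  set a := ang x p
  set b := ang p y
  set c := ang x y
  rw [← ha, ← hb, ← hc] at hg
  have h2 : det3 x p y ^ 2 = (Real.cos c - Real.cos (a + b)) * (Real.cos (a - b) - Real.cos c) := by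
    rw [hg, Real.cos_add, Real.cos_sub]
    have e1 := Real.sin_sq_add_cos_sq a
    have e2 := Real.sin_sq_add_cos_sq b
    have e3 : Real.sin a ^ 2 = 1 - Real.cos a ^ 2 := by linarith
    have e4 : Real.sin b ^ 2 = 1 - Real.cos b ^ 2 := by linarith
    have e5 : (Real.cos c - (Real.cos a * Real.cos b - Real.sin a * Real.sin b)) *
      (Real.cos a * Real.cos b + Real.sin a * Real.sin b - Real.cos c) =
      Real.sin a ^ 2 * Real.sin b ^ 2 - Real.cos a ^ 2 * Real.cos b ^ 2 +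
      2 * Real.cos a * Real.cos b * Real.cos c - Real.cos c ^ 2 := by ring
    rw [e5, e3, e4]
    ring
  have h3 : |Real.cos c - Real.cos (a + b)| ≤ η := by
    have := Real.abs_cos_sub_cos_le c (a + b)
    refine this.trans ?_
    rw [abs_le]; constructor <;> linarith
  have h4 : |Real.cos (a - b) - Real.cos c| ≤ 2 := by
    have e1 := Real.cos_le_one (a - b)
    have e2 := Real.neg_one_le_cos (a - b)
    have e3 := Real.cos_le_one c
    have e4 := Real.neg_one_le_cos c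
    rw [abs_le]; constructor <;> linarith
  apply Real.le_sqrt_of_sq_le
  rw [sq_abs, h2]
  calc (Real.cos c - Real.cos (a + b)) * (Real.cos (a - b) - Real.cos c) ≤
        |(Real.cos c - Real.cos (a + b)) * (Real.cos (a - b) - Real.cos c)| := le_abs_self _
    _ = |Real.cos c - Real.cos (a + b)| * |Real.cos (a - b) - Real.cos c| := abs_mul _ _
    _ ≤ η * 2 := mul_le_mul h3 h4 (abs_nonneg _) ((abs_nonneg _).trans h3)
    _ = 2 * η := by ring

/-- the volume-free part of the contradiction -/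
lemma final_ineq {x y z p q n : E3} (hx : ‖x‖ = 1) (hy : ‖y‖ = 1) (hz : ‖z‖ = 1) (hp : ‖p‖ = 1)
    (hq : ‖q‖ = 1) (hn : ‖n‖ = 1) (hpn : inner ℝ p n = 0) {ρ ε η : ℝ} (hρ : 0 < ρ)
    (hxn : ρ ≤ |inner ℝ x n|) (hdet : ρ ^ 2 ≤ |det3 x y z|) (hpq : ‖p - q‖ ≤ ε)
    (h1 : ang x p + ang p y ≤ ang x y + η) (h2 : ang x q + ang q z ≤ ang x z + η) :
    ρ ^ 3 ≤ 2 * Real.sqrt (2 * η) + ε := by
  have e1 := det3_mul_le p hx hy hz
  have e2 := det3_le_of_ang hx hp hy h1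
  have e3 := det3_le_of_ang hx hq hz h2
  have e4 := det3_sub_le p q hx hz
  have e5 := le_norm_cr hx hp hn hpn
  calc ρ ^ 3 = ρ ^ 2 * ρ := by ring
    _ ≤ |det3 x y z| * ‖cr x p‖ := mul_le_mul hdet (hxn.trans e5) hρ.le (abs_nonneg _)
    _ ≤ _ := by linarith

end Pool.Agent.H82
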