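import Mathlib
import Pool.Agent.H82.Band
import Pool.Agent.H82.Gram

open scoped Manifold ContDiff Topology ENNReal NNReal Bundle
open MeasureTheory Bundle Set Metric

noncomputable section
namespace Pool.Agent.H82

/-- minimizing geodesics, in terms of `gE` -/
def Geo (c : Conf) (x y : S2) (γ : unitInterval → S2) : Prop :=
  γ 0 = x ∧ γ 1 = y ∧ ∀ s t : unitInterval,
    gE c (γ s) (γ t) = ENNReal.ofReal |(s : ℝ) - t| * gE c x y

/-- geodesic convexity, in terms of `gE` -/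
def Conv (c : Conf) (Γ : Set S2) : Prop :=
  ∀ x ∈ Γ, ∀ y ∈ Γ, ∃ γ, Geo c x y γ ∧ (∀ t, γ t ∈ Γ) ∧ ∀ γ', Geo c x y γ' → γ' = γ

/-- a convex set meets each ridge in a set of small diameter -/
lemma window {κ s : ℝ} (hκ : 0 ≤ κ) (hs : 0 < s) (hs1 : s ≤ 1) {m : ℕ} {θ : ℝ}
    (hθ : Real.sin (m * θ) = 0) {ε : ℝ}
    (hR : ∀ x y : S2, inner ℝ (x : E3) (nrm θ) = 0 → inner ℝ (y : E3) (nrm θ) = 0 →
      ε ≤ ‖(x : E3) - y‖ → gE (cf κ hs m) x y < ENNReal.ofReal (Real.exp (-(κ * s)) * ang x y))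
    {Γ : Set S2} (hΓ : Conv (cf κ hs m) Γ) {p q : S2} (hp : p ∈ Γ) (hq : q ∈ Γ)
    (hpn : inner ℝ (p : E3) (nrm θ) = 0) (hqn : inner ℝ (q : E3) (nrm θ) = 0) :
    ‖(p : E3) - q‖ < ε := by
  by_contra hcon
  rw [not_lt] at hcon
  have hlt := hR p q hpn hqn hcon
  obtain ⟨γ, ⟨h0, h1, hg⟩, -, huniq⟩ := hΓ p hp q hq
  have hrp : reflS θ p = p := Subtype.ext (refl_of_mem hpn)
  have hrq : reflS θ q = q := Subtype.ext (refl_of_mem hqn)
  have hγ' := huniq (fun t => reflS θ (γ t)) ⟨by simp only [h0, hrp], by simp only [h1, hrq],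
    fun a b => by rw [gE_reflS κ hs hθ]; exact hg a b⟩
  have hfix : ∀ t, inner ℝ (γ t : E3) (nrm θ) = 0 := fun t => by
    apply refl_fixed
    have := congrFun hγ' t
    exact congrArg Subtype.val this
  set D := (gE (cf κ hs m) p q).toReal with hD
  have hfin : gE (cf κ hs m) p q ≠ ⊤ := ne_top_of_lt hlt
  have hDe : gE (cf κ hs m) p q = ENNReal.ofReal D := (ENNReal.ofReal_toReal hfin).symm
  have hD0 : 0 ≤ D := ENNReal.toReal_nonneg
  have h := ridge_lower hκ hs hs1 hθ (g := fun a => γ (projIcc 0 1 zero_le_one a)) hD0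
    (fun a ha b hb => by
      rw [hg, hDe, ← ENNReal.ofReal_mul (abs_nonneg _), projIcc_of_mem _ ha, projIcc_of_mem _ hb])
    (fun a _ => hfix _)
  have e0 : γ (projIcc (0:ℝ) 1 zero_le_one 0) = p := by
    rw [projIcc_of_le_left _ le_rfl]; exact h0
  have e1 : γ (projIcc (0:ℝ) 1 zero_le_one 1) = q := by
    rw [projIcc_of_right_le _ le_rfl]; exact h1
  simp only [e0, e1] at h
  rw [hDe] at hlt
  have := (ENNReal.ofReal_lt_ofReal_iff_of_nonneg hD0).1 hlt
  linarith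

/-- minimizing geodesics joining the two sides of a great circle cross it and are almost
great circles -/
lemma crossing {c : Conf} {K : ℝ} (hK : 0 < K) (hKc : ∀ X : E3, ‖X‖ = 1 → K ≤ Real.sqrt (c.F X))
    (hc1 : ∀ X : E3, ‖X‖ = 1 → Real.sqrt (c.F X) ≤ 1)
    {η : ℝ} (hη : Real.pi * (1 - K) ≤ K * η)
    {Γ : Set S2} (hΓ : Conv c Γ) {x y : S2} (hx : x ∈ Γ) (hy : y ∈ Γ) {n : E3}
    (hxn : 0 ≤ inner ℝ (x : E3) n) (hyn : inner ℝ (y : E3) n ≤ 0) :
    ∃ p ∈ Γ, inner ℝ (p : E3) n = 0 ∧ ang x p + ang p y ≤ ang x y + η := by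
  obtain ⟨γ, ⟨h0, h1, hg⟩, hin, -⟩ := hΓ x hx y hy
  have hup := gE_le c zero_le_one hc1 x y
  rw [one_mul] at hup
  have hK1 : K ≤ 1 := (hKc x (norm_S2 x)).trans (hc1 x (norm_S2 x))
  set D := (gE c x y).toReal with hD
  have hfin : gE c x y ≠ ⊤ := ne_top_of_le_ne_top ENNReal.ofReal_ne_top hup
  have hDe : gE c x y = ENNReal.ofReal D := (ENNReal.ofReal_toReal hfin).symm
  have hD0 : 0 ≤ D := ENNReal.toReal_nonneg
  have hang0 : 0 ≤ ang x y := InnerProductGeometry.angle_nonneg _ _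
  have hang1 : ang x y ≤ Real.pi := InnerProductGeometry.angle_le_pi _ _
  have hDa : D ≤ ang x y := by
    rw [hDe] at hup
    exact (ENNReal.ofReal_le_ofReal_iff hang0).1 hup
  have hlow : ∀ a b : unitInterval, K * ang (γ a) (γ b) ≤ |(a : ℝ) - b| * D := by
    intro a b
    have h2 := le_gE c hK.le hKc (γ a) (γ b)
    rw [hg, hDe, ← ENNReal.ofReal_mul (abs_nonneg _)] at h2
    exact (ENNReal.ofReal_le_ofReal_iff (by positivity)).1 h2
  have hcont : Continuous (fun t : unitInterval => (γ t : E3)) := by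
    have hL : LipschitzWith (Real.toNNReal (D / K)) (fun t : unitInterval => (γ t : E3)) := by
      apply LipschitzWith.of_dist_le_mul
      intro a b
      rw [Real.coe_toNNReal _ (by positivity), dist_eq_norm, Subtype.dist_eq, Real.dist_eq]
      have h2 := dist_le_ang (norm_S2 (γ a)) (norm_S2 (γ b))
      have h3 := hlow a b
      rw [div_mul_eq_mul_div, le_div_iff₀ hK]
      nlinarith
    exact hL.continuous
  obtain ⟨t, ht⟩ := mem_range_of_exists_le_of_exists_ge (c := (0:ℝ))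
    (f := fun t : unitInterval => inner ℝ (γ t : E3) n) (hcont.inner continuous_const)
    ⟨1, by simpa only [h1] using hyn⟩ ⟨0, by simpa only [h0] using hxn⟩
  refine ⟨γ t, hin t, ht, ?_⟩
  have ha := hlow 0 t
  have hb := hlow t 1
  rw [h0] at ha
  rw [h1] at hb
  have ht0 : |((0 : unitInterval) : ℝ) - t| = t := by
    rw [Set.Icc.coe_zero, zero_sub, abs_neg, abs_of_nonneg t.2.1]
  have ht1 : |(t : ℝ) - (1 : unitInterval)| = 1 - t := by
    rw [Set.Icc.coe_one, abs_sub_comm, abs_of_nonneg (by linarith [t.2.2])]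
  rw [ht0] at ha
  rw [ht1] at hb
  have h5 : K * (ang x (γ t) + ang (γ t) y) ≤ ang x y := by
    calc K * (ang x (γ t) + ang (γ t) y) ≤ t * D + (1 - t) * D := by rw [mul_add]; linarith
      _ = D := by ring
      _ ≤ _ := hDa
  have h6 : ang x y ≤ K * (ang x y + η) := by
    have : ang x y * (1 - K) ≤ Real.pi * (1 - K) := by
      apply mul_le_mul_of_nonneg_right hang1; linarith
    linarith
  exact le_of_mul_le_mul_left (h5.trans h6) hK

/-- a point of the sphere as a point of `SG c` -/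
def SG.mk (c : Conf) (x : S2) : SG c := x

lemma exists_out {c : Conf} (hc : ∀ X, c.F X ≤ 1) (x₀ : SG c) {A : Set (SG c)} {ρ : ℝ}
    (hρ : 0 ≤ ρ) (hρ1 : ρ ≤ 1 / 2) {c₁ : ℝ≥0∞} (hc₁ : ENNReal.ofReal (70 * ρ) < c₁)
    (h : c₁ ≤ volG c x₀ A) {ν : E3} (hν : ‖ν‖ = 1) : ∃ x ∈ A, ρ < |inner ℝ x.val ν| := by
  by_contra hcon
  push Not at hcon
  have h1 : volG c x₀ A ≤ volG c x₀ {x | |inner ℝ x.val ν| ≤ ρ} := measure_mono hcon
  have h2 := band_le hc x₀ hν hρ hρ1
  exact absurd (h.trans (h1.trans h2)) (not_le.2 hc₁)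

lemma not_fat {κ s : ℝ} (hκ : 0 ≤ κ) (hs : 0 < s) (hs1 : s ≤ 1) {m : ℕ} {θ : ℝ}
    (hθ : Real.sin (m * θ) = 0) {ε η ρ : ℝ}
    (hR : ∀ x y : S2, inner ℝ (x : E3) (nrm θ) = 0 → inner ℝ (y : E3) (nrm θ) = 0 →
      ε ≤ ‖(x : E3) - y‖ → gE (cf κ hs m) x y < ENNReal.ofReal (Real.exp (-(κ * s)) * ang x y))
    (hη : Real.pi * (1 - Real.exp (-(2 * κ))) ≤ Real.exp (-(2 * κ)) * η)
    (hρ : 0 < ρ) (hρ1 : ρ ≤ 1 / 2) (hlt : 2 * Real.sqrt (2 * η) + ε < ρ ^ 3)
    (x₀ : SG (cf κ hs m)) {Γ : Set (SG (cf κ hs m))}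
    (hΓ : Conv (cf κ hs m) {x : S2 | SG.mk _ x ∈ Γ})
    {c₁ : ℝ≥0∞} (hc₁ : ENNReal.ofReal (70 * ρ) < c₁)
    (h1 : c₁ ≤ volG (cf κ hs m) x₀ (Γ ∩ {x | 0 < inner ℝ x.val (nrm θ)}))
    (h2 : c₁ ≤ volG (cf κ hs m) x₀ (Γ ∩ {x | inner ℝ x.val (nrm θ) < 0})) : False := by
  have hF1 : ∀ X, (cf κ hs m).F X ≤ 1 := cf_le_one hκ hs
  have hsq1 : ∀ X : E3, ‖X‖ = 1 → Real.sqrt ((cf κ hs m).F X) ≤ 1 :=
    fun X _ => sqrt_cf_le_one hκ hs m X
  have hsq2 : ∀ X : E3, ‖X‖ = 1 → Real.exp (-(2 * κ)) ≤ Real.sqrt ((cf κ hs m).F X) :=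
    fun X hX => le_sqrt_cf hκ hs hs1 m hX
  -- the point `x`
  obtain ⟨x, ⟨hxΓ, hxn⟩, hxρ⟩ := exists_out hF1 x₀ hρ.le hρ1 hc₁ h1 (nrm_norm θ)
  have hxn' : 0 < inner ℝ x.val (nrm θ) := hxn
  -- the point `y`
  obtain ⟨ν, hν, hxν⟩ := exists_unit_orth x.val
  obtain ⟨y, ⟨hyΓ, hyn⟩, hyρ⟩ := exists_out hF1 x₀ hρ.le hρ1 hc₁ h2 hν
  have hyn' : inner ℝ y.val (nrm θ) < 0 := hyn
  have hxy : ρ ≤ ‖cr x.val y.val‖ := by
    have hn : ‖cr x.val y.val‖ = ‖cr y.val x.val‖ := by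
      have e1 := norm_cr_sq x.val y.val
      have e2 := norm_cr_sq y.val x.val
      rw [real_inner_comm] at e2
      have e3 : ‖cr x.val y.val‖ ^ 2 = ‖cr y.val x.val‖ ^ 2 := by rw [e1, e2]; ring
      exact (pow_left_inj₀ (norm_nonneg _) (norm_nonneg _) two_ne_zero).1 e3
    rw [hn]
    exact hyρ.le.trans (le_norm_cr (norm_val y) (norm_val x) hν hxν)
  -- the point `z`
  have hcr0 : 0 < ‖cr x.val y.val‖ := hρ.trans_le hxy
  have hμ : ‖(‖cr x.val y.val‖)⁻¹ • cr x.val y.val‖ = 1 := by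
    rw [norm_smul, norm_inv, norm_norm, inv_mul_cancel₀ hcr0.ne']
  obtain ⟨z, ⟨hzΓ, hzn⟩, hzρ⟩ := exists_out hF1 x₀ hρ.le hρ1 hc₁ h2 hμ
  have hzn' : inner ℝ z.val (nrm θ) < 0 := hzn
  have hdet : ρ ^ 2 ≤ |det3 x.val y.val z.val| := by
    have e1 : det3 x.val y.val z.val =
        ‖cr x.val y.val‖ * inner ℝ z.val ((‖cr x.val y.val‖)⁻¹ • cr x.val y.val) := by
      rw [inner_smul_right, real_inner_comm]
      unfold det3
      field_simp
    rw [e1, abs_mul, abs_norm, pow_two]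
    exact mul_le_mul hxy hzρ.le hρ.le hcr0.le
  -- crossing points
  obtain ⟨p, hpΓ, hpn, hp⟩ := crossing (Real.exp_pos _) hsq2 hsq1 hη hΓ (x := x.toS2) (y := y.toS2)
    hxΓ hyΓ (n := nrm θ) hxn'.le hyn'.le
  obtain ⟨q, hqΓ, hqn, hq⟩ := crossing (Real.exp_pos _) hsq2 hsq1 hη hΓ (x := x.toS2) (y := z.toS2)
    hxΓ hzΓ (n := nrm θ) hxn'.le hzn'.le
  have hpq := window hκ hs hs1 hθ hR hΓ hpΓ hqΓ hpn hqn
  have := final_ineq (norm_val x) (norm_val y) (norm_val z) (norm_S2 p) (norm_S2 q) (nrm_norm θ)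
    hpn hρ hxρ.le hdet hpq.le hp hq
  linarith

lemma nrm_sub_le (a b : ℝ) : ‖nrm a - nrm b‖ ≤ |a - b| := by
  have h1 : ‖nrm a - nrm b‖ ^ 2 ≤ |a - b| ^ 2 := by
    rw [EuclideanSpace.norm_sq_eq, Fin.sum_univ_three]
    simp only [Real.norm_eq_abs, sq_abs]
    simp only [nrm, PiLp.sub_apply]
    simp
    have h2 := Real.one_sub_sq_div_two_le_cos (x := a - b)
    rw [Real.cos_sub] at h2
    nlinarith [Real.sin_sq_add_cos_sq a, Real.sin_sq_add_cos_sq b]
  exact (pow_le_pow_iff_left₀ (norm_nonneg _) (abs_nonneg _) two_ne_zero).1 h1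

lemma nrm_pi : nrm Real.pi = -nrm 0 := by
  ext i
  fin_cases i <;> simp [nrm]

/-- if `Γ` has a thin side with respect to each ridge then it has small volume -/
lemma pigeon {c : Conf} (hc : ∀ X, c.F X ≤ 1) (x₀ : SG c) {Γ : Set (SG c)} {m : ℕ}
    (hm : 2 * Real.pi ≤ m) {c₁ : ℝ≥0∞}
    (h : ∀ j : ℕ, j < m →
      volG c x₀ (Γ ∩ {x | 0 < inner ℝ x.val (nrm (Real.pi * j / m))}) < c₁ ∨
      volG c x₀ (Γ ∩ {x | inner ℝ x.val (nrm (Real.pi * j / m)) < 0}) < c₁) :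
    volG c x₀ Γ ≤ c₁ + c₁ + ENNReal.ofReal (70 * (Real.pi / m)) := by
  have hpi := Real.pi_pos
  have hm0 : (0 : ℝ) < m := by linarith
  have hmn : 0 < m := by exact_mod_cast hm0
  set μ := volG c x₀ with hμ
  set P : ℕ → Prop := fun j => μ (Γ ∩ {x | 0 < inner ℝ x.val (nrm (Real.pi * j / m))}) < c₁ with hP
  set Q : ℕ → Prop := fun j => μ (Γ ∩ {x | inner ℝ x.val (nrm (Real.pi * j / m)) < 0}) < c₁ with hQ
  have hnm : nrm (Real.pi * m / m) = -nrm (Real.pi * (0 : ℕ) / m) := by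
    rw [mul_div_assoc, div_self hm0.ne', mul_one, nrm_pi]; simp
  have hPm : P m ↔ Q 0 := by
    simp only [hP, hQ, hnm, inner_neg_right, neg_pos]
  have hQm : Q m ↔ P 0 := by
    simp only [hP, hQ, hnm, inner_neg_right, neg_lt_zero]
  have hδ : ∀ j : ℕ, ‖nrm (Real.pi * (j + 1 : ℕ) / m) - nrm (Real.pi * j / m)‖ ≤ Real.pi / m := by
    intro j
    refine (nrm_sub_le _ _).trans (le_of_eq ?_)
    have : Real.pi * (j + 1 : ℕ) / m - Real.pi * j / m = Real.pi / m := by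
      push_cast; field_simp; ring
    rw [this, abs_of_pos (by positivity)]
  have hsmall : Real.pi / m ≤ 1 / 2 := by
    rw [div_le_div_iff₀ hm0 (by norm_num)]; linarith
  have hdiff : ∀ (j : ℕ) (x : SG c),
      |inner ℝ x.val (nrm (Real.pi * (j + 1 : ℕ) / m)) - inner ℝ x.val (nrm (Real.pi * j / m))| ≤
        Real.pi / m := by
    intro j x
    rw [← inner_sub_right]
    refine (abs_real_inner_le_norm _ _).trans ?_
    rw [norm_val, one_mul]
    exact hδ j
  -- the two mixed cases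
  have hPQ : ∀ j : ℕ, P j → Q (j + 1) →
      μ Γ ≤ c₁ + c₁ + ENNReal.ofReal (70 * (Real.pi / m)) := by
    intro j h1 h2
    have hsub : Γ ⊆ ((Γ ∩ {x | 0 < inner ℝ x.val (nrm (Real.pi * j / m))}) ∪
        (Γ ∩ {x | inner ℝ x.val (nrm (Real.pi * (j + 1 : ℕ) / m)) < 0})) ∪
        {x | |inner ℝ x.val (nrm (Real.pi * j / m))| ≤ Real.pi / m} := by
      intro x hx
      by_cases e1 : 0 < inner ℝ x.val (nrm (Real.pi * j / m))
      · exact Or.inl (Or.inl ⟨hx, e1⟩)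
      · by_cases e2 : inner ℝ x.val (nrm (Real.pi * (j + 1 : ℕ) / m)) < 0
        · exact Or.inl (Or.inr ⟨hx, e2⟩)
        · right
          have e3 := hdiff j x
          rw [abs_le] at e3
          rw [not_lt] at e1 e2
          show |inner ℝ x.val (nrm (Real.pi * j / m))| ≤ Real.pi / m
          rw [abs_of_nonpos e1]
          linarith
    refine (measure_mono hsub).trans ((measure_union_le _ _).trans ?_)
    refine add_le_add ((measure_union_le _ _).trans (add_le_add h1.le h2.le)) ?_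
    exact band_le hc x₀ (nrm_norm _) (by positivity) hsmall
  have hQP : ∀ j : ℕ, Q j → P (j + 1) →
      μ Γ ≤ c₁ + c₁ + ENNReal.ofReal (70 * (Real.pi / m)) := by
    intro j h1 h2
    have hsub : Γ ⊆ ((Γ ∩ {x | inner ℝ x.val (nrm (Real.pi * j / m)) < 0}) ∪
        (Γ ∩ {x | 0 < inner ℝ x.val (nrm (Real.pi * (j + 1 : ℕ) / m))})) ∪
        {x | |inner ℝ x.val (nrm (Real.pi * j / m))| ≤ Real.pi / m} := by
      intro x hx
      by_cases e1 : inner ℝ x.val (nrm (Real.pi * j / m)) < 0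
      · exact Or.inl (Or.inl ⟨hx, e1⟩)
      · by_cases e2 : 0 < inner ℝ x.val (nrm (Real.pi * (j + 1 : ℕ) / m))
        · exact Or.inl (Or.inr ⟨hx, e2⟩)
        · right
          have e3 := hdiff j x
          rw [abs_le] at e3
          rw [not_lt] at e1 e2
          show |inner ℝ x.val (nrm (Real.pi * j / m))| ≤ Real.pi / m
          rw [abs_of_nonneg e1]
          linarith
    refine (measure_mono hsub).trans ((measure_union_le _ _).trans ?_)
    refine add_le_add ((measure_union_le _ _).trans (add_le_add h1.le h2.le)) ?_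
    exact band_le hc x₀ (nrm_norm _) (by positivity) hsmall
  by_cases hP0 : P 0
  · by_cases hQ0 : Q 0
    · -- both sides thin at `j = 0`
      have hsub : Γ ⊆ ((Γ ∩ {x | 0 < inner ℝ x.val (nrm (Real.pi * (0 : ℕ) / m))}) ∪
          (Γ ∩ {x | inner ℝ x.val (nrm (Real.pi * (0 : ℕ) / m)) < 0})) ∪
          {x | |inner ℝ x.val (nrm (Real.pi * (0 : ℕ) / m))| ≤ Real.pi / m} := by
        intro x hx
        rcases lt_trichotomy (inner ℝ x.val (nrm (Real.pi * (0 : ℕ) / m))) 0 with e | e | e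
        · exact Or.inl (Or.inr ⟨hx, e⟩)
        · right
          show |inner ℝ x.val (nrm (Real.pi * (0 : ℕ) / m))| ≤ Real.pi / m
          rw [e, abs_zero]; positivity
        · exact Or.inl (Or.inl ⟨hx, e⟩)
      refine (measure_mono hsub).trans ((measure_union_le _ _).trans ?_)
      refine add_le_add ((measure_union_le _ _).trans (add_le_add hP0.le hQ0.le)) ?_
      exact band_le hc x₀ (nrm_norm _) (by positivity) hsmall
    · -- `P` must switch
      obtain ⟨j, hj, hPj, hPj1⟩ : ∃ j < m, P j ∧ ¬ P (j + 1) := by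
        by_contra hcon
        push Not at hcon
        have : ∀ j ≤ m, P j := by
          intro j
          induction j with
          | zero => intro _; exact hP0
          | succ j ih => intro hj; exact hcon j (by omega) (ih (by omega))
        exact hQ0 (hPm.1 (this m le_rfl))
      have hQj1 : Q (j + 1) := by
        rcases Nat.lt_or_ge (j + 1) m with e | e
        · exact (h (j + 1) e).resolve_left hPj1
        · have : j + 1 = m := by omega
          rw [this]; exact hQm.2 hP0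
      exact hPQ j hPj hQj1
  · have hQ0 : Q 0 := (h 0 hmn).resolve_left hP0
    obtain ⟨j, hj, hQj, hQj1⟩ : ∃ j < m, Q j ∧ ¬ Q (j + 1) := by
      by_contra hcon
      push Not at hcon
      have : ∀ j ≤ m, Q j := by
        intro j
        induction j with
        | zero => intro _; exact hQ0
        | succ j ih => intro hj; exact hcon j (by omega) (ih (by omega))
      exact hP0 (hQm.1 (this m le_rfl))
    have hPj1 : P (j + 1) := by
      rcases Nat.lt_or_ge (j + 1) m with e | e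
      · exact (h (j + 1) e).resolve_right hQj1
      · have : j + 1 = m := by omega
        rw [this]; exact hPm.2 hQ0
    exact hQP j hQj hPj1

end Pool.Agent.H82
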