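import Mathlib
import Pool.Agent.H82.Fat

open scoped Manifold ContDiff Topology ENNReal NNReal Bundle
open MeasureTheory Bundle Set Metric

noncomputable section
namespace Pool.Agent.H82

theorem exists_small {C : ℝ} (hC : 0 < C) : ∃ (κ s : ℝ) (hs : 0 < s) (m : ℕ), 0 ≤ κ ∧ κ ≤ 1 / 8 ∧
    s ≤ 1 ∧ 1 ≤ m ∧ 2 * κ * m ^ 2 < 1 ∧ ∀ (x₀ : SG (cf κ hs m)) (Γ : Set (SG (cf κ hs m))),
      Conv (cf κ hs m) {x : S2 | SG.mk _ x ∈ Γ} → volG _ x₀ Γ < ENNReal.ofReal C := by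
  have hpi := Real.pi_pos
  have hpi4 := Real.pi_lt_d2
  obtain ⟨m, hm⟩ := exists_nat_gt (max (2 * Real.pi) (140 * Real.pi / C))
  have hm1 : 2 * Real.pi < m := (le_max_left _ _).trans_lt hm
  have hm2 : 140 * Real.pi / C < m := (le_max_right _ _).trans_lt hm
  have hm0 : (0 : ℝ) < m := by linarith
  have hmn : 1 ≤ m := by
    have : 0 < m := by exact_mod_cast hm0
    omega
  have hm3 : 70 * (Real.pi / m) < C / 2 := by
    rw [div_lt_iff₀ hC] at hm2
    rw [← mul_div_assoc, div_lt_iff₀ hm0]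
    linarith
  set ρ := min (1 / 2) (C / 600) with hρdef
  have hρ : 0 < ρ := lt_min (by norm_num) (by positivity)
  have hρ1 : ρ ≤ 1 / 2 := min_le_left _ _
  have hρ2 : ρ ≤ C / 600 := min_le_right _ _
  set η := ρ ^ 6 / 64 with hηdef
  have hη0 : 0 < η := by positivity
  set ε := ρ ^ 3 / 2 with hεdef
  have hε : 0 < ε := by positivity
  have hlt : 2 * Real.sqrt (2 * η) + ε < ρ ^ 3 := by
    have h1 : Real.sqrt (2 * η) < ρ ^ 3 / 4 := by
      rw [Real.sqrt_lt' (by positivity), hηdef]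
      have : 0 < ρ ^ 6 := by positivity
      nlinarith
    rw [hεdef]; linarith
  set κ := min (1 / 8) (min (η / 16) (1 / (4 * (m : ℝ) ^ 2))) with hκdef
  have hκ : 0 < κ := lt_min (by norm_num) (lt_min (by positivity) (by positivity))
  have hκ1 : κ ≤ 1 / 8 := min_le_left _ _
  have hκ2 : κ ≤ η / 16 := (min_le_right _ _).trans (min_le_left _ _)
  have hκ3 : κ ≤ 1 / (4 * (m : ℝ) ^ 2) := (min_le_right _ _).trans (min_le_right _ _)
  have hκm : 2 * κ * m ^ 2 < 1 := by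
    rw [le_div_iff₀ (by positivity)] at hκ3
    linarith
  have hη : Real.pi * (1 - Real.exp (-(2 * κ))) ≤ Real.exp (-(2 * κ)) * η := by
    have h1 := Real.add_one_le_exp (-(2 * κ))
    have h2 : 1 - Real.exp (-(2 * κ)) ≤ 2 * κ := by linarith
    have h3 : 3 / 4 ≤ Real.exp (-(2 * κ)) := by linarith
    calc Real.pi * (1 - Real.exp (-(2 * κ))) ≤ Real.pi * (2 * κ) := by gcongr
      _ ≤ 3.15 * (2 * (η / 16)) := by gcongr
      _ ≤ 3 / 4 * η := by linarith
      _ ≤ _ := by gcongr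
  have hsin : ∀ j : ℕ, Real.sin (m * (Real.pi * j / m)) = 0 := by
    intro j
    have : (m : ℝ) * (Real.pi * j / m) = j * Real.pi := by field_simp
    rw [this]; exact Real.sin_nat_mul_pi j
  -- choice of `s`
  have hev : ∀ᶠ s in 𝓝 (0 : ℝ), ∀ j ∈ Finset.range m, ∀ hs : 0 < s, ∀ x y : S2,
      inner ℝ (x : E3) (nrm (Real.pi * j / m)) = 0 →
      inner ℝ (y : E3) (nrm (Real.pi * j / m)) = 0 → ε ≤ ‖(x : E3) - y‖ →
      gE (cf κ hs m) x y < ENNReal.ofReal (Real.exp (-(κ * s)) * ang x y) := by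
    rw [Filter.eventually_all_finset]
    intro j _
    exact ridge_uniform hκ (by linarith) hmn (hsin j) hε
  have hev1 : ∀ᶠ s in 𝓝 (0 : ℝ), s ≤ 1 := by
    filter_upwards [Iio_mem_nhds (show (0:ℝ) < 1 by norm_num)] with s hs using le_of_lt hs
  have hev2 : ∀ᶠ s in 𝓝[>] (0 : ℝ), (∀ j ∈ Finset.range m, ∀ hs : 0 < s, ∀ x y : S2,
      inner ℝ (x : E3) (nrm (Real.pi * j / m)) = 0 →
      inner ℝ (y : E3) (nrm (Real.pi * j / m)) = 0 → ε ≤ ‖(x : E3) - y‖ →
      gE (cf κ hs m) x y < ENNReal.ofReal (Real.exp (-(κ * s)) * ang x y)) ∧ s ≤ 1 ∧ 0 < s := by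
    filter_upwards [hev.filter_mono nhdsWithin_le_nhds, hev1.filter_mono nhdsWithin_le_nhds,
      self_mem_nhdsWithin] with s h1 h2 h3 using ⟨h1, h2, h3⟩
  obtain ⟨s, hR, hs1, hs⟩ := hev2.exists
  refine ⟨κ, s, hs, m, hκ.le, hκ1, hs1, hmn, hκm, fun x₀ Γ hΓ => ?_⟩
  have hF1 : ∀ X, (cf κ hs m).F X ≤ 1 := cf_le_one hκ.le hs
  have hc₁ : ENNReal.ofReal (70 * ρ) < ENNReal.ofReal (C / 4) := by
    rw [ENNReal.ofReal_lt_ofReal_iff (by positivity)]
    linarith
  have hpig := pigeon hF1 x₀ (Γ := Γ) (m := m) hm1.le (c₁ := ENNReal.ofReal (C / 4)) (by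
    intro j hj
    by_contra hcon
    rw [not_or, not_lt, not_lt] at hcon
    exact not_fat hκ.le hs hs1 (hsin j) (hR j (Finset.mem_range.2 hj) hs) hη hρ hρ1 hlt x₀ hΓ hc₁
      hcon.1 hcon.2)
  refine hpig.trans_lt ?_
  rw [← ENNReal.ofReal_add (by positivity) (by positivity),
    ← ENNReal.ofReal_add (by positivity) (by positivity), ENNReal.ofReal_lt_ofReal_iff hC]
  linarith

instance (c : Conf) : ConnectedSpace (SG c) := by
  have h : IsConnected (sphere (0 : E3) 1) := by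
    apply isConnected_sphere _ _ zero_le_one
    rw [← Module.finrank_eq_rank]
    simp
  exact Subtype.connectedSpace h

instance instCRB (c : Conf) :
    IsContinuousRiemannianBundle R2 (fun x : SG c => TangentSpace (𝓡 2) x) :=
  ⟨(confMetric c.F c.smooth c.pos).inner, (confMetric c.F c.smooth c.pos).contMDiff.continuous,
    fun _ _ _ ↦ rfl⟩

end Pool.Agent.H82
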