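import Mathlib

/-!
# The notions used in the statement of the result on MP_6c73b3_gt
-/

open scoped Manifold ContDiff Topology Bundle
open MeasureTheory Bundle Set

noncomputable section

namespace Pool.Agent.H82.St

/-- A closed (compact, without boundary), connected, smooth Riemannian manifold modelled on `E`,
with its Riemannian distance `edist`. -/
structure ClosedManifold (E : Type) [NormedAddCommGroup E] [NormedSpace ℝ E] where
  /-- the set of points -/
  pts : Type
  /-- the distance (and the topology it defines) -/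
  [emetric : EMetricSpace pts]
  /-- the charts -/
  [charted : ChartedSpace E pts]
  /-- the charts are smoothly compatible -/
  [smooth : IsManifold 𝓘(ℝ, E) ∞ pts]
  /-- the inner products on the tangent spaces -/
  [bundle : RiemannianBundle (fun x : pts => TangentSpace 𝓘(ℝ, E) x)]
  /-- the inner products depend smoothly on the point -/
  [metric : IsContMDiffRiemannianBundle 𝓘(ℝ, E) ∞ E (fun x : pts => TangentSpace 𝓘(ℝ, E) x)]
  /-- the distance is the Riemannian distance -/
  [riem : IsRiemannianManifold 𝓘(ℝ, E) pts]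
  [compact : CompactSpace pts]
  [connected : ConnectedSpace pts]

attribute [instance] ClosedManifold.emetric ClosedManifold.charted ClosedManifold.smooth
  ClosedManifold.bundle

section tangent

variable {E : Type} [NormedAddCommGroup E] [NormedSpace ℝ E]

instance (M : ClosedManifold E) : MeasurableSpace M.pts := borel M.pts

/-- The inverse of the chart at `x₀`. -/
def chartInv (M : ClosedManifold E) (x₀ : M.pts) (y : E) : M.pts := (chartAt E x₀).symm y

/-- The tangent vector with coordinates `v` at the point with coordinates `y` in the chart at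
`x₀`. -/
def tangentVec (M : ClosedManifold E) (x₀ : M.pts) (y v : E) :
    TangentSpace 𝓘(ℝ, E) (chartInv M x₀ y) :=
  mfderiv 𝓘(ℝ, E) 𝓘(ℝ, E) (chartInv M x₀) y v

/-- The inner product of the tangent vectors with coordinates `v` and `w` at the point with
coordinates `y` in the chart at `x₀`. -/
def coordInner (M : ClosedManifold E) (x₀ : M.pts) (v w y : E) : ℝ :=
  inner ℝ (tangentVec M x₀ y v) (tangentVec M x₀ y w)

end tangent

/-- `ℝⁿ` with its Euclidean structure. -/
abbrev Rn (n : ℕ) : Type := EuclideanSpace ℝ (Fin n)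

variable {n : ℕ}

/-- The `k`-th first order derivative `∂ₖ f` of a real function of `n` real variables. -/
def pd (k : Fin n) (f : Rn n → ℝ) (y : Rn n) : ℝ :=
  fderiv ℝ f y (EuclideanSpace.single k 1)

/-- Christoffel symbols `Γᵏᵢⱼ = ½ ∑ₗ Gᵏˡ (∂ᵢ Gⱼₗ + ∂ⱼ Gᵢₗ - ∂ₗ Gᵢⱼ)` of the metric with
coefficients `Gᵢⱼ` in coordinates; `Gᵏˡ` is the inverse matrix. -/
def christoffel (G : Fin n → Fin n → Rn n → ℝ) (k i j : Fin n) (y : Rn n) : ℝ :=
  1 / 2 * ∑ l, (Matrix.of fun a b => G a b y)⁻¹ k l *
    (pd i (G j l) y + pd j (G i l) y - pd l (G i j) y)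

/-- Coefficients of the Ricci tensor in coordinates:
`Rᵢⱼ = ∑ₖ (∂ₖ Γᵏᵢⱼ - ∂ⱼ Γᵏᵢₖ) + ∑ₖₗ (Γᵏₖₗ Γˡᵢⱼ - Γᵏⱼₗ Γˡᵢₖ)`. -/
def ricci (G : Fin n → Fin n → Rn n → ℝ) (i j : Fin n) (y : Rn n) : ℝ :=
  ∑ k, (pd k (christoffel G k i j) y - pd j (christoffel G k i k) y) +
    ∑ k, ∑ l, (christoffel G k k l y * christoffel G l i j y -
      christoffel G k j l y * christoffel G l i k y)

/-- The coefficients `Gᵢⱼ = g(∂ᵢ, ∂ⱼ)` of the Riemannian metric in the chart at `x₀`. -/
def metricCoeff (M : ClosedManifold (Rn n)) (x₀ : M.pts) (i j : Fin n) (y : Rn n) : ℝ :=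
  coordInner M x₀ (EuclideanSpace.single i 1) (EuclideanSpace.single j 1) y

/-- Strictly positive Ricci curvature: in the chart at any point `x₀`, at each point `y` of the
image of the chart, `Ric(v, v) > 0` for each nonzero vector `v = ∑ vᵢ ∂ᵢ`. -/
def StrictlyPositiveRicci (M : ClosedManifold (Rn n)) : Prop :=
  ∀ x₀ : M.pts, ∀ y ∈ (chartAt (Rn n) x₀).target, ∀ v : Fin n → ℝ, v ≠ 0 →
    0 < ∑ i, ∑ j, ricci (metricCoeff M x₀) i j y * v i * v j

/-- `μ` is the Riemannian volume measure: in each chart it is `√(det Gᵢⱼ)` times Lebesgue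
measure. -/
def IsRiemannianVolume (M : ClosedManifold (Rn n)) (μ : Measure M.pts) : Prop :=
  ∀ (x₀ : M.pts) (A : Set M.pts), MeasurableSet A → A ⊆ (chartAt (Rn n) x₀).source →
    μ A = ∫⁻ y in (chartAt (Rn n) x₀) '' A,
      ENNReal.ofReal (Real.sqrt (Matrix.of fun i j => metricCoeff M x₀ i j y).det)

section metric

variable {X : Type} [EMetricSpace X]

/-- `γ` is a minimizing geodesic from `x` to `y`, parametrised on `[0, 1]` proportionally to arc
length: `d(γ s, γ t) = |s - t| d(x, y)` for all `s`, `t`. -/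
def IsMinimizingGeodesic (x y : X) (γ : unitInterval → X) : Prop :=
  γ 0 = x ∧ γ 1 = y ∧ ∀ s t : unitInterval,
    edist (γ s) (γ t) = ENNReal.ofReal |(s : ℝ) - t| * edist x y

/-- `Γ` is geodesically convex: any two points of `Γ` are joined by a unique minimizing geodesic,
and this geodesic lies in `Γ`. -/
def GeodesicallyConvex (Γ : Set X) : Prop :=
  ∀ x ∈ Γ, ∀ y ∈ Γ, ∃ γ : unitInterval → X, IsMinimizingGeodesic x y γ ∧ (∀ t, γ t ∈ Γ) ∧
    ∀ γ' : unitInterval → X, IsMinimizingGeodesic x y γ' → γ' = γ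

end metric

end Pool.Agent.H82.St
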