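import Mathlib
import Pool.Agent.H82.Small
import Pool.Agent.H82.Statement

open scoped Manifold ContDiff Bundle
open MeasureTheory Bundle Set

noncomputable section
namespace Pool.Agent.H82

/-- the sphere `SG c` as a closed manifold -/
def theM (c : Conf) : St.ClosedManifold (St.Rn 2) :=
  letI : EMetricSpace (SG c) := EMetricSpace.ofRiemannianMetric (𝓡 2) (SG c)
  { pts := SG c
    emetric := inferInstance
    charted := inferInstanceAs (ChartedSpace R2 (SG c))
    smooth := inferInstanceAs (IsManifold (𝓡 2) ∞ (SG c))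
    bundle := instRB c
    metric := instSRB c
    riem := ⟨fun _ _ => rfl⟩
    compact := inferInstanceAs (CompactSpace (SG c))
    connected := inferInstanceAs (ConnectedSpace (SG c)) }

theorem main : ∀ c : ℝ, 0 < c → ∃ (M : St.ClosedManifold (St.Rn 2)) (vol : Measure M.pts),
    IsFiniteMeasure vol ∧ St.IsRiemannianVolume M vol ∧ St.StrictlyPositiveRicci M ∧
      ∀ Γ : Set M.pts, St.GeodesicallyConvex Γ → vol Γ < ENNReal.ofReal c * vol univ := by
  intro c hc
  obtain ⟨κ, s, hs, m, hκ, hκ8, hs1, hm, hκm, hsmall⟩ := exists_small hc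
  have x₀ : SG (cf κ hs m) := SG.mk _ ⟨EuclideanSpace.single 0 1, by simp⟩
  have hF1 : ∀ X, (cf κ hs m).F X ≤ 1 := cf_le_one hκ hs
  have hF2 : ∀ X : E3, ‖X‖ = 1 → 1 / 2 ≤ (cf κ hs m).F X := by
    intro X hX
    refine le_trans ?_ (le_cf (m := m) hκ hs hs1 hX)
    have := Real.add_one_le_exp (-(4 * κ))
    linarith
  refine ⟨theM (cf κ hs m), volG _ x₀, ⟨vol_lt_top hF1 x₀⟩, isRiemannianVolume_volG _ x₀,
    strictlyPositiveRicci hκ hs hm hκm, fun Γ hΓ => ?_⟩
  have h1 : volG _ x₀ Γ < ENNReal.ofReal c := by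
    refine hsmall x₀ Γ ?_
    intro x hx y hy
    obtain ⟨γ, hγ, hin, huniq⟩ := hΓ (SG.mk (cf κ hs m) x) hx (SG.mk (cf κ hs m) y) hy
    exact ⟨γ, hγ, hin, fun γ' hγ' => huniq γ' hγ'⟩
  refine h1.trans_le ?_
  have h2 := one_le_vol hF2 x₀
  calc ENNReal.ofReal c = ENNReal.ofReal c * 1 := (mul_one _).symm
    _ ≤ _ := mul_le_mul_right h2 _

end Pool.Agent.H82
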